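import Mathlib

set_option autoImplicit false

namespace Pool.Agent.Helper745.Geo

open Complex

/-- length of the edges between level k and level k+1 -/
noncomputable def L (C : ℝ) (k : ℕ) : ℝ := C * (1 / 4) ^ (k * (k + 1))

/-- the direction (relative to the incoming direction) of child number j of a vertex at level k -/
noncomputable def ang (k j : ℕ) : ℝ :=
  if k = 0 then (j : ℝ) * (2 * Real.pi / 5)
  else ((j : ℝ) - 3 / 2) * (Real.pi / 3 + 3 * (1 / 16) ^ (k + 1))

noncomputable def G (C : ℝ) : ℕ → List ℕ → ℂ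
  | _, [] => 0
  | k, j :: t => exp ((ang k j : ℝ) * I) * ((L C k : ℝ) + G C (k + 1) t)

theorem L_pos {C : ℝ} (hC : 0 < C) (k : ℕ) : 0 < L C k := by
  unfold L; positivity

theorem L_succ (C : ℝ) (k : ℕ) : L C (k + 1) = (1 / 16) ^ (k + 1) * L C k := by
  unfold L
  have : (k + 1) * (k + 1 + 1) = k * (k + 1) + 2 * (k + 1) := by ring
  have h2 : ((1 : ℝ) / 4) ^ (2 * (k + 1)) = (1 / 16) ^ (k + 1) := by
    rw [pow_mul]; norm_num
  rw [this, pow_add, h2]
  ring

theorem L_succ_le {C : ℝ} (hC : 0 < C) (k : ℕ) : L C (k + 1) ≤ L C k / 16 := by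
  rw [L_succ, pow_succ]
  have h1 : ((1 : ℝ) / 16) ^ k ≤ 1 := pow_le_one₀ (by norm_num) (by norm_num)
  have h2 := L_pos hC k
  nlinarith

theorem L_anti {C : ℝ} (hC : 0 < C) {i j : ℕ} (h : i ≤ j) : L C j ≤ L C i := by
  induction h with
  | refl => exact le_refl _
  | @step m _ ih =>
    have h1 := L_succ_le hC m
    have h2 := L_pos hC m
    linarith

theorem norm_rot (x : ℝ) (z : ℂ) : ‖exp ((x : ℝ) * I) * z‖ = ‖z‖ := by
  rw [norm_mul, Complex.norm_exp_ofReal_mul_I, one_mul]

theorem norm_G_le {C : ℝ} (hC : 0 < C) (t : List ℕ) : ∀ k, ‖G C k t‖ ≤ 16 / 15 * L C k := by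
  induction t with
  | nil => intro k; simp only [G, norm_zero]; have := L_pos hC k; positivity
  | cons j t ih =>
    intro k
    rw [G, norm_rot]
    have h1 := norm_add_le ((L C k : ℝ) : ℂ) (G C (k + 1) t)
    have h2 := ih (k + 1)
    have h3 := L_succ_le hC k
    have h4 : ‖((L C k : ℝ) : ℂ)‖ = L C k := by
      rw [Complex.norm_real, Real.norm_eq_abs, abs_of_pos (L_pos hC k)]
    linarith

/-- squared distance of two unit vectors -/
theorem norm_sq_exp_sub (x y : ℝ) :
    ‖exp ((x : ℝ) * I) - exp ((y : ℝ) * I)‖ ^ 2 = 2 - 2 * Real.cos (x - y) := by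
  rw [← Complex.normSq_eq_norm_sq, Complex.exp_mul_I, Complex.exp_mul_I, ← Complex.ofReal_cos,
    ← Complex.ofReal_sin, ← Complex.ofReal_cos, ← Complex.ofReal_sin, Complex.normSq_apply]
  simp only [Complex.sub_re, Complex.add_re, Complex.ofReal_re, Complex.mul_re, Complex.ofReal_im,
    Complex.I_re, Complex.I_im, Complex.sub_im, Complex.add_im, Complex.mul_im]
  rw [Real.cos_sub]
  have h1 := Real.sin_sq_add_cos_sq x
  have h2 := Real.sin_sq_add_cos_sq y
  nlinarith

theorem cos_two_pi_div_five : Real.cos (2 * Real.pi / 5) ≤ 0.3091 := by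
  have h : 2 * Real.pi / 5 = 2 * (Real.pi / 5) := by ring
  rw [h, Real.cos_two_mul, Real.cos_pi_div_five]
  have h5 : Real.sqrt 5 ≤ 2.2361 := by
    rw [Real.sqrt_le_left (by norm_num)]; norm_num
  have h5' : 0 ≤ Real.sqrt 5 := Real.sqrt_nonneg 5
  have h6 : Real.sqrt 5 ^ 2 = 5 := Real.sq_sqrt (by norm_num)
  nlinarith

theorem cos_le_of_between {θ x : ℝ} (h0 : 0 ≤ θ) (h1 : θ ≤ x) (h2 : x ≤ 2 * Real.pi - θ) :
    Real.cos x ≤ Real.cos θ := by
  by_cases hx : x ≤ Real.pi
  · exact Real.cos_le_cos_of_nonneg_of_le_pi h0 hx h1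
  · have : Real.cos x = Real.cos (2 * Real.pi - x) := by
      rw [Real.cos_two_pi_sub]
    rw [this]
    apply Real.cos_le_cos_of_nonneg_of_le_pi h0 <;> linarith

/-- if two slots are distinct then the cosine of the difference is small -/
theorem cos_ang_root {j j' : ℕ} (hj : j < 5) (hj' : j' < 5) (hne : j ≠ j') :
    Real.cos (ang 0 j - ang 0 j') ≤ 0.3091 := by
  have key : ∀ a b : ℕ, a < b → b < 5 → Real.cos (ang 0 b - ang 0 a) ≤ 0.3091 := by
    intro a b hab hb
    refine le_trans ?_ cos_two_pi_div_five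
    have hpi := Real.pi_pos
    have e : ang 0 b - ang 0 a = ((b : ℝ) - a) * (2 * Real.pi / 5) := by
      simp only [ang, if_true]; ring
    rw [e]
    have h1 : (1 : ℝ) ≤ (b : ℝ) - a := by
      have : (a : ℝ) + 1 ≤ b := by exact_mod_cast hab
      linarith
    have h2 : (b : ℝ) - a ≤ 4 := by
      have : (b : ℝ) ≤ 4 := by exact_mod_cast Nat.lt_succ_iff.mp hb
      have : (0 : ℝ) ≤ a := by positivity
      linarith
    apply cos_le_of_between (by positivity)
    · nlinarith
    · nlinarith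
  rcases lt_or_gt_of_ne hne with h | h
  · have := key j j' h hj'
    rw [← Real.cos_neg, neg_sub]; exact this
  · exact key j' j h hj

theorem cos_small {δ : ℝ} (h0 : 0 < δ) (h1 : δ ≤ 1 / 64) :
    2 - 2 * Real.cos (Real.pi / 3 + δ) ≥ (1 + 0.8 * δ) ^ 2 := by
  rw [Real.cos_add, Real.cos_pi_div_three, Real.sin_pi_div_three]
  have hc : Real.cos δ ≤ 1 := Real.cos_le_one δ
  have hs' : δ - δ ^ 3 / 6 < Real.sin δ := Real.sin_gt_sub_cube h0
  have h03 : 0 < δ ^ 3 := by positivity
  have hs : δ - δ ^ 3 / 4 < Real.sin δ := by linarith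
  have h3 : (1.73 : ℝ) ≤ Real.sqrt 3 := by
    apply Real.le_sqrt_of_sq_le; norm_num
  have hs0 : 0 < δ - δ ^ 3 / 4 := by nlinarith [sq_nonneg δ]
  have : Real.sqrt 3 * Real.sin δ ≥ 1.73 * (δ - δ ^ 3 / 4) := by
    nlinarith
  nlinarith [sq_nonneg δ, mul_pos h0 h0, mul_pos (mul_pos h0 h0) h0]

theorem cos_ang_succ {k j j' : ℕ} (hk : k ≠ 0) (hj : j < 4) (hj' : j' < 4) (hne : j ≠ j') :
    Real.cos (ang k j - ang k j') ≤ Real.cos (Real.pi / 3 + 3 * (1 / 16) ^ (k + 1)) := by
  have hpi := Real.pi_gt_three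
  have hd : ((1 : ℝ) / 16) ^ (k + 1) ≤ 1 / 256 := by
    have : ((1 : ℝ) / 16) ^ (k + 1) ≤ (1 / 16) ^ 2 :=
      pow_le_pow_of_le_one (by norm_num) (by norm_num) (by omega)
    norm_num at this ⊢; linarith
  have hd0 : 0 < ((1 : ℝ) / 16) ^ (k + 1) := by positivity
  have key : ∀ a b : ℕ, a < b → b < 4 →
      Real.cos (ang k b - ang k a) ≤ Real.cos (Real.pi / 3 + 3 * (1 / 16) ^ (k + 1)) := by
    intro a b hab hb
    have e : ang k b - ang k a = ((b : ℝ) - a) * (Real.pi / 3 + 3 * (1 / 16) ^ (k + 1)) := by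
      simp only [ang, if_neg hk]; ring
    rw [e]
    have h1 : (1 : ℝ) ≤ (b : ℝ) - a := by
      have : (a : ℝ) + 1 ≤ b := by exact_mod_cast hab
      linarith
    have h2 : (b : ℝ) - a ≤ 3 := by
      have : (b : ℝ) ≤ 3 := by exact_mod_cast Nat.lt_succ_iff.mp hb
      have : (0 : ℝ) ≤ a := by positivity
      linarith
    apply cos_le_of_between (by positivity)
    · nlinarith
    · nlinarith
  rcases lt_or_gt_of_ne hne with h | h
  · have := key j j' h hj'
    rw [← Real.cos_neg, neg_sub]; exact this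
  · exact key j' j h hj

/-- number of slots available at level k -/
def slots (k : ℕ) : ℕ := if k = 0 then 5 else 4

theorem unit_sep {k j j' : ℕ} (hj : j < slots k) (hj' : j' < slots k) (hne : j ≠ j') :
    1 + 2.4 * (1 / 16) ^ (k + 1) ≤ ‖exp ((ang k j : ℝ) * I) - exp ((ang k j' : ℝ) * I)‖ := by
  apply le_of_sq_le_sq ?_ (norm_nonneg _)
  rw [norm_sq_exp_sub]
  by_cases hk : k = 0
  · subst hk
    simp only [slots, if_true] at hj hj'
    have := cos_ang_root hj hj' hne
    norm_num
    norm_num at this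
    linarith
  · simp only [slots, if_neg hk] at hj hj'
    have h1 := cos_ang_succ hk hj hj' hne
    have hd : ((1 : ℝ) / 16) ^ (k + 1) ≤ 1 / 256 := by
      have : ((1 : ℝ) / 16) ^ (k + 1) ≤ (1 / 16) ^ 2 :=
        pow_le_pow_of_le_one (by norm_num) (by norm_num) (by omega)
      norm_num at this ⊢; linarith
    have hd0 : 0 < ((1 : ℝ) / 16) ^ (k + 1) := by positivity
    have h2 := cos_small (δ := 3 * (1 / 16) ^ (k + 1)) (by positivity) (by linarith)
    have e : (1 + 2.4 * ((1 : ℝ) / 16) ^ (k + 1)) = 1 + 0.8 * (3 * (1 / 16) ^ (k + 1)) := by ring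
    rw [e]
    linarith

/-- Separation of different branches. -/
theorem sep_branch {C : ℝ} (hC : 0 < C) {k j j' : ℕ} (hj : j < slots k) (hj' : j' < slots k)
    (hne : j ≠ j') (s t : List ℕ) :
    L C k + 1 / 4 * L C (k + 1) ≤ ‖G C k (j :: s) - G C k (j' :: t)‖ := by
  have e : G C k (j :: s) - G C k (j' :: t) =
      (exp ((ang k j : ℝ) * I) - exp ((ang k j' : ℝ) * I)) * (L C k : ℝ) +
      (exp ((ang k j : ℝ) * I) * G C (k + 1) s - exp ((ang k j' : ℝ) * I) * G C (k + 1) t) := by
    simp only [G]; ring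
  rw [e]
  set a := (exp ((ang k j : ℝ) * I) - exp ((ang k j' : ℝ) * I)) * ((L C k : ℝ) : ℂ) with ha
  set b := exp ((ang k j : ℝ) * I) * G C (k + 1) s with hb
  set c := exp ((ang k j' : ℝ) * I) * G C (k + 1) t with hc
  have h1 : ‖a‖ ≥ (1 + 2.4 * (1 / 16) ^ (k + 1)) * L C k := by
    rw [ha, norm_mul, Complex.norm_real, Real.norm_eq_abs, abs_of_pos (L_pos hC k)]
    exact mul_le_mul_of_nonneg_right (unit_sep hj hj' hne) (L_pos hC k).le
  have h2 : ‖b‖ ≤ 16 / 15 * L C (k + 1) := by rw [hb, norm_rot]; exact norm_G_le hC s _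
  have h3 : ‖c‖ ≤ 16 / 15 * L C (k + 1) := by rw [hc, norm_rot]; exact norm_G_le hC t _
  have h4 : ‖a‖ ≤ ‖a + (b - c)‖ + ‖b - c‖ := by
    calc ‖a‖ = ‖(a + (b - c)) - (b - c)‖ := by ring_nf
      _ ≤ _ := norm_sub_le _ _
  have h5 : ‖b - c‖ ≤ ‖b‖ + ‖c‖ := norm_sub_le _ _
  have h6 := L_succ C k
  have h7 := L_pos hC (k + 1)
  have h8 : (1 + 2.4 * (1 / 16) ^ (k + 1)) * L C k = L C k + 2.4 * L C (k + 1) := by
    rw [h6]; ring
  rw [h8] at h1
  norm_num at h1
  linarith

theorem cos_ang_ge {k j : ℕ} (hk : k ≠ 0) (hj : j < 4) :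
    -(9 / 2 * (1 / 16) ^ (k + 1)) ≤ Real.cos (ang k j) := by
  have hpi := Real.pi_gt_three
  have hd : ((1 : ℝ) / 16) ^ (k + 1) ≤ 1 / 256 := by
    have : ((1 : ℝ) / 16) ^ (k + 1) ≤ (1 / 16) ^ 2 :=
      pow_le_pow_of_le_one (by norm_num) (by norm_num) (by omega)
    norm_num at this ⊢; linarith
  have hd0 : 0 < ((1 : ℝ) / 16) ^ (k + 1) := by positivity
  set δ : ℝ := 3 * (1 / 16) ^ (k + 1) with hδ
  have e : ang k j = ((j : ℝ) - 3 / 2) * (Real.pi / 3 + δ) := by
    simp only [ang, if_neg hk, hδ]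
  have habs : |ang k j| ≤ Real.pi / 2 + 3 / 2 * δ := by
    rw [e, abs_mul, abs_of_pos (by positivity : 0 < Real.pi / 3 + δ)]
    have : |(j : ℝ) - 3 / 2| ≤ 3 / 2 := by
      rw [abs_le]
      have h1 : (j : ℝ) ≤ 3 := by exact_mod_cast Nat.lt_succ_iff.mp hj
      have h2 : (0 : ℝ) ≤ j := by positivity
      constructor <;> linarith
    calc |(j : ℝ) - 3 / 2| * (Real.pi / 3 + δ) ≤ 3 / 2 * (Real.pi / 3 + δ) :=
          mul_le_mul_of_nonneg_right this (by positivity)
      _ = _ := by ring
  rw [← Real.cos_abs]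
  have h1 : Real.cos (Real.pi / 2 + 3 / 2 * δ) ≤ Real.cos |ang k j| := by
    apply Real.cos_le_cos_of_nonneg_of_le_pi (abs_nonneg _) _ habs
    rw [hδ]; linarith
  have h2 : Real.cos (Real.pi / 2 + 3 / 2 * δ) = - Real.sin (3 / 2 * δ) := by
    rw [add_comm, Real.cos_add_pi_div_two]
  have h3 : Real.sin (3 / 2 * δ) ≤ 3 / 2 * δ := Real.sin_le (by positivity)
  rw [h2] at h1
  rw [hδ] at h3 h1
  linarith

/-- Separation of a vertex from its proper descendants at depth at least two below. -/
theorem sep_desc {C : ℝ} (hC : 0 < C) {k j j' : ℕ} (hj' : j' < 4) (t : List ℕ) :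
    L C k + L C (k + 2) ≤ ‖G C k (j :: j' :: t)‖ := by
  rw [G, norm_rot, G]
  set E := exp ((ang (k + 1) j' : ℝ) * I) with hE
  have e : ((L C k : ℝ) : ℂ) + E * ((L C (k + 1) : ℝ) + G C (k + 1 + 1) t) =
      ((L C k : ℝ) + E * (L C (k + 1) : ℝ)) + E * G C (k + 1 + 1) t := by ring
  rw [e]
  set a : ℂ := (L C k : ℝ) + E * (L C (k + 1) : ℝ) with ha
  set b : ℂ := E * G C (k + 1 + 1) t with hb
  have h2 : ‖b‖ ≤ 16 / 15 * L C (k + 2) := by rw [hb, hE, norm_rot]; exact norm_G_le hC t _
  have h4 : ‖a‖ ≤ ‖a + b‖ + ‖b‖ := by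
    calc ‖a‖ = ‖(a + b) - b‖ := by ring_nf
      _ ≤ _ := norm_sub_le _ _
  have hx := L_pos hC k
  have hy := L_pos hC (k + 1)
  have hz := L_pos hC (k + 2)
  have hxy : L C (k + 1) = (1 / 16) ^ (k + 1) * L C k := L_succ C k
  have hyz : L C (k + 2) = (1 / 16) ^ (k + 2) * L C (k + 1) := L_succ C (k + 1)
  have hcos := cos_ang_ge (k := k + 1) (j := j') (by omega) hj'
  have h5 : ‖a‖ ^ 2 = L C k ^ 2 + L C (k + 1) ^ 2 +
      2 * L C k * L C (k + 1) * Real.cos (ang (k + 1) j') := by
    rw [← Complex.normSq_eq_norm_sq, ha, hE, Complex.exp_mul_I, ← Complex.ofReal_cos,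
      ← Complex.ofReal_sin, Complex.normSq_apply]
    simp only [Complex.add_re, Complex.ofReal_re, Complex.mul_re, Complex.ofReal_im,
      Complex.I_re, Complex.I_im, Complex.add_im, Complex.mul_im]
    have h1 := Real.sin_sq_add_cos_sq (ang (k + 1) j')
    nlinarith
  have h6 : L C k + 3 * L C (k + 2) ≤ ‖a‖ := by
    apply le_of_sq_le_sq ?_ (norm_nonneg _)
    rw [h5]
    set q : ℝ := (1 / 16) ^ (k + 1) with hq
    have hq0 : 0 < q := by positivity
    have hq1 : q ≤ 1 / 16 := by
      rw [hq, pow_succ]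
      have : ((1 : ℝ) / 16) ^ k ≤ 1 := pow_le_one₀ (by norm_num) (by norm_num)
      linarith
    have e2 : ((1 : ℝ) / 16) ^ (k + 2) = q / 16 := by rw [hq, pow_succ]; ring
    have e3 : L C (k + 2) = q ^ 2 / 16 * L C k := by rw [hyz, e2, hxy]; ring
    have e4 : ((1 : ℝ) / 16) ^ (k + 1 + 1) = q / 16 := e2
    rw [e4] at hcos
    rw [e3, hxy]
    have hq2 : q ^ 2 ≤ 1 / 256 := by nlinarith
    have hx2 : 0 < L C k ^ 2 := by positivity
    have hmul : 2 * L C k * (q * L C k) * Real.cos (ang (k + 1) j') ≥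
        2 * L C k * (q * L C k) * (-(9 / 2 * (q / 16))) :=
      mul_le_mul_of_nonneg_left hcos (by positivity)
    have key : (L C k + 3 * (q ^ 2 / 16 * L C k)) ^ 2 ≤
        L C k ^ 2 + (q * L C k) ^ 2 + 2 * L C k * (q * L C k) * (-(9 / 2 * (q / 16))) := by
      have : L C k ^ 2 + (q * L C k) ^ 2 + 2 * L C k * (q * L C k) * (-(9 / 2 * (q / 16)))
          - (L C k + 3 * (q ^ 2 / 16 * L C k)) ^ 2
          = L C k ^ 2 * (q ^ 2 * (1 / 16 - 9 / 256 * q ^ 2)) := by ring
      have h9 : 0 ≤ L C k ^ 2 * (q ^ 2 * (1 / 16 - 9 / 256 * q ^ 2)) := by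
        apply mul_nonneg hx2.le
        apply mul_nonneg (by positivity)
        nlinarith
      linarith
    linarith
  linarith

/-- admissible addresses starting at level k -/
def Valid : ℕ → List ℕ → Prop
  | _, [] => True
  | k, j :: t => j < slots k ∧ Valid (k + 1) t

/-- the cut inequality for addresses -/
theorem cut_sep {C : ℝ} (hC : 0 < C) (h : ℕ) :
    ∀ (w : List ℕ) (k : ℕ) (a b : List ℕ), Valid k a → Valid k b →
      k + a.length ≤ h → k + b.length ≤ h →
      w <+: a → ¬ w <+: b →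
      (a = w ∧ b = w.dropLast ∧ ‖G C k a - G C k b‖ = L C (k + w.length - 1)) ∨
      L C (k + w.length - 1) + 1 / 4 * L C h ≤ ‖G C k a - G C k b‖ := by
  intro w
  induction w with
  | nil => intro k a b _ _ _ _ _ hb; exact absurd (List.nil_prefix) hb
  | cons j w ih =>
    intro k a b hva hvb hla hlb hwa hwb
    have hlen : k + (j :: w).length - 1 = k + w.length := by
      simp only [List.length_cons]; omega
    rw [hlen]
    obtain ⟨a', rfl⟩ := hwa
    rw [List.cons_append] at hva hla ⊢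
    have hLk : L C (k + w.length) ≤ L C k := L_anti hC (by omega)
    cases b with
    | nil =>
      cases w with
      | nil =>
        cases a' with
        | nil =>
          left
          refine ⟨by simp, by simp, ?_⟩
          simp only [List.nil_append, List.length_nil, Nat.add_zero]
          rw [G, G, sub_zero, norm_rot]
          simp only [G, add_zero]
          rw [Complex.norm_real, Real.norm_eq_abs, abs_of_pos (L_pos hC k)]
        | cons j' a'' =>
          right
          simp only [List.nil_append] at hva hla ⊢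
          have h1 := sep_desc (C := C) hC (k := k) (j := j) (j' := j')
            (by have := hva.2.1; simpa [slots] using this) a''
          simp only [List.length_cons] at hla
          have h2 : L C h ≤ L C (k + 2) := L_anti hC (by omega)
          have h3 := L_pos hC h
          have e : G C k [] = 0 := rfl
          rw [e, sub_zero]
          linarith
      | cons j' w' =>
        right
        simp only [List.cons_append] at hva hla ⊢
        have h1 := sep_desc (C := C) hC (k := k) (j := j) (j' := j')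
          (by have := hva.2.1; simpa [slots] using this) (w' ++ a')
        simp only [List.length_cons] at hla
        have h2 : L C h ≤ L C (k + 2) := L_anti hC (by omega)
        have h3 := L_pos hC h
        have e : G C k [] = 0 := rfl
        rw [e, sub_zero]
        linarith
    | cons j2 b' =>
      by_cases hj : j = j2
      · subst hj
        have hwb' : ¬ w <+: b' := by
          intro h; apply hwb; exact (List.cons_prefix_cons).mpr ⟨rfl, h⟩
        have hlb' : k + 1 + b'.length ≤ h := by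
          simp only [List.length_cons] at hlb; omega
        have hla' : k + 1 + (w ++ a').length ≤ h := by
          simp only [List.length_cons] at hla; omega
        have hw0 : w ≠ [] := by
          intro h; rw [h] at hwb'; exact hwb' List.nil_prefix
        have hwl : 0 < w.length := List.length_pos_iff.mpr hw0
        have e : ‖G C k (j :: (w ++ a')) - G C k (j :: b')‖ =
            ‖G C (k + 1) (w ++ a') - G C (k + 1) b'‖ := by
          have : G C k (j :: (w ++ a')) - G C k (j :: b') =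
              exp ((ang k j : ℝ) * I) * (G C (k + 1) (w ++ a') - G C (k + 1) b') := by
            simp only [G]; ring
          rw [this, norm_rot]
        rw [e]
        have e2 : k + 1 + w.length - 1 = k + w.length := by omega
        rcases ih (k + 1) (w ++ a') b' hva.2 hvb.2 hla' hlb' (List.prefix_append _ _) hwb' with
          ⟨h1, h2, h3⟩ | h1
        · left
          refine ⟨by rw [h1], ?_, by rw [h3, e2]⟩
          rw [h2, List.dropLast_cons_of_ne_nil hw0]
        · right
          rw [e2] at h1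
          exact h1
      · right
        have h1 := sep_branch hC (k := k) hva.1 hvb.1 hj (w ++ a') b'
        simp only [List.length_cons] at hla
        have h2 : L C h ≤ L C (k + 1) := L_anti hC (by omega)
        have h3 := L_pos hC h
        linarith

end Pool.Agent.Helper745.Geo
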