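import Mathlib
import Pool.Agent.Helper745.Geo

set_option autoImplicit false

namespace Pool.Agent.Helper745.Addr

open SimpleGraph Pool.Agent.Helper745.Geo

variable {n : ℕ}

theorem exists_parent {T : SimpleGraph (Fin n)} (hT : T.IsTree) {r v : Fin n} (hv : v ≠ r) :
    ∃ u, T.Adj u v ∧ T.dist r v = T.dist r u + 1 := by
  obtain ⟨p, hp⟩ := (hT.connected r v).exists_walk_length_eq_dist
  have hnn : ¬ p.Nil := by
    intro h; exact hv h.eq.symm
  refine ⟨p.penultimate, p.adj_penultimate hnn, ?_⟩
  have h1 : T.dist r p.penultimate ≤ p.dropLast.length := dist_le _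
  have h2 : p.dropLast.length + 1 = p.length := Walk.length_dropLast_add_one hnn
  rcases hT.dist_eq_dist_add_one_of_adj r (p.adj_penultimate hnn) with h3 | h3
  · omega
  · exact h3

theorem parent_unique {T : SimpleGraph (Fin n)} (hT : T.IsTree) {r v u u' : Fin n}
    (h1 : T.Adj u v) (h2 : T.dist r v = T.dist r u + 1)
    (h1' : T.Adj u' v) (h2' : T.dist r v = T.dist r u' + 1) : u = u' := by
  obtain ⟨p, hp, hpl⟩ := (hT.connected r u).exists_path_of_dist
  obtain ⟨q, hq, hql⟩ := (hT.connected r u').exists_path_of_dist
  have hvp : v ∉ p.support := by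
    intro h
    have := T.dist_le (p.takeUntil v h)
    have h3 := p.length_takeUntil_le h
    omega
  have hvq : v ∉ q.support := by
    intro h
    have := T.dist_le (q.takeUntil v h)
    have h3 := q.length_takeUntil_le h
    omega
  have hp' : (p.concat h1).IsPath := hp.concat hvp h1
  have hq' : (q.concat h1').IsPath := hq.concat hvq h1'
  have heq := (hT.existsUnique_path r v).unique hp' hq'
  have := congrArg Walk.penultimate heq
  simpa using this

open Classical in
noncomputable def par (T : SimpleGraph (Fin n)) (r v : Fin n) : Fin n :=
  if h : ∃ u, T.Adj u v ∧ T.dist r v = T.dist r u + 1 then h.choose else v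

theorem par_spec {T : SimpleGraph (Fin n)} (hT : T.IsTree) {r v : Fin n} (hv : v ≠ r) :
    T.Adj (par T r v) v ∧ T.dist r v = T.dist r (par T r v) + 1 := by
  have h := exists_parent hT hv
  unfold par
  rw [dif_pos h]
  exact h.choose_spec

theorem par_eq {T : SimpleGraph (Fin n)} (hT : T.IsTree) {r u v : Fin n}
    (h1 : T.Adj u v) (h2 : T.dist r v = T.dist r u + 1) : par T r v = u := by
  have hv : v ≠ r := by
    intro h; subst h
    rw [dist_self] at h2; omega
  obtain ⟨h3, h4⟩ := par_spec hT hv
  exact parent_unique hT h3 h4 h1 h2

open Classical in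
noncomputable def kids (T : SimpleGraph (Fin n)) (r u : Fin n) : Finset (Fin n) :=
  Finset.univ.filter (fun v => T.Adj u v ∧ T.dist r v = T.dist r u + 1)

theorem mem_kids {T : SimpleGraph (Fin n)} {r u v : Fin n} :
    v ∈ kids T r u ↔ T.Adj u v ∧ T.dist r v = T.dist r u + 1 := by
  simp [kids]

theorem mem_kids_par {T : SimpleGraph (Fin n)} (hT : T.IsTree) {r v : Fin n} (hv : v ≠ r) :
    v ∈ kids T r (par T r v) := by
  rw [mem_kids]; exact par_spec hT hv

noncomputable def slot (T : SimpleGraph (Fin n)) (r v : Fin n) : ℕ :=
  ((kids T r (par T r v)).filter (· < v)).card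

theorem slot_lt {T : SimpleGraph (Fin n)} {r v : Fin n}
    (hv : v ∈ kids T r (par T r v)) : slot T r v < (kids T r (par T r v)).card := by
  unfold slot
  apply Finset.card_lt_card
  rw [Finset.filter_ssubset]
  exact ⟨v, hv, lt_irrefl v⟩

theorem slot_inj {T : SimpleGraph (Fin n)} {r v v' : Fin n}
    (hv : v ∈ kids T r (par T r v)) (hv' : v' ∈ kids T r (par T r v'))
    (hp : par T r v = par T r v') (hs : slot T r v = slot T r v') : v = v' := by
  by_contra hne
  have key : ∀ a b : Fin n, a ∈ kids T r (par T r a) → par T r a = par T r b → a < b →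
      slot T r a < slot T r b := by
    intro a b ha hab hlt
    unfold slot
    apply Finset.card_lt_card
    rw [← hab]
    rw [Finset.ssubset_iff_of_subset]
    · refine ⟨a, ?_, ?_⟩
      · rw [Finset.mem_filter]; exact ⟨ha, hlt⟩
      · rw [Finset.mem_filter]; intro h; exact lt_irrefl _ h.2
    · intro z hz
      rw [Finset.mem_filter] at hz ⊢
      exact ⟨hz.1, hz.2.trans hlt⟩
  rcases lt_or_gt_of_ne hne with h | h
  · have := key v v' hv hp h; omega
  · have := key v' v hv' hp.symm h; omega

theorem kids_card {T : SimpleGraph (Fin n)} (hT : T.IsTree)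
    (hdeg : ∀ v, (T.neighborSet v).ncard ≤ 5) (r u : Fin n) :
    (kids T r u).card ≤ slots (T.dist r u) := by
  classical
  have h5 : (kids T r u).card ≤ (T.neighborSet u).ncard := by
    rw [← Set.ncard_coe_finset]
    apply Set.ncard_le_ncard
    · intro v hv
      rw [Finset.mem_coe, mem_kids] at hv
      exact hv.1
    · exact Set.toFinite _
  by_cases hu : u = r
  · subst hu
    rw [dist_self]
    simp only [slots, if_true]
    exact h5.trans (hdeg u)
  · obtain ⟨h1, h2⟩ := par_spec hT hu
    have hd : T.dist r u ≠ 0 := by omega
    simp only [slots, if_neg hd]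
    have hnot : par T r u ∉ kids T r u := by
      rw [mem_kids]; intro h; omega
    have h6 : (insert (par T r u) (kids T r u)).card ≤ (T.neighborSet u).ncard := by
      rw [← Set.ncard_coe_finset]
      apply Set.ncard_le_ncard
      · intro v hv
        rw [Finset.mem_coe, Finset.mem_insert, mem_kids] at hv
        rcases hv with hv | hv
        · rw [hv]; exact h1.symm
        · exact hv.1
      · exact Set.toFinite _
    rw [Finset.card_insert_of_notMem hnot] at h6
    have := hdeg u
    omega

noncomputable def addrAux (T : SimpleGraph (Fin n)) (r : Fin n) : ℕ → Fin n → List ℕ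
  | 0, _ => []
  | k + 1, v => addrAux T r k (par T r v) ++ [slot T r v]

noncomputable def addr (T : SimpleGraph (Fin n)) (r v : Fin n) : List ℕ :=
  addrAux T r (T.dist r v) v

theorem length_addrAux (T : SimpleGraph (Fin n)) (r : Fin n) :
    ∀ (k : ℕ) (v : Fin n), (addrAux T r k v).length = k := by
  intro k
  induction k with
  | zero => intro v; rfl
  | succ k ih => intro v; simp [addrAux, ih]

theorem length_addr (T : SimpleGraph (Fin n)) (r v : Fin n) :
    (addr T r v).length = T.dist r v := length_addrAux _ _ _ _

theorem addr_root (T : SimpleGraph (Fin n)) (r : Fin n) : addr T r r = [] := by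
  simp [addr, addrAux]

theorem addr_of_parent {T : SimpleGraph (Fin n)} (hT : T.IsTree) {r u v : Fin n}
    (h1 : T.Adj u v) (h2 : T.dist r v = T.dist r u + 1) :
    addr T r v = addr T r u ++ [slot T r v] := by
  unfold addr
  rw [h2, addrAux, par_eq hT h1 h2]

theorem addr_inj {T : SimpleGraph (Fin n)} (hT : T.IsTree) (r : Fin n) :
    Function.Injective (addr T r) := by
  have key : ∀ k : ℕ, ∀ u v : Fin n, T.dist r u = k → T.dist r v = k →
      addrAux T r k u = addrAux T r k v → u = v := by
    intro k
    induction k with
    | zero =>
      intro u v hu hv _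
      rw [hT.connected.dist_eq_zero_iff] at hu hv
      rw [← hu, ← hv]
    | succ k ih =>
      intro u v hu hv h
      have hur : u ≠ r := by intro h; rw [h, dist_self] at hu; omega
      have hvr : v ≠ r := by intro h; rw [h, dist_self] at hv; omega
      rw [addrAux, addrAux] at h
      have h' := List.append_inj' h rfl
      obtain ⟨h1, h2⟩ := par_spec hT hur
      obtain ⟨h3, h4⟩ := par_spec hT hvr
      have hp := ih (par T r u) (par T r v) (by omega) (by omega) h'.1
      have hs : slot T r u = slot T r v := by simpa using h'.2
      exact slot_inj (mem_kids_par hT hur) (mem_kids_par hT hvr) hp hs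
  intro u v h
  have hl := congrArg List.length h
  rw [length_addr, length_addr] at hl
  unfold addr at h
  rw [hl] at h
  exact key _ u v hl rfl h

theorem valid_append_singleton (a : List ℕ) (s : ℕ) : ∀ k : ℕ,
    Valid k (a ++ [s]) ↔ Valid k a ∧ s < slots (k + a.length) := by
  induction a with
  | nil => intro k; simp [Valid]
  | cons j a ih =>
    intro k
    simp only [List.cons_append, Valid, ih, List.length_cons]
    have : k + 1 + a.length = k + (a.length + 1) := by omega
    rw [this]
    tauto

theorem valid_addr {T : SimpleGraph (Fin n)} (hT : T.IsTree)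
    (hdeg : ∀ v, (T.neighborSet v).ncard ≤ 5) (r : Fin n) :
    ∀ v, Valid 0 (addr T r v) := by
  have key : ∀ k : ℕ, ∀ v : Fin n, T.dist r v = k → Valid 0 (addrAux T r k v) := by
    intro k
    induction k with
    | zero => intro v _; trivial
    | succ k ih =>
      intro v hv
      have hvr : v ≠ r := by intro h; rw [h, dist_self] at hv; omega
      obtain ⟨h1, h2⟩ := par_spec hT hvr
      rw [addrAux, valid_append_singleton, length_addrAux, Nat.zero_add]
      refine ⟨ih _ (by omega), ?_⟩
      have h3 := slot_lt (mem_kids_par hT hvr)
      have h4 := kids_card hT hdeg r (par T r v)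
      have h5 : T.dist r (par T r v) = k := by omega
      rw [h5] at h4
      omega
  intro v
  exact key _ v rfl

/-- Every tree has a vertex of eccentricity at most half the number of vertices. -/
theorem exists_centre {T : SimpleGraph (Fin n)} (hT : T.IsTree) :
    ∃ r, ∀ v, 2 * T.dist r v ≤ n := by
  classical
  have hne : (Finset.univ : Finset (Fin n)).Nonempty := by
    obtain ⟨v⟩ := hT.connected.nonempty
    exact ⟨v, Finset.mem_univ _⟩
  let ecc : Fin n → ℕ := fun r => Finset.univ.sup (fun v => T.dist r v)
  have hecc : ∀ r v, T.dist r v ≤ ecc r := fun r v =>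
    Finset.le_sup (f := fun v => T.dist r v) (Finset.mem_univ v)
  obtain ⟨r, _, hr⟩ := Finset.exists_min_image Finset.univ ecc hne
  refine ⟨r, ?_⟩
  have hR : 2 * ecc r ≤ n := by
    by_cases h0 : ecc r = 0
    · omega
    obtain ⟨x, _, hx⟩ := Finset.exists_mem_eq_sup Finset.univ hne (fun v => T.dist r v)
    have hx' : T.dist r x = ecc r := hx.symm
    have hxr : r ≠ x := by
      intro h; rw [← h, dist_self] at hx'; exact h0 hx'.symm
    obtain ⟨r', hr'1, hr'2⟩ := exists_parent hT (r := x) (v := r) hxr
    have hmin := hr r' (Finset.mem_univ _)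
    obtain ⟨y, _, hy⟩ := Finset.exists_mem_eq_sup Finset.univ hne (fun v => T.dist r' v)
    have hy' : T.dist r' y = ecc r' := hy.symm
    have hrx : T.dist x r = ecc r := by rw [dist_comm]; exact hx'
    -- two disjoint sets
    let A : Finset (Fin n) := Finset.univ.filter (fun v => T.dist v r' = T.dist v r + 1)
    let B : Finset (Fin n) := Finset.univ.filter (fun v => T.dist v r = T.dist v r' + 1)
    have hdisj : Disjoint A B := by
      rw [Finset.disjoint_filter]
      intro v _ h1 h2; omega
    have hcardle : A.card + B.card ≤ n := by
      rw [← Finset.card_union_of_disjoint hdisj]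
      exact (Finset.card_le_univ _).trans (by simp)
    have side : ∀ (a b z : Fin n), T.Adj a b → T.dist z b = T.dist z a + 1 →
        T.dist a z + 1 ≤
          (Finset.univ.filter (fun v => T.dist v b = T.dist v a + 1)).card := by
      intro a b z hab hz
      obtain ⟨p, hp⟩ := (hT.connected a z).exists_walk_length_eq_dist
      have hgv : ∀ i ≤ p.length, T.dist a (p.getVert i) = i ∧
          T.dist (p.getVert i) b = T.dist (p.getVert i) a + 1 := by
        intro i hi
        have e1 : T.dist a (p.getVert i) ≤ i := by
          have := T.dist_le (p.take i)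
          rw [Walk.take_length] at this
          omega
        have e2 : T.dist (p.getVert i) z ≤ p.length - i := by
          have := T.dist_le (p.drop i)
          rw [Walk.drop_length] at this
          exact this
        have e3 := hT.connected.dist_triangle (u := a) (v := p.getVert i) (w := z)
        have e4 : T.dist a (p.getVert i) = i := by omega
        refine ⟨e4, ?_⟩
        have e5 := hT.connected.dist_triangle (u := b) (v := p.getVert i) (w := z)
        have e6 : T.dist b z = T.dist a z + 1 := by
          rw [dist_comm, hz, dist_comm]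
        rcases hT.dist_eq_dist_add_one_of_adj (p.getVert i) hab with h | h
        · exfalso
          rw [dist_comm (u := p.getVert i) (v := a), dist_comm (u := p.getVert i) (v := b)] at h
          omega
        · exact h
      have hinj : Set.InjOn (fun i => p.getVert i) (Finset.range (p.length + 1) : Set ℕ) := by
        intro i hi j hj hij
        simp only [Finset.coe_range, Set.mem_Iio] at hi hj
        have h1 := (hgv i (by omega)).1
        have h2 := (hgv j (by omega)).1
        simp only at hij
        rw [hij] at h1
        omega
      have : (Finset.range (p.length + 1)).card ≤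
          (Finset.univ.filter (fun v => T.dist v b = T.dist v a + 1)).card := by
        apply Finset.card_le_card_of_injOn (fun i => p.getVert i) _ hinj
        intro i hi
        simp only [Finset.coe_range, Set.mem_Iio] at hi
        simp only [Finset.coe_filter, Finset.mem_univ, true_and, Set.mem_setOf_eq]
        exact (hgv i (by omega)).2
      rw [Finset.card_range, hp] at this
      exact this
    have hB := side r' r x hr'1 hr'2
    have hyA : T.dist y r' = T.dist y r + 1 := by
      rcases hT.dist_eq_dist_add_one_of_adj y hr'1 with h | h
      · exact h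
      · exfalso
        have := hecc r y
        rw [dist_comm] at this
        rw [dist_comm (u := r') (v := y)] at hy'
        omega
    have hA := side r r' y hr'1.symm hyA
    have e1 : T.dist r' x + 1 = ecc r := by
      rw [dist_comm]; omega
    have e2 : T.dist r y + 1 ≥ ecc r := by
      rw [dist_comm (u := r') (v := y)] at hy'
      rw [dist_comm]; omega
    have hA' : T.dist r y + 1 ≤ A.card := hA
    have hB' : T.dist r' x + 1 ≤ B.card := hB
    omega
  intro v
  have := hecc r v
  omega

end Pool.Agent.Helper745.Addr
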