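import Mathlib

set_option autoImplicit false

namespace Pool.Agent.Helper745.Side

open Real

/-- a quadratic with leading coefficient one that is negative at the end points of an interval is
negative on the interval -/
theorem cvx {l h x b c : ℝ} (h1 : l ≤ x) (h2 : x ≤ h) (hl : l ^ 2 + b * l + c < 0)
    (hh : h ^ 2 + b * h + c < 0) : x ^ 2 + b * x + c < 0 := by
  by_contra hcon
  push Not at hcon
  rcases eq_or_lt_of_le h1 with h3 | h3
  · rw [← h3] at hcon; linarith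
  rcases eq_or_lt_of_le h2 with h4 | h4
  · rw [h4] at hcon; linarith
  have key : (h - l) * (x ^ 2 + b * x + c) = (h - x) * (l ^ 2 + b * l + c) +
      (x - l) * (h ^ 2 + b * h + c) - (h - l) * (h - x) * (x - l) := by ring
  have e1 : 0 < h - l := by linarith
  have e2 : 0 < h - x := by linarith
  have e3 : 0 < x - l := by linarith
  have e4 := mul_nonneg e1.le hcon
  have e5 := mul_neg_of_pos_of_neg e2 hl
  have e6 := mul_neg_of_pos_of_neg e3 hh
  have e7 := mul_pos (mul_pos e1 e2) e3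
  linarith

/-- squared distance of the far end points of a path of three edges with middle edge of length one,
outer edges of lengths l and r and cosines A, B, C of the angles and of their sum -/
def S (l r A B C : ℝ) : ℝ := 1 + r ^ 2 + l ^ 2 - 2 * r * B - 2 * l * A + 2 * r * l * C

/-- Reduction lemma. -/
theorem reduction {l r A B C : ℝ} (hl : 0 < l) (hr : 0 < r) (hA : 0 < A) (hA1 : 2 * A ≤ 1)
    (hlA : 2 * A ≤ l) (hC : C ≤ -1 / 2) (c1 : 2 - 2 * A - 2 * B + 2 * C < 0) (c3 : 1 - 2 * B + 4 * A * C < 0)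
    (h1 : 1 ≤ S l r A B C) (h2 : l ^ 2 ≤ S l r A B C) (h3 : r ^ 2 ≤ S l r A B C) :
    r < 1 ∧ 0 ≤ 1 + r ^ 2 - 2 * r * B - 2 * A + 2 * r * C := by
  unfold S at h1 h2 h3
  have hBl : 0 ≤ B - l * C := by nlinarith
  have hAr : 0 ≤ A - r * C := by nlinarith
  by_cases hr1 : r < 1
  · refine ⟨hr1, ?_⟩
    by_cases hl1 : 1 ≤ l
    · nlinarith
    · push Not at hl1
      by_contra hcon
      push Not at hcon
      have := cvx (l := 2 * A) (h := 1) (x := l) (b := -2 * A + 2 * r * C)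
        (c := r ^ 2 - 2 * r * B) hlA hl1.le (by nlinarith) (by linarith)
      nlinarith
  · exfalso
    push Not at hr1
    by_cases hl1 : 1 ≤ l
    · rcases le_total r l with h | h
      · have e1 : 1 + r ^ 2 - 2 * r * B - 2 * r * (A - r * C) < 0 := by
          nlinarith [mul_nonneg (sub_nonneg.mpr hr1) hr.le]
        nlinarith
      · have e1 : 1 + l ^ 2 - 2 * l * A - 2 * l * (B - l * C) < 0 := by
          nlinarith [mul_nonneg (sub_nonneg.mpr hl1) hl.le]
        nlinarith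
    · push Not at hl1
      have := cvx (l := 2 * A) (h := 1) (x := l) (b := -2 * A + 2 * C)
        (c := 1 - 2 * B) hlA hl1.le (by nlinarith) (by linarith)
      nlinarith

theorem cos_lt_neg_half {x : ℝ} (h1 : 2 * π / 3 < x) (h2 : x < 4 * π / 3) :
    cos x < -1 / 2 := by
  have hpi := pi_pos
  have e : cos x = - cos (x - π) := by rw [cos_sub_pi]; ring
  have h3 : cos (π / 3) < cos |x - π| := by
    apply cos_lt_cos_of_nonneg_of_le_pi (abs_nonneg _)
    · linarith
    · rw [abs_lt]; constructor <;> linarith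
  rw [cos_abs, cos_pi_div_three] at h3
  rw [e]; linarith

theorem cos_le_neg_half {x : ℝ} (h1 : 2 * π / 3 ≤ x) (h2 : x ≤ 4 * π / 3) :
    cos x ≤ -1 / 2 := by
  have hpi := pi_pos
  have e : cos x = - cos (x - π) := by rw [cos_sub_pi]; ring
  have h3 : cos (π / 3) ≤ cos |x - π| := by
    apply cos_le_cos_of_nonneg_of_le_pi (abs_nonneg _)
    · linarith
    · rw [abs_le]; constructor <;> linarith
  rw [cos_abs, cos_pi_div_three] at h3
  rw [e]; linarith

theorem corner1 {α β : ℝ} (hα : 0 < α) (hβ : 0 < β) (h : α + β < π) :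
    2 - 2 * cos α - 2 * cos β + 2 * cos (α + β) < 0 := by
  have e1 : cos α = 1 - 2 * sin (α / 2) ^ 2 := by
    have := cos_sq' (α / 2)
    have h2 := cos_two_mul (α / 2)
    rw [show 2 * (α / 2) = α by ring] at h2
    linarith
  have e2 : cos β = 1 - 2 * sin (β / 2) ^ 2 := by
    have := cos_sq' (β / 2)
    have h2 := cos_two_mul (β / 2)
    rw [show 2 * (β / 2) = β by ring] at h2
    linarith
  have e3 : cos (α + β) = 2 * cos (α / 2 + β / 2) ^ 2 - 1 := by
    have h2 := cos_two_mul (α / 2 + β / 2)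
    rw [show 2 * (α / 2 + β / 2) = α + β by ring] at h2
    exact h2
  have s1 : 0 < sin (α / 2) := sin_pos_of_pos_of_lt_pi (by linarith) (by linarith)
  have s2 : 0 < sin (β / 2) := sin_pos_of_pos_of_lt_pi (by linarith) (by linarith)
  have s3 : 0 < cos (α / 2 + β / 2) := cos_pos_of_mem_Ioo ⟨by linarith, by linarith⟩
  have q1 := cos_sq' (α / 2)
  have q2 := cos_sq' (β / 2)
  have key : 2 - 2 * cos α - 2 * cos β + 2 * cos (α + β) =
      -8 * (cos (α / 2 + β / 2) * (sin (α / 2) * sin (β / 2))) := by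
    rw [e1, e2, e3, cos_add]
    linear_combination (4 * cos (β / 2) ^ 2) * q1 + (4 * (1 - sin (α / 2) ^ 2)) * q2
  rw [key]
  have := mul_pos s3 (mul_pos s1 s2)
  linarith

theorem corner2_eq (α β : ℝ) :
    1 - 2 * cos β + 4 * cos α * cos (α + β) = 1 + 2 * cos (2 * α + β) := by
  rw [show 2 * α + β = α + (α + β) by ring, cos_add α (α + β)]
  have h : cos β = cos α * cos (α + β) + sin α * sin (α + β) := by
    rw [← cos_sub]
    rw [show α - (α + β) = -β by ring, cos_neg]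
  rw [h]; ring

/-- distance conditions for one side -/
structure Cond (α β l r : ℝ) : Prop where
  hl : 0 < l
  hr : 0 < r
  a1 : 2 * r * cos β ≤ r ^ 2
  a2 : 2 * r * cos β ≤ 1
  b1 : 2 * l * cos α ≤ l ^ 2
  b2 : 2 * l * cos α ≤ 1
  s1 : 1 ≤ S l r (cos α) (cos β) (cos (α + β))
  s2 : l ^ 2 ≤ S l r (cos α) (cos β) (cos (α + β))
  s3 : r ^ 2 ≤ S l r (cos α) (cos β) (cos (α + β))

theorem Cond.b1' {α β l r : ℝ} (h : Cond α β l r) : 2 * cos α ≤ l := by
  have := h.b1
  have h2 := h.hl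
  nlinarith

theorem Cond.a1' {α β l r : ℝ} (h : Cond α β l r) : 2 * cos β ≤ r := by
  have := h.a1
  have h2 := h.hr
  nlinarith

theorem cos_pos_of {α : ℝ} (h1 : 0 ≤ α) (h2 : α < π / 2) : 0 < cos α :=
  cos_pos_of_mem_Ioo ⟨by linarith [pi_pos], h2⟩

theorem two_cos_le_one {α : ℝ} (h1 : π / 3 ≤ α) (h2 : α ≤ π) : 2 * cos α ≤ 1 := by
  have h : cos α ≤ cos (π / 3) := cos_le_cos_of_nonneg_of_le_pi (by linarith [pi_pos]) h2 h1
  rw [cos_pi_div_three] at h
  linarith

/-- Lemma Q. -/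
theorem lemQ {α β l r : ℝ} (h : Cond α β l r) (hα1 : π / 3 ≤ α) (hα2 : α ≤ 4 * π / 9)
    (hβ1 : π / 3 ≤ β) : 2 * π / 3 - α / 2 ≤ β := by
  by_contra hcon
  push Not at hcon
  have hpi := pi_pos
  have hβ2 : β < π / 2 := by linarith
  have hA : 0 < cos α := cos_pos_of (by linarith) (by linarith)
  have hB : 0 < cos β := cos_pos_of (by linarith) hβ2
  have hA1 : 2 * cos α ≤ 1 := two_cos_le_one hα1 (by linarith)
  have hB1 : 2 * cos β ≤ 1 := two_cos_le_one hβ1 (by linarith)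
  have hC : cos (α + β) ≤ -1 / 2 := cos_le_neg_half (by linarith) (by linarith)
  have c1 := corner1 (α := α) (β := β) (by linarith) (by linarith) (by linarith)
  have c3 : 1 - 2 * cos β + 4 * cos α * cos (α + β) < 0 := by
    rw [corner2_eq]
    have := cos_lt_neg_half (x := 2 * α + β) (by linarith) (by linarith)
    linarith
  have c2 : 1 - 2 * cos α + 4 * cos β * cos (α + β) < 0 := by
    have e := corner2_eq β α
    rw [add_comm β α] at e
    rw [e]
    have := cos_lt_neg_half (x := 2 * β + α) (by linarith) (by linarith)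
    linarith
  obtain ⟨h1, h2⟩ := reduction h.hl h.hr hA hA1 h.b1' hC c1 c3 h.s1 h.s2 h.s3
  have h3 := cvx (l := 2 * cos β) (h := 1) (x := r) (b := -2 * cos β + 2 * cos (α + β))
    (c := 1 - 2 * cos α) h.a1' h1.le (by nlinarith) (by linarith)
  nlinarith

theorem sqrt3_bounds : (1.732 : ℝ) ≤ √3 ∧ √3 ≤ 1.7321 := by
  constructor
  · apply Real.le_sqrt_of_sq_le; norm_num
  · rw [Real.sqrt_le_left (by norm_num)]; norm_num

theorem cos_sub_cos_ge {α β : ℝ} (hα1 : π / 3 ≤ α) (hα2 : α ≤ π / 3 + 1 / 50)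
    (hβ1 : π / 3 ≤ β) (hβ2 : β ≤ π / 2 + 1 / 50) : 0.85 ≤ cos β - cos (α + β) := by
  have hpi := pi_gt_three
  have hpi4 := pi_lt_four
  have e : cos β - cos (α + β) = 2 * sin (β + α / 2) * sin (α / 2) := by
    have h1 : cos β = cos ((β + α / 2) - α / 2) := by congr 1; ring
    have h2 : cos (α + β) = cos ((β + α / 2) + α / 2) := by congr 1; ring
    rw [h1, h2, cos_sub (β + α / 2) (α / 2), cos_add (β + α / 2) (α / 2)]; ring
  have s1 : 1 / 2 ≤ sin (α / 2) := by
    rw [← sin_pi_div_six]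
    apply sin_le_sin_of_le_of_le_pi_div_two <;> linarith
  have s2 : 0.85 ≤ sin (β + α / 2) := by
    have e2 : sin (β + α / 2) = cos (β + α / 2 - π / 2) := by rw [cos_sub_pi_div_two]
    rw [e2]
    have h1 : cos (π / 6 + 3 / 100) ≤ cos (β + α / 2 - π / 2) := by
      apply cos_le_cos_of_nonneg_of_le_pi <;> linarith
    have h2 : cos (π / 6 + 3 / 100) = √3 / 2 * cos (3 / 100) - 1 / 2 * sin (3 / 100) := by
      rw [cos_add, cos_pi_div_six, sin_pi_div_six]
    have h3 : 1 - (3 / 100 : ℝ) ^ 2 / 2 ≤ cos (3 / 100) := one_sub_sq_div_two_le_cos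
    have h4 : sin (3 / 100 : ℝ) ≤ 3 / 100 := sin_le (by norm_num)
    have h5 := sqrt3_bounds.1
    norm_num at h3
    rw [h2] at h1
    nlinarith
  rw [e]
  nlinarith

theorem excess_le {e : ℝ} (he0 : 0 ≤ e) (he : e ≤ 1 / 50) :
    1 - 2 * cos (π / 3 + e) ≤ 1.7421 * e := by
  rw [cos_add, cos_pi_div_three, sin_pi_div_three]
  have h1 : 1 - e ^ 2 / 2 ≤ cos e := one_sub_sq_div_two_le_cos
  have h2 : sin e ≤ e := sin_le he0
  have h2' : 0 ≤ sin e := sin_nonneg_of_nonneg_of_le_pi he0 (by linarith [pi_gt_three])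
  have h3 := sqrt3_bounds
  nlinarith [mul_nonneg he0 (sub_nonneg.mpr he), mul_le_mul h3.2 h2 h2' (by norm_num)]

/-- Lemma S: sibling side. -/
theorem lemS {α β l r e : ℝ} (h : Cond α β l r) (hα : α = π / 3 + e) (he0 : 0 ≤ e)
    (he : e ≤ 1 / 50) (hβ1 : π / 3 ≤ β) (hβ2 : β ≤ π / 2 + 1 / 50) :
    r < 1 / 10 ∧ 9 / 10 * r ≤ e := by
  have hpi := pi_gt_three
  have hpi4 := pi_lt_four
  have hα1 : π / 3 ≤ α := by linarith
  have hα2 : α ≤ π / 3 + 1 / 50 := by linarith
  have hA : 0 < cos α := cos_pos_of (by linarith) (by linarith)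
  have hA1 : 2 * cos α ≤ 1 := two_cos_le_one hα1 (by linarith)
  have hC : cos (α + β) ≤ -1 / 2 := cos_le_neg_half (by linarith) (by linarith)
  have c1 := corner1 (α := α) (β := β) (by linarith) (by linarith) (by linarith)
  have c3 : 1 - 2 * cos β + 4 * cos α * cos (α + β) < 0 := by
    rw [corner2_eq]
    have := cos_lt_neg_half (x := 2 * α + β) (by linarith) (by linarith)
    linarith
  obtain ⟨h1, h2⟩ := reduction h.hl h.hr hA hA1 h.b1' hC c1 c3 h.s1 h.s2 h.s3
  have hBC := cos_sub_cos_ge hα1 hα2 hβ1 hβ2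
  have hK : 1 - 2 * cos α ≤ 1.7421 * e := by rw [hα]; exact excess_le he0 he
  have hr := h.hr
  have hr2 : r < 1 / 10 := by
    by_contra hcon
    push Not at hcon
    have h3 := cvx (l := 1 / 10) (h := 1) (x := r) (b := -2 * cos β + 2 * cos (α + β))
      (c := 1 - 2 * cos α) hcon h1.le (by nlinarith) (by linarith)
    nlinarith
  refine ⟨hr2, ?_⟩
  have h4 : r * (2 * (cos β - cos (α + β)) - r) ≤ 1 - 2 * cos α := by nlinarith
  have h5 : r * 1.6 ≤ r * (2 * (cos β - cos (α + β)) - r) :=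
    mul_le_mul_of_nonneg_left (by linarith) hr.le
  linarith

theorem P_aux1 {m l r Z K : ℝ} (hm : 1.93 ≤ m) (hlm : m ≤ l) (hlm2 : l ≤ 1.04 * m)
    (hKm : K ≤ 0.0402 * m) (hZ : 0.859 * m ≤ Z)
    (hs2 : 0 ≤ K + r ^ 2 - 2 * r * Z) (hs3 : 0 ≤ K + l ^ 2 - 2 * r * Z) : r < 1 / 10 := by
  have hl0 : 0 < l := by linarith
  have hFl : l ^ 2 - 2 * l * Z + K < 0 := by
    have h1 : 2 * l * (0.859 * m) ≤ 2 * l * Z := mul_le_mul_of_nonneg_left hZ (by linarith)
    have h2 : l * l ≤ l * (1.04 * m) := mul_le_mul_of_nonneg_left hlm2 hl0.le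
    have h3 : m * m ≤ l * m := mul_le_mul_of_nonneg_right hlm (by linarith)
    nlinarith
  by_contra hcon
  push Not at hcon
  rcases le_or_gt r l with h1 | h1
  · have h3 := cvx (l := 1 / 10) (h := l) (x := r) (b := -2 * Z) (c := K) hcon h1
      (by linarith) (by linarith)
    linarith
  · have hZ0 : 0 ≤ Z := by linarith
    have : l * Z ≤ r * Z := mul_le_mul_of_nonneg_right h1.le hZ0
    linarith

theorem P_aux2 {m r Z K e : ℝ} (hm : 1.93 ≤ m) (hr : 0 < r) (hr2 : r < 1 / 10)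
    (hKe : K ≤ 2.01 * (m * e)) (hZ : 0.99 * m ≤ Z)
    (hs2 : 0 ≤ K + r ^ 2 - 2 * r * Z) : 9 / 10 * r ≤ e := by
  have h6 : r * (1.92 * m) ≤ r * (2 * Z - r) := by
    apply mul_le_mul_of_nonneg_left _ hr.le
    linarith
  have h7 : r * (2 * Z - r) ≤ K := by
    have : r * (2 * Z - r) = 2 * r * Z - r ^ 2 := by ring
    linarith
  have h8 : m * (1.92 * r) ≤ m * (2.01 * e) := by
    have e1 : m * (1.92 * r) = r * (1.92 * m) := by ring
    have e2 : m * (2.01 * e) = 2.01 * (m * e) := by ring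
    linarith
  have h9 := le_of_mul_le_mul_left h8 (by linarith)
  linarith

theorem P_aux3 {β : ℝ} (hβ1 : π / 3 ≤ β) (hβ2 : β ≤ π / 2 + 1 / 50) :
    0.866 ≤ sin β ∧ -(1 / 50) ≤ cos β := by
  have hpi := pi_gt_three
  have hpi4 := pi_lt_four
  constructor
  · have e2 : sin β = cos (|β - π / 2|) := by rw [cos_abs, cos_sub_pi_div_two]
    have h1 : cos (π / 6) ≤ cos |β - π / 2| := by
      apply cos_le_cos_of_nonneg_of_le_pi (abs_nonneg _) (by linarith)
      rw [abs_le]; constructor <;> linarith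
    rw [cos_pi_div_six] at h1
    have := sqrt3_bounds.1
    rw [e2]; linarith
  · have h1 : cos (π / 2 + 1 / 50) ≤ cos β := by
      apply cos_le_cos_of_nonneg_of_le_pi (by linarith) (by linarith) hβ2
    have h2 : cos (π / 2 + 1 / 50) = - sin (1 / 50) := by
      rw [add_comm, cos_add_pi_div_two]
    have h3 : sin (1 / 50 : ℝ) ≤ 1 / 50 := sin_le (by norm_num)
    linarith

theorem P_aux4 {m l cα0 sα0 : ℝ} (h1 : sα0 ^ 2 + cα0 ^ 2 = 1) (hcos : 2 * l * cα0 = 1)
    (hm : m = l * sα0) (hmp : 0 < m) (hl2 : 2 ≤ l) :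
    1.93 ≤ m ∧ m ≤ l ∧ l ≤ 1.04 * m := by
  have hm2 : m ^ 2 = l ^ 2 - 1 / 4 := by
    have h2 : l * cα0 = 1 / 2 := by linarith
    calc m ^ 2 = l ^ 2 * sα0 ^ 2 := by rw [hm]; ring
      _ = l ^ 2 * (1 - cα0 ^ 2) := by rw [← h1]; ring
      _ = l ^ 2 - (l * cα0) ^ 2 := by ring
      _ = _ := by rw [h2]; ring
  have h4 : (2 : ℝ) ^ 2 ≤ l ^ 2 := pow_le_pow_left₀ (by norm_num) hl2 2
  refine ⟨?_, ?_, ?_⟩
  · apply le_of_sq_le_sq _ hmp.le
    rw [hm2]; norm_num at h4 ⊢; linarith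
  · apply le_of_sq_le_sq _ (by linarith)
    rw [hm2]; linarith
  · apply le_of_sq_le_sq _ (by linarith)
    rw [mul_pow, hm2]; norm_num at h4 ⊢; linarith

/-- Lemma P: parent side. -/
theorem lemP {α β l r e α0 : ℝ} (h : Cond α β l r) (hl2 : 2 ≤ l) (hα0 : 0 < α0)
    (hα0' : α0 < π / 2) (hcos : 2 * l * cos α0 = 1) (hα : α = α0 + e) (he0 : 0 ≤ e)
    (he : e ≤ 1 / 50) (hβ1 : π / 3 ≤ β) (hβ2 : β ≤ π / 2 + 1 / 50) :
    r < 1 / 10 ∧ 9 / 10 * r ≤ e := by
  have hpi := pi_gt_three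
  have hs0 : 0 < sin α0 := sin_pos_of_pos_of_lt_pi hα0 (by linarith)
  obtain ⟨m, hm⟩ : ∃ m, m = l * sin α0 := ⟨_, rfl⟩
  have hmpos : 0 < m := by rw [hm]; positivity
  obtain ⟨hm19, hlm, hlm2⟩ := P_aux4 (sin_sq_add_cos_sq α0) hcos hm hmpos hl2
  have hce : 1 - e ^ 2 / 2 ≤ cos e := one_sub_sq_div_two_le_cos
  have hce1 : cos e ≤ 1 := cos_le_one e
  have hse : sin e ≤ e := sin_le he0
  have hse0 : 0 ≤ sin e := sin_nonneg_of_nonneg_of_le_pi he0 (by linarith)
  have he2 : e ^ 2 ≤ 1 / 50 * e := by nlinarith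
  have hce2 : 0.9998 ≤ cos e := by linarith
  have hlc : l * cos α = cos e / 2 - m * sin e := by
    rw [hα, cos_add, hm]
    have : l * cos α0 = 1 / 2 := by linarith
    linear_combination cos e * this
  have hls : l * sin α = m * cos e + sin e / 2 := by
    rw [hα, sin_add, hm]
    have : l * cos α0 = 1 / 2 := by linarith
    linear_combination sin e * this
  obtain ⟨Z, hZ⟩ : ∃ Z, Z = cos β - l * cos (α + β) := ⟨_, rfl⟩
  have hZ2 : Z = cos β * (1 - l * cos α) + l * sin α * sin β := by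
    rw [hZ, cos_add]; ring
  obtain ⟨K, hK⟩ : ∃ K, K = 1 - 2 * (l * cos α) := ⟨_, rfl⟩
  have hme : 0 ≤ m * sin e := mul_nonneg hmpos.le hse0
  have hK0 : 0 ≤ K := by rw [hK, hlc]; linarith
  have hme1 : m * sin e ≤ m * e := mul_le_mul_of_nonneg_left hse hmpos.le
  have hme3 : e * 1.93 ≤ m * e := by
    have := mul_le_mul_of_nonneg_right hm19 he0
    linarith
  have hKe : K ≤ 2.01 * (m * e) := by
    rw [hK, hlc]
    have h2 : 1 - cos e ≤ e * (1 / 100) := by linarith
    linarith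
  have hKm : K ≤ 0.0402 * m := by
    have : m * e ≤ m * (1 / 50) := mul_le_mul_of_nonneg_left he hmpos.le
    linarith
  have hs2 : 0 ≤ K + r ^ 2 - 2 * r * Z := by
    have := h.s2
    unfold S at this
    have e1 : 2 * r * Z = 2 * r * cos β - 2 * r * l * cos (α + β) := by rw [hZ]; ring
    rw [e1, hK]; linarith
  have hs3 : 0 ≤ K + l ^ 2 - 2 * r * Z := by
    have := h.s3
    unfold S at this
    have e1 : 2 * r * Z = 2 * r * cos β - 2 * r * l * cos (α + β) := by rw [hZ]; ring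
    rw [e1, hK]; linarith
  obtain ⟨hsb, hcb⟩ := P_aux3 hβ1 hβ2
  have hf : 1 - l * cos α = (1 + K) / 2 := by rw [hK]; ring
  have hterm : -(0.006 * m) ≤ cos β * (1 - l * cos α) := by
    rw [hf]
    have h1 : 0 ≤ (1 + K) / 2 := by linarith
    have h2 : (1 + K) / 2 ≤ 0.29 * m := by linarith
    have h3 : -(1 / 50) * ((1 + K) / 2) ≤ cos β * ((1 + K) / 2) :=
      mul_le_mul_of_nonneg_right hcb h1
    linarith
  have hlsm : 0.9998 * m ≤ l * sin α := by
    rw [hls]
    have : m * 0.9998 ≤ m * cos e := mul_le_mul_of_nonneg_left hce2 hmpos.le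
    linarith
  have hlsm0 : 0 ≤ l * sin α := by linarith
  have hZ3 : 0.859 * m ≤ Z := by
    rw [hZ2]
    have : 0.9998 * m * 0.866 ≤ l * sin α * sin β :=
      mul_le_mul hlsm hsb (by norm_num) hlsm0
    linarith
  have hr := h.hr
  have hr2 := P_aux1 hm19 hlm hlm2 hKm hZ3 hs2 hs3
  refine ⟨hr2, ?_⟩
  have hcb2 : cos β ≤ 1 / 20 := by
    have h1 := h.a1
    have h2 : r * (2 * cos β) ≤ r * r := by linarith [show r ^ 2 = r * r by ring]
    have := le_of_mul_le_mul_left h2 hr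
    linarith
  have hsb2 : 0.998 ≤ sin β := by
    have h1 := sin_sq_add_cos_sq β
    have h2 : cos β ^ 2 ≤ (1 / 20) ^ 2 := by
      apply sq_le_sq'
      · linarith
      · exact hcb2
    apply le_of_sq_le_sq _ (by linarith)
    norm_num at h2 ⊢
    linarith
  have hZ4 : 0.99 * m ≤ Z := by
    rw [hZ2]
    have : 0.9998 * m * 0.998 ≤ l * sin α * sin β :=
      mul_le_mul hlsm hsb2 (by norm_num) hlsm0
    linarith
  exact P_aux2 hm19 hr hr2 hKe hZ4 hs2

end Pool.Agent.Helper745.Side
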