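import Mathlib
import Pool.Agent.Helper745.Side

set_option autoImplicit false

namespace Pool.Agent.Helper745.Star

open Real Pool.Agent.Helper745.Side

/-- rotation by the angle t -/
noncomputable def rot (t : ℝ) : ℂ := Complex.exp ((t : ℂ) * Complex.I)

theorem rot_add (a b : ℝ) : rot (a + b) = rot a * rot b := by
  unfold rot
  rw [← Complex.exp_add]; congr 1; push_cast; ring

theorem rot_zero : rot 0 = 1 := by unfold rot; simp

theorem rot_two_pi : rot (2 * π) = 1 := by
  unfold rot; push_cast; exact Complex.exp_two_pi_mul_I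

theorem rot_ne_zero (a : ℝ) : rot a ≠ 0 := Complex.exp_ne_zero _

theorem rot_re (a : ℝ) : (rot a).re = cos a := Complex.exp_ofReal_mul_I_re a

theorem rot_im (a : ℝ) : (rot a).im = sin a := Complex.exp_ofReal_mul_I_im a

theorem rot_neg_mul (a : ℝ) : rot (-a) * rot a = 1 := by
  rw [← rot_add]; simp [rot_zero]

theorem rot_two_pi_sub (a : ℝ) : rot (-(2 * π - a)) = rot a := by
  have h : rot a = rot (-(2 * π - a)) * rot (2 * π) := by
    rw [← rot_add]; congr 1; ring
  rw [h, rot_two_pi, mul_one]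

theorem sq_two (a b x y : ℝ) :
    Complex.normSq (a * rot x - b * rot y) = a ^ 2 + b ^ 2 - 2 * a * b * cos (x - y) := by
  rw [Complex.normSq_apply]
  simp only [Complex.sub_re, Complex.sub_im, Complex.mul_re, Complex.mul_im, Complex.ofReal_re,
    Complex.ofReal_im, rot_re, rot_im]
  rw [cos_sub]
  have h1 := sin_sq_add_cos_sq x
  have h2 := sin_sq_add_cos_sq y
  linear_combination a ^ 2 * h1 + b ^ 2 * h2

theorem sq_three (l r a b : ℝ) :
    Complex.normSq (l * rot a - 1 + r * rot (-b)) =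
      S l r (cos a) (cos b) (cos (a + b)) := by
  unfold S
  rw [Complex.normSq_apply]
  simp only [Complex.sub_re, Complex.sub_im, Complex.mul_re, Complex.mul_im, Complex.ofReal_re,
    Complex.ofReal_im, rot_re, rot_im, Complex.add_re, Complex.add_im, Complex.one_re,
    Complex.one_im, cos_neg, sin_neg]
  rw [cos_add]
  have h1 := sin_sq_add_cos_sq a
  have h2 := sin_sq_add_cos_sq b
  linear_combination l ^ 2 * h1 + r ^ 2 * h2

theorem polar {z : ℂ} (hz : z ≠ 0) : ∃ r t : ℝ, 0 < r ∧ 0 ≤ t ∧ t < 2 * π ∧ z = r * rot t := by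
  have hpi := pi_pos
  have h0 : z = ‖z‖ * rot z.arg := (Complex.norm_mul_exp_arg_mul_I z).symm
  have hn : 0 < ‖z‖ := norm_pos_iff.mpr hz
  have ha := Complex.arg_mem_Ioc z
  by_cases h : 0 ≤ z.arg
  · exact ⟨‖z‖, z.arg, hn, h, by linarith [ha.2], h0⟩
  · push Not at h
    refine ⟨‖z‖, z.arg + 2 * π, hn, by linarith [ha.1], by linarith, ?_⟩
    rw [rot_add, rot_two_pi, mul_one]; exact h0

theorem gap_of_cos {g : ℝ} (h0 : 0 ≤ g) (h1 : g < 2 * π) (hc : cos g ≤ 1 / 2) :
    π / 3 ≤ g ∧ g ≤ 5 * π / 3 := by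
  have hpi := pi_pos
  constructor
  · by_contra h
    push Not at h
    have : cos (π / 3) < cos g := cos_lt_cos_of_nonneg_of_le_pi h0 (by linarith) h
    rw [cos_pi_div_three] at this
    linarith
  · by_contra h
    push Not at h
    have : cos (π / 3) < cos (2 * π - g) :=
      cos_lt_cos_of_nonneg_of_le_pi (by linarith) (by linarith) (by linarith)
    rw [cos_pi_div_three, cos_two_pi_sub] at this
    linarith

variable {V : Type*} (G : SimpleGraph V) (P : V → ℂ)

/-- The local inequalities satisfied by a minimum spanning tree. -/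
structure MW : Prop where
  inj : ∀ a b, G.Adj a b → P a ≠ P b
  two : ∀ a b c, G.Adj a b → G.Adj b c → a ≠ c →
    ‖P a - P b‖ ≤ ‖P a - P c‖ ∧ ‖P b - P c‖ ≤ ‖P a - P c‖
  three : ∀ a b c d, G.Adj a b → G.Adj b c → G.Adj c d → a ≠ c → b ≠ d →
    ‖P a - P b‖ ≤ ‖P a - P d‖ ∧ ‖P b - P c‖ ≤ ‖P a - P d‖ ∧ ‖P c - P d‖ ≤ ‖P a - P d‖

variable {G P}

theorem sq_norm (z : ℂ) : ‖z‖ ^ 2 = Complex.normSq z := (Complex.normSq_eq_norm_sq z).symm

/-- two neighbours of q in polar coordinates -/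
theorem MW.angle (h : MW G P) {q x y : V} (hx : G.Adj q x) (hy : G.Adj q y) (hne : x ≠ y)
    {u : ℂ} (hu : u ≠ 0) {a b s t : ℝ} (ha : 0 < a) (hb : 0 < b)
    (ex : P x - P q = a * rot s * u) (ey : P y - P q = b * rot t * u) :
    2 * b * cos (t - s) ≤ a ∧ 2 * a * cos (t - s) ≤ b := by
  obtain ⟨h1, h2⟩ := h.two x q y hx.symm hy hne
  have hn : 0 < Complex.normSq u := Complex.normSq_pos.mpr hu
  have e1 : ‖P x - P q‖ ^ 2 = a ^ 2 * Complex.normSq u := by
    rw [ex, sq_norm, Complex.normSq_mul]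
    have := sq_two a 0 s 0
    simp only [Complex.ofReal_zero, zero_mul, sub_zero] at this
    rw [this]; ring
  have e2 : ‖P q - P y‖ ^ 2 = b ^ 2 * Complex.normSq u := by
    rw [norm_sub_rev, ey, sq_norm, Complex.normSq_mul]
    have := sq_two b 0 t 0
    simp only [Complex.ofReal_zero, zero_mul, sub_zero] at this
    rw [this]; ring
  have e3 : ‖P x - P y‖ ^ 2 = (a ^ 2 + b ^ 2 - 2 * a * b * cos (s - t)) * Complex.normSq u := by
    have : P x - P y = (a * rot s - b * rot t) * u := by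
      have : P x - P y = (P x - P q) - (P y - P q) := by ring
      rw [this, ex, ey]; ring
    rw [this, sq_norm, Complex.normSq_mul, sq_two]
  have h1' : ‖P x - P q‖ ^ 2 ≤ ‖P x - P y‖ ^ 2 := pow_le_pow_left₀ (norm_nonneg _) h1 2
  have h2' : ‖P q - P y‖ ^ 2 ≤ ‖P x - P y‖ ^ 2 := pow_le_pow_left₀ (norm_nonneg _) h2 2
  rw [e1, e3] at h1'
  rw [e2, e3] at h2'
  have h3 := le_of_mul_le_mul_right h1' hn
  have h4 := le_of_mul_le_mul_right h2' hn
  have e4 : cos (s - t) = cos (t - s) := by rw [← cos_neg]; congr 1; ring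
  rw [e4] at h3 h4
  constructor
  · have : b * (2 * a * cos (t - s)) ≤ b * b := by nlinarith
    have h5 : a * (2 * b * cos (t - s)) ≤ a * a := by nlinarith
    exact le_of_mul_le_mul_left h5 ha
  · have : b * (2 * a * cos (t - s)) ≤ b * b := by nlinarith
    exact le_of_mul_le_mul_left this hb

theorem MW.cond (h : MW G P) {y v q x : V} (h1 : G.Adj y v) (h2 : G.Adj v q) (h3 : G.Adj q x)
    (hyq : y ≠ q) (hvx : v ≠ x) {l r a b : ℝ} (hl : 0 < l) (hr : 0 < r)
    (ey : P y - P v = l * rot a * (P q - P v))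
    (ex : P x - P q = r * rot (-b) * (P v - P q)) : Cond a b l r := by
  have hu : P q - P v ≠ 0 := sub_ne_zero.mpr (h.inj v q h2).symm
  set u := P q - P v with hudef
  have hn : 0 < Complex.normSq u := Complex.normSq_pos.mpr hu
  have hu' : P v - P q = -u := by rw [hudef]; ring
  obtain ⟨t1, t2, t3⟩ := h.three y v q x h1 h2 h3 hyq hvx
  have hv0 : P q - P v = (1 : ℝ) * rot 0 * u := by rw [rot_zero]; simp [hudef]
  obtain ⟨b1, b2⟩ := h.angle (q := v) h1.symm h2 hyq hu hl one_pos ey hv0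
  have hux : P v - P q ≠ 0 := by rw [hu']; exact neg_ne_zero.mpr hu
  have hv1 : P v - P q = (1 : ℝ) * rot 0 * (P v - P q) := by rw [rot_zero]; simp
  obtain ⟨a1, a2⟩ := h.angle (q := q) h3 h2.symm hvx.symm hux hr one_pos ex hv1
  have e1 : ‖P y - P v‖ ^ 2 = l ^ 2 * Complex.normSq u := by
    rw [ey, sq_norm, Complex.normSq_mul]
    have := sq_two l 0 a 0
    simp only [Complex.ofReal_zero, zero_mul, sub_zero] at this
    rw [this]; ring
  have e2 : ‖P v - P q‖ ^ 2 = Complex.normSq u := by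
    rw [hu', norm_neg, sq_norm]
  have e3 : ‖P q - P x‖ ^ 2 = r ^ 2 * Complex.normSq u := by
    rw [norm_sub_rev, ex, hu', sq_norm, Complex.normSq_mul, Complex.normSq_neg]
    have := sq_two r 0 (-b) 0
    simp only [Complex.ofReal_zero, zero_mul, sub_zero] at this
    rw [this]; ring
  have e4 : ‖P y - P x‖ ^ 2 = S l r (cos a) (cos b) (cos (a + b)) * Complex.normSq u := by
    have : P y - P x = (l * rot a - 1 + r * rot (-b)) * u := by
      have : P y - P x = (P y - P v) - (P q - P v) - (P x - P q) := by ring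
      rw [this, ey, ex, hu']; ring
    rw [this, sq_norm, Complex.normSq_mul, sq_three]
  have t1' : ‖P y - P v‖ ^ 2 ≤ ‖P y - P x‖ ^ 2 := pow_le_pow_left₀ (norm_nonneg _) t1 2
  have t2' : ‖P v - P q‖ ^ 2 ≤ ‖P y - P x‖ ^ 2 := pow_le_pow_left₀ (norm_nonneg _) t2 2
  have t3' : ‖P q - P x‖ ^ 2 ≤ ‖P y - P x‖ ^ 2 := pow_le_pow_left₀ (norm_nonneg _) t3 2
  rw [e1, e4] at t1'
  rw [e2, e4] at t2'
  rw [e3, e4] at t3'
  have f1 := le_of_mul_le_mul_right t1' hn
  have f2 : 1 ≤ S l r (cos a) (cos b) (cos (a + b)) := by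
    have : 1 * Complex.normSq u ≤ S l r (cos a) (cos b) (cos (a + b)) * Complex.normSq u := by
      rw [one_mul]; exact t2'
    exact le_of_mul_le_mul_right this hn
  have f3 := le_of_mul_le_mul_right t3' hn
  have c1 : cos (0 - a) = cos a := by rw [zero_sub, cos_neg]
  have c2 : cos (0 - -b) = cos b := by congr 1; ring
  rw [c1] at b1 b2
  rw [c2] at a1 a2
  exact ⟨hl, hr, by nlinarith, by linarith, by nlinarith, by linarith, f2, f1, f3⟩

end Pool.Agent.Helper745.Star
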