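import Mathlib
import Pool.Agent.Helper745.Star

set_option autoImplicit false

namespace Pool.Agent.Helper745.Step

open Real Pool.Agent.Helper745.Side Pool.Agent.Helper745.Star

variable {V : Type*} {G : SimpleGraph V} {P : V → ℂ}

/-- The five neighbours v, w 0, w 1, w 2, w 3 of q in counterclockwise order. -/
structure Star (G : SimpleGraph V) (P : V → ℂ) (v q : V) (w : Fin 4 → V) (ρ θ : Fin 4 → ℝ) :
    Prop where
  vq : G.Adj v q
  adj : ∀ i, G.Adj q (w i)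
  ne : ∀ i, w i ≠ v
  inj : Function.Injective w
  pos : ∀ i, 0 < ρ i
  eq : ∀ i, P (w i) - P q = ρ i * rot (θ i) * (P v - P q)
  lo : 0 < θ 0
  mono : StrictMono θ
  hi : θ 3 < 2 * π

theorem exists_star (h : MW G P) {v q : V} (hvq : G.Adj v q) (w' : Fin 4 → V)
    (hinj : Function.Injective w') (hadj : ∀ i, G.Adj q (w' i)) (hne : ∀ i, w' i ≠ v) :
    ∃ w ρ θ, Star G P v q w ρ θ ∧ (∀ i, ∃ j, w j = w' i) ∧ ∀ j, ∃ i, w j = w' i := by
  have hu : P v - P q ≠ 0 := sub_ne_zero.mpr (h.inj v q hvq)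
  have hz : ∀ i, (P (w' i) - P q) / (P v - P q) ≠ 0 := fun i =>
    div_ne_zero (sub_ne_zero.mpr (h.inj q (w' i) (hadj i)).symm) hu
  choose r t hr ht0 ht1 hrt using fun i => polar (hz i)
  have heq : ∀ i, P (w' i) - P q = r i * rot (t i) * (P v - P q) := by
    intro i
    rw [← hrt i]
    field_simp
  have hv1 : P v - P q = (1 : ℝ) * rot 0 * (P v - P q) := by rw [rot_zero]; simp
  have htpos : ∀ i, 0 < t i := by
    intro i
    rcases eq_or_lt_of_le (ht0 i) with h0 | h0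
    · exfalso
      obtain ⟨h1, h2⟩ := h.angle hvq.symm (hadj i) (hne i).symm hu one_pos (hr i) hv1 (heq i)
      rw [← h0] at h1 h2
      simp only [sub_self, cos_zero] at h1 h2
      linarith
    · exact h0
  have htinj : Function.Injective t := by
    intro i j hij
    by_contra hne'
    have hw : w' i ≠ w' j := fun hc => hne' (hinj hc)
    obtain ⟨h1, h2⟩ := h.angle (hadj i) (hadj j) hw hu (hr i) (hr j) (heq i) (heq j)
    rw [hij] at h1 h2
    simp only [sub_self, cos_zero] at h1 h2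
    have := hr i
    have := hr j
    linarith
  let σ := Tuple.sort t
  have hmono : StrictMono (t ∘ σ) :=
    (Tuple.monotone_sort t).strictMono_of_injective (htinj.comp σ.injective)
  refine ⟨w' ∘ σ, r ∘ σ, t ∘ σ, ⟨hvq, fun i => hadj _, fun i => hne _, hinj.comp σ.injective,
    fun i => hr _, fun i => heq _, htpos _, hmono, ht1 _⟩, ?_⟩
  exact ⟨fun i => ⟨σ.symm i, by simp⟩, fun j => ⟨σ j, rfl⟩⟩

theorem half_of {a b c : ℝ} (ha : 0 < a) (hb : 0 < b) (h1 : 2 * b * c ≤ a) (h2 : 2 * a * c ≤ b) :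
    c ≤ 1 / 2 := by
  by_contra hcon
  push Not at hcon
  rcases le_total a b with h | h
  · have : b * 1 < b * (2 * c) := mul_lt_mul_of_pos_left (by linarith) hb
    linarith
  · have : a * 1 < a * (2 * c) := mul_lt_mul_of_pos_left (by linarith) ha
    linarith

namespace Star

variable {v q : V} {w : Fin 4 → V} {ρ θ : Fin 4 → ℝ}

theorem une (s : Star G P v q w ρ θ) (h : MW G P) : P v - P q ≠ 0 :=
  sub_ne_zero.mpr (h.inj v q s.vq)

theorem t01 (s : Star G P v q w ρ θ) : θ 0 < θ 1 := s.mono (by decide)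
theorem t12 (s : Star G P v q w ρ θ) : θ 1 < θ 2 := s.mono (by decide)
theorem t23 (s : Star G P v q w ρ θ) : θ 2 < θ 3 := s.mono (by decide)

/-- gap between v and w 0 -/
theorem g0 (s : Star G P v q w ρ θ) (h : MW G P) :
    π / 3 ≤ θ 0 ∧ 2 * ρ 0 * cos (θ 0) ≤ 1 ∧ 2 * cos (θ 0) ≤ ρ 0 := by
  have hv1 : P v - P q = (1 : ℝ) * rot 0 * (P v - P q) := by rw [rot_zero]; simp
  obtain ⟨h1, h2⟩ := h.angle s.vq.symm (s.adj 0) (s.ne 0).symm (s.une h) one_pos (s.pos 0) hv1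
    (s.eq 0)
  rw [sub_zero] at h1 h2
  have h3 := half_of one_pos (s.pos 0) h1 h2
  have h4 := gap_of_cos s.lo.le (by linarith [s.t01, s.t12, s.t23, s.hi]) h3
  exact ⟨h4.1, h1, by linarith⟩

/-- gap between w 3 and v -/
theorem g4 (s : Star G P v q w ρ θ) (h : MW G P) :
    π / 3 ≤ 2 * π - θ 3 ∧ 2 * ρ 3 * cos (2 * π - θ 3) ≤ 1 ∧ 2 * cos (2 * π - θ 3) ≤ ρ 3 := by
  have hv1 : P v - P q = (1 : ℝ) * rot (2 * π) * (P v - P q) := by rw [rot_two_pi]; simp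
  obtain ⟨h1, h2⟩ := h.angle (s.adj 3) s.vq.symm (s.ne 3) (s.une h) (s.pos 3) one_pos
    (s.eq 3) hv1
  have h3 := half_of (s.pos 3) one_pos h1 h2
  have h4 := gap_of_cos (by linarith [s.hi]) (by linarith [s.t01, s.t12, s.t23, s.lo]) h3
  exact ⟨h4.1, h2, by linarith⟩

/-- gap between two w's -/
theorem gij (s : Star G P v q w ρ θ) (h : MW G P) {i j : Fin 4} (hij : i < j) :
    π / 3 ≤ θ j - θ i ∧ 2 * ρ j * cos (θ j - θ i) ≤ ρ i ∧
      2 * ρ i * cos (θ j - θ i) ≤ ρ j := by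
  have hne : w i ≠ w j := fun hc => (ne_of_lt hij) (s.inj hc)
  obtain ⟨h1, h2⟩ := h.angle (s.adj i) (s.adj j) hne (s.une h) (s.pos i) (s.pos j)
    (s.eq i) (s.eq j)
  have h3 := half_of (s.pos i) (s.pos j) h1 h2
  have hm : θ i < θ j := s.mono hij
  have hlo : 0 < θ i := lt_of_lt_of_le s.lo (s.mono.monotone (Fin.zero_le i))
  have hhi : θ j < 2 * π := lt_of_le_of_lt (s.mono.monotone (Fin.le_last j)) s.hi
  have h4 := gap_of_cos (by linarith) (by linarith) h3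
  exact ⟨h4.1, h1, h2⟩

theorem gap01 (s : Star G P v q w ρ θ) (h : MW G P) : π / 3 ≤ θ 1 - θ 0 :=
  (s.gij h (i := 0) (j := 1) (by decide)).1
theorem gap12 (s : Star G P v q w ρ θ) (h : MW G P) : π / 3 ≤ θ 2 - θ 1 :=
  (s.gij h (i := 1) (j := 2) (by decide)).1
theorem gap23 (s : Star G P v q w ρ θ) (h : MW G P) : π / 3 ≤ θ 3 - θ 2 :=
  (s.gij h (i := 2) (j := 3) (by decide)).1

/-- w j seen from w i -/
theorem rel (s : Star G P v q w ρ θ) (i j : Fin 4) :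
    P (w j) - P q = ((ρ j / ρ i : ℝ) : ℂ) * rot (θ j - θ i) * (P (w i) - P q) := by
  have hi : (ρ i : ℂ) ≠ 0 := by exact_mod_cast (s.pos i).ne'
  rw [s.eq i, s.eq j]
  have e : rot (θ j) = rot (θ j - θ i) * rot (θ i) := by rw [← rot_add]; congr 1; ring
  rw [e]
  push_cast
  field_simp

/-- v seen from w i, clockwise -/
theorem relv (s : Star G P v q w ρ θ) (i : Fin 4) :
    P v - P q = ((1 / ρ i : ℝ) : ℂ) * rot (-θ i) * (P (w i) - P q) := by
  have hi : (ρ i : ℂ) ≠ 0 := by exact_mod_cast (s.pos i).ne'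
  rw [s.eq i]
  have e := rot_neg_mul (θ i)
  push_cast
  field_simp
  linear_combination (-(P v - P q)) * e

/-- v seen from w i, counterclockwise -/
theorem relv' (s : Star G P v q w ρ θ) (i : Fin 4) :
    P v - P q = ((1 / ρ i : ℝ) : ℂ) * rot (2 * π - θ i) * (P (w i) - P q) := by
  have h := s.relv i
  have e : rot (2 * π - θ i) = rot (-θ i) := by
    rw [show 2 * π - θ i = 2 * π + -θ i by ring, rot_add, rot_two_pi, one_mul]
  rw [e]; exact h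

end Star

theorem Cond.of_neg {a b l r : ℝ} (h : Cond (-a) (-b) l r) : Cond a b l r := by
  have e : cos (-a + -b) = cos (a + b) := by rw [← cos_neg]; congr 1; ring
  have h1 := h.a1
  have h2 := h.a2
  have h3 := h.b1
  have h4 := h.b2
  have h5 := h.s1
  have h6 := h.s2
  have h7 := h.s3
  rw [e] at h5 h6 h7
  rw [cos_neg] at h1 h2 h3 h4 h5 h6 h7
  rw [cos_neg] at h5 h6 h7
  exact ⟨h.hl, h.hr, h1, h2, h3, h4, h5, h6, h7⟩

/-- y is a neighbour of v at signed angle `sg * a` from q, at relative distance l. -/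
structure SideAt (G : SimpleGraph V) (P : V → ℂ) (v q y : V) (l a sg : ℝ) : Prop where
  adj : G.Adj v y
  ne : y ≠ q
  pos : 0 < l
  eq : P y - P v = l * rot (sg * a) * (P q - P v)

theorem cond_plus (h : MW G P) {v q y : V} {w : Fin 4 → V} {ρ θ : Fin 4 → ℝ} {l a : ℝ}
    (s : Star G P v q w ρ θ) (d : SideAt G P v q y l a 1) :
    Cond a (2 * π - θ 3) l (ρ 3) := by
  have ey := d.eq
  rw [one_mul] at ey
  refine h.cond d.adj.symm s.vq (s.adj 3) d.ne (s.ne 3).symm d.pos (s.pos 3) ey ?_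
  rw [rot_two_pi_sub]
  exact s.eq 3

theorem cond_minus (h : MW G P) {v q y : V} {w : Fin 4 → V} {ρ θ : Fin 4 → ℝ} {l a : ℝ}
    (s : Star G P v q w ρ θ) (d : SideAt G P v q y l a (-1)) :
    Cond a (θ 0) l (ρ 0) := by
  have ey := d.eq
  rw [neg_one_mul] at ey
  apply Cond.of_neg
  refine h.cond d.adj.symm s.vq (s.adj 0) d.ne (s.ne 0).symm d.pos (s.pos 0) ey ?_
  rw [neg_neg]
  exact s.eq 0

/-- the deficit inequality from Lemma Q on both sides -/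
theorem q_two (h : MW G P) {v q y1 y2 : V} {w : Fin 4 → V} {ρ θ : Fin 4 → ℝ} {l1 a1 l2 a2 : ℝ}
    (s : Star G P v q w ρ θ) (d1 : SideAt G P v q y1 l1 a1 1) (d2 : SideAt G P v q y2 l2 a2 (-1))
    (h1 : π / 3 ≤ a1) (h1' : a1 ≤ 4 * π / 9) (h2 : π / 3 ≤ a2) (h2' : a2 ≤ 4 * π / 9) :
    θ 3 - θ 0 ≤ 2 * π / 3 + (a1 + a2) / 2 := by
  have c1 := lemQ (cond_plus h s d1) h1 h1' (s.g4 h).1
  have c2 := lemQ (cond_minus h s d2) h2 h2' (s.g0 h).1
  linarith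

/-- core step: for the middle child the deficit is halved -/
theorem core_step (h : MW G P) {p u : V} {w w' : Fin 4 → V} {ρ θ ρ' θ' : Fin 4 → ℝ} {D : ℝ}
    (s : Star G P p u w ρ θ) (hD : θ 3 - θ 0 ≤ π + D) (hD' : D ≤ π / 9)
    (s' : Star G P u (w 1) w' ρ' θ') : θ' 3 - θ' 0 ≤ π + D / 2 := by
  have hu : P p - P u ≠ 0 := s.une h
  have d1 : SideAt G P u (w 1) (w 2) (ρ 2 / ρ 1) (θ 2 - θ 1) 1 := by
    refine ⟨s.adj 2, fun hc => by have := s.inj hc; revert this; decide,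
      div_pos (s.pos 2) (s.pos 1), ?_⟩
    rw [one_mul]; exact s.rel 1 2
  have d2 : SideAt G P u (w 1) (w 0) (ρ 0 / ρ 1) (θ 1 - θ 0) (-1) := by
    refine ⟨s.adj 0, fun hc => by have := s.inj hc; revert this; decide,
      div_pos (s.pos 0) (s.pos 1), ?_⟩
    rw [neg_one_mul, neg_sub]; exact s.rel 1 0
  have g1 := s.gap01 h
  have g2 := s.gap12 h
  have g3 := s.gap23 h
  have := q_two h s' d1 d2 g2 (by linarith) g1 (by linarith)
  linarith

/-- type and excess of a side -/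
def Ty (l a e : ℝ) : Prop :=
  0 ≤ e ∧ (a = π / 3 + e ∨ (2 ≤ l ∧ ∃ a0, 0 < a0 ∧ a0 < π / 2 ∧ 2 * l * cos a0 = 1 ∧ a = a0 + e))

/-- total excess around the edge from v to q at v is at most E -/
def EdgeP (G : SimpleGraph V) (P : V → ℂ) (v q : V) (E : ℝ) : Prop :=
  ∃ (y1 y2 : V) (l1 a1 e1 l2 a2 e2 : ℝ), SideAt G P v q y1 l1 a1 1 ∧ Ty l1 a1 e1 ∧
    SideAt G P v q y2 l2 a2 (-1) ∧ Ty l2 a2 e2 ∧ e1 + e2 ≤ E

theorem core_edge (h : MW G P) {p u : V} {w : Fin 4 → V} {ρ θ : Fin 4 → ℝ} {D : ℝ}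
    (s : Star G P p u w ρ θ) (hD : θ 3 - θ 0 ≤ π + D) : EdgeP G P u (w 1) D := by
  have d1 : SideAt G P u (w 1) (w 2) (ρ 2 / ρ 1) (θ 2 - θ 1) 1 := by
    refine ⟨s.adj 2, fun hc => by have := s.inj hc; revert this; decide,
      div_pos (s.pos 2) (s.pos 1), ?_⟩
    rw [one_mul]; exact s.rel 1 2
  have d2 : SideAt G P u (w 1) (w 0) (ρ 0 / ρ 1) (θ 1 - θ 0) (-1) := by
    refine ⟨s.adj 0, fun hc => by have := s.inj hc; revert this; decide,
      div_pos (s.pos 0) (s.pos 1), ?_⟩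
    rw [neg_one_mul, neg_sub]; exact s.rel 1 0
  have g1 := s.gap01 h
  have g2 := s.gap12 h
  have g3 := s.gap23 h
  refine ⟨w 2, w 0, _, _, θ 2 - θ 1 - π / 3, _, _, θ 1 - θ 0 - π / 3, d1,
    ⟨by linarith, Or.inl (by ring)⟩, d2, ⟨by linarith, Or.inl (by ring)⟩, by linarith⟩

/-- one side, Lemma S or Lemma P -/
theorem side_bound {a b l r e : ℝ} (hc : Cond a b l r) (ht : Ty l a e) (he : e ≤ 1 / 50)
    (hb1 : π / 3 ≤ b) (hb2 : b ≤ π / 2 + 1 / 50) : r < 1 / 10 ∧ 9 / 10 * r ≤ e := by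
  obtain ⟨he0, ht | ⟨hl, a0, h1, h2, h3, h4⟩⟩ := ht
  · exact lemS hc ht he0 he hb1 hb2
  · exact lemP hc hl h1 h2 h3 h4 he0 he hb1 hb2

/-- from a small cosine to the angle -/
theorem arc_bound {b r : ℝ} (hb0 : 0 ≤ b) (hr0 : 0 ≤ r) (hr : r ≤ 1 / 10)
    (h : 2 * cos b ≤ r) : π / 2 - b ≤ 0.51 * r := by
  have hpi := pi_gt_three
  by_contra hcon
  push Not at hcon
  have e : cos b = sin (π / 2 - b) := by rw [sin_pi_div_two_sub]
  have h1 : sin (0.51 * r) < sin (π / 2 - b) := by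
    apply sin_lt_sin_of_lt_of_le_pi_div_two <;> linarith
  have h2 : 0.51 * r - (0.51 * r) ^ 3 / 6 ≤ sin (0.51 * r) := by
    rcases eq_or_lt_of_le hr0 with h0 | h0
    · rw [← h0]; simp
    · exact (sin_gt_sub_cube (by linarith)).le
  rw [← e] at h1
  have h3 : (0.51 * r) ^ 3 / 6 ≤ 0.01 * r := by
    have : r ^ 2 ≤ 1 / 100 := by nlinarith
    have h5 : r ^ 3 ≤ 1 / 100 * r := by
      have : r ^ 3 = r ^ 2 * r := by ring
      rw [this]; exact mul_le_mul_of_nonneg_right ‹r ^ 2 ≤ 1 / 100› hr0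
    have h6 : (0.51 * r) ^ 3 / 6 = 0.132651 / 6 * r ^ 3 := by ring
    rw [h6]; linarith
  linarith

/-- bounds for the extreme children -/
theorem extreme_bound (h : MW G P) {v q : V} {w : Fin 4 → V} {ρ θ : Fin 4 → ℝ} {E : ℝ}
    (hE : E ≤ 1 / 50) (hP : EdgeP G P v q E) (s : Star G P v q w ρ θ) :
    ρ 0 < 1 / 10 ∧ ρ 3 < 1 / 10 ∧ 9 / 10 * (ρ 0 + ρ 3) ≤ E := by
  have hpi := pi_gt_three
  obtain ⟨y1, y2, l1, a1, e1, l2, a2, e2, d1, t1, d2, t2, he⟩ := hP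
  have c1 := cond_plus h s d1
  have c2 := cond_minus h s d2
  have g0 := s.g0 h
  have g4 := s.g4 h
  have g1 := s.gap01 h
  have g2 := s.gap12 h
  have g3 := s.gap23 h
  have hsum : (2 * π - θ 3) + θ 0 ≤ π := by linarith
  have he1 : e1 ≤ 1 / 50 := by linarith [t2.1]
  have he2 : e2 ≤ 1 / 50 := by linarith [t1.1]
  have p0 := s.pos 0
  have p3 := s.pos 3
  rcases le_total (θ 0) (π / 2) with hb | hb
  · obtain ⟨b1, b2⟩ := side_bound c2 t2 he2 g0.1 (by linarith)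
    have hr : ρ 0 ≤ 1 / 45 := by linarith
    have hb3 := arc_bound s.lo.le p0.le b1.le g0.2.2
    obtain ⟨b3, b4⟩ := side_bound c1 t1 he1 g4.1 (by linarith)
    exact ⟨b1, b3, by linarith⟩
  · obtain ⟨b1, b2⟩ := side_bound c1 t1 he1 g4.1 (by linarith)
    have hr : ρ 3 ≤ 1 / 45 := by linarith
    have hb3 := arc_bound (by linarith [g4.1]) p3.le b1.le g4.2.2
    obtain ⟨b3, b4⟩ := side_bound c2 t2 he2 g0.1 (by linarith)
    exact ⟨b3, b1, by linarith⟩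

theorem arccos_aux {r b : ℝ} (hr : 0 < r) (hr2 : r < 1 / 10) (hb0 : 0 ≤ b)
    (h : 2 * cos b ≤ r) : ∃ a0, 0 < a0 ∧ a0 < π / 2 ∧ 2 * (1 / r) * cos a0 = 1 ∧ a0 ≤ b ∧
      π / 2 - a0 ≤ 0.51 * r := by
  have hpi := pi_gt_three
  have hc : cos (arccos (r / 2)) = r / 2 := cos_arccos (by linarith) (by linarith)
  refine ⟨arccos (r / 2), arccos_pos.mpr (by linarith), ?_, ?_, ?_, ?_⟩
  · rw [arccos_lt_pi_div_two]; linarith
  · rw [hc]; field_simp
  · by_contra hcon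
    push Not at hcon
    have : cos (arccos (r / 2)) < cos b :=
      cos_lt_cos_of_nonneg_of_le_pi hb0 (arccos_le_pi _) hcon
    rw [hc] at this
    linarith
  · exact arc_bound (arccos_nonneg _) hr.le hr2.le (by rw [hc]; linarith)

/-- arm step -/
theorem arm_step (h : MW G P) {v q : V} {w : Fin 4 → V} {ρ θ : Fin 4 → ℝ} {E : ℝ}
    (hE : E ≤ 1 / 50) (hP : EdgeP G P v q E) (s : Star G P v q w ρ θ)
    (j : Fin 4) : EdgeP G P q (w j) (2 / 3 * E) ∧ ρ j ≤ 2 * E := by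
  have hpi := pi_gt_three
  obtain ⟨r0, r3, hR⟩ := extreme_bound h hE hP s
  have p0 := s.pos 0
  have p3 := s.pos 3
  have g0 := s.g0 h
  have g4 := s.g4 h
  have g1 := s.gap01 h
  have g2 := s.gap12 h
  have g3 := s.gap23 h
  have hb0 := arc_bound s.lo.le p0.le r0.le g0.2.2
  have hb3 := arc_bound (by linarith [g4.1]) p3.le r3.le g4.2.2
  obtain ⟨A0, A01, A02, A03, A04, A05⟩ := arccos_aux p0 r0 s.lo.le g0.2.2
  obtain ⟨A3, A31, A32, A33, A34, A35⟩ := arccos_aux p3 r3 (by linarith [g4.1])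
    g4.2.2
  have hbig0 : 2 ≤ 1 / ρ 0 := by rw [le_div_iff₀ p0]; linarith
  have hbig3 : 2 ≤ 1 / ρ 3 := by rw [le_div_iff₀ p3]; linarith
  have hdef : θ 3 - θ 0 ≤ π + 0.51 * (ρ 0 + ρ 3) := by linarith
  have hcos : ∀ g : ℝ, π / 3 ≤ g → g ≤ π / 3 + 1 / 50 → 0.48 ≤ cos g := by
    intro g h1 h2
    have := excess_le (e := g - π / 3) (by linarith) (by linarith)
    rw [show π / 3 + (g - π / 3) = g by ring] at this
    linarith
  fin_cases j
  · -- j = 0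
    refine ⟨⟨w 1, v, ρ 1 / ρ 0, θ 1 - θ 0, θ 1 - θ 0 - π / 3, 1 / ρ 0, θ 0, θ 0 - A0,
      ⟨s.adj 1, fun hc => by have := s.inj hc; revert this; decide, div_pos (s.pos 1) p0, ?_⟩,
      ⟨by linarith, Or.inl (by ring)⟩,
      ⟨s.vq.symm, (s.ne 0).symm, by positivity, ?_⟩,
      ⟨by linarith, Or.inr ⟨hbig0, A0, A01, A02, A03, by ring⟩⟩, by linarith⟩, ?_⟩
    · rw [one_mul]; exact s.rel 0 1
    · rw [neg_one_mul]; exact s.relv 0
    · show ρ 0 ≤ 2 * E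
      linarith
  · -- j = 1
    refine ⟨⟨w 2, w 0, ρ 2 / ρ 1, θ 2 - θ 1, θ 2 - θ 1 - π / 3, ρ 0 / ρ 1, θ 1 - θ 0,
      θ 1 - θ 0 - π / 3,
      ⟨s.adj 2, fun hc => by have := s.inj hc; revert this; decide,
        div_pos (s.pos 2) (s.pos 1), ?_⟩,
      ⟨by linarith, Or.inl (by ring)⟩,
      ⟨s.adj 0, fun hc => by have := s.inj hc; revert this; decide,
        div_pos p0 (s.pos 1), ?_⟩,
      ⟨by linarith, Or.inl (by ring)⟩, by linarith⟩, ?_⟩
    · rw [one_mul]; exact s.rel 1 2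
    · rw [neg_one_mul, neg_sub]; exact s.rel 1 0
    · show ρ 1 ≤ 2 * E
      have h1 := (s.gij h (i := 0) (j := 1) (by decide)).2.1
      have h2 := hcos (θ 1 - θ 0) g1 (by linarith)
      have h3 : ρ 1 * 0.96 ≤ ρ 1 * (2 * cos (θ 1 - θ 0)) :=
        mul_le_mul_of_nonneg_left (by linarith) (s.pos 1).le
      linarith
  · -- j = 2
    refine ⟨⟨w 3, w 1, ρ 3 / ρ 2, θ 3 - θ 2, θ 3 - θ 2 - π / 3, ρ 1 / ρ 2, θ 2 - θ 1,
      θ 2 - θ 1 - π / 3,
      ⟨s.adj 3, fun hc => by have := s.inj hc; revert this; decide,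
        div_pos p3 (s.pos 2), ?_⟩,
      ⟨by linarith, Or.inl (by ring)⟩,
      ⟨s.adj 1, fun hc => by have := s.inj hc; revert this; decide,
        div_pos (s.pos 1) (s.pos 2), ?_⟩,
      ⟨by linarith, Or.inl (by ring)⟩, by linarith⟩, ?_⟩
    · rw [one_mul]; exact s.rel 2 3
    · rw [neg_one_mul, neg_sub]; exact s.rel 2 1
    · show ρ 2 ≤ 2 * E
      have h1 := (s.gij h (i := 2) (j := 3) (by decide)).2.2
      have h2 := hcos (θ 3 - θ 2) g3 (by linarith)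
      have h3 : ρ 2 * 0.96 ≤ ρ 2 * (2 * cos (θ 3 - θ 2)) :=
        mul_le_mul_of_nonneg_left (by linarith) (s.pos 2).le
      linarith
  · -- j = 3
    refine ⟨⟨v, w 2, 1 / ρ 3, 2 * π - θ 3, 2 * π - θ 3 - A3, ρ 2 / ρ 3, θ 3 - θ 2,
      θ 3 - θ 2 - π / 3,
      ⟨s.vq.symm, (s.ne 3).symm, by positivity, ?_⟩,
      ⟨by linarith, Or.inr ⟨hbig3, A3, A31, A32, A33, by ring⟩⟩,
      ⟨s.adj 2, fun hc => by have := s.inj hc; revert this; decide,
        div_pos (s.pos 2) p3, ?_⟩,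
      ⟨by linarith, Or.inl (by ring)⟩, by linarith⟩, ?_⟩
    · rw [one_mul]; exact s.relv' 3
    · rw [neg_one_mul, neg_sub]; exact s.rel 3 2
    · show ρ 3 ≤ 2 * E
      linarith

/-- at a centre with five neighbours, some neighbour has both adjacent gaps at most 80 degrees -/
theorem centre_start (h : MW G P) {u o : V} {w : Fin 4 → V} {ρ θ : Fin 4 → ℝ}
    (s : Star G P u o w ρ θ) : ∃ c, (c = u ∨ ∃ i, c = w i) ∧
      ∀ w' ρ' θ', Star G P o c w' ρ' θ' → θ' 3 - θ' 0 ≤ π + π / 9 := by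
  have hpi := pi_gt_three
  have g0 := (s.g0 h).1
  have g4 := (s.g4 h).1
  have g1 := s.gap01 h
  have g2 := s.gap12 h
  have g3 := s.gap23 h
  have k0 : θ 0 ≤ 4 * π / 9 → θ 1 - θ 0 ≤ 4 * π / 9 → ∃ c, (c = u ∨ ∃ i, c = w i) ∧
      ∀ w' ρ' θ', Star G P o c w' ρ' θ' → θ' 3 - θ' 0 ≤ π + π / 9 := by
    intro h0 h1
    refine ⟨w 0, Or.inr ⟨0, rfl⟩, fun w' ρ' θ' s' => ?_⟩
    have d1 : SideAt G P o (w 0) (w 1) (ρ 1 / ρ 0) (θ 1 - θ 0) 1 := by
      refine ⟨s.adj 1, fun hc => by have := s.inj hc; revert this; decide,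
        div_pos (s.pos 1) (s.pos 0), ?_⟩
      rw [one_mul]; exact s.rel 0 1
    have d2 : SideAt G P o (w 0) u (1 / ρ 0) (θ 0) (-1) := by
      refine ⟨s.vq.symm, (s.ne 0).symm, one_div_pos.mpr (s.pos 0), ?_⟩
      rw [neg_one_mul]; exact s.relv 0
    have := q_two h s' d1 d2 g1 h1 g0 h0
    linarith
  have k1 : θ 1 - θ 0 ≤ 4 * π / 9 → θ 2 - θ 1 ≤ 4 * π / 9 → ∃ c, (c = u ∨ ∃ i, c = w i) ∧
      ∀ w' ρ' θ', Star G P o c w' ρ' θ' → θ' 3 - θ' 0 ≤ π + π / 9 := by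
    intro h0 h1
    refine ⟨w 1, Or.inr ⟨1, rfl⟩, fun w' ρ' θ' s' => ?_⟩
    have d1 : SideAt G P o (w 1) (w 2) (ρ 2 / ρ 1) (θ 2 - θ 1) 1 := by
      refine ⟨s.adj 2, fun hc => by have := s.inj hc; revert this; decide,
        div_pos (s.pos 2) (s.pos 1), ?_⟩
      rw [one_mul]; exact s.rel 1 2
    have d2 : SideAt G P o (w 1) (w 0) (ρ 0 / ρ 1) (θ 1 - θ 0) (-1) := by
      refine ⟨s.adj 0, fun hc => by have := s.inj hc; revert this; decide,
        div_pos (s.pos 0) (s.pos 1), ?_⟩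
      rw [neg_one_mul, neg_sub]; exact s.rel 1 0
    have := q_two h s' d1 d2 g2 h1 g1 h0
    linarith
  have k2 : θ 2 - θ 1 ≤ 4 * π / 9 → θ 3 - θ 2 ≤ 4 * π / 9 → ∃ c, (c = u ∨ ∃ i, c = w i) ∧
      ∀ w' ρ' θ', Star G P o c w' ρ' θ' → θ' 3 - θ' 0 ≤ π + π / 9 := by
    intro h0 h1
    refine ⟨w 2, Or.inr ⟨2, rfl⟩, fun w' ρ' θ' s' => ?_⟩
    have d1 : SideAt G P o (w 2) (w 3) (ρ 3 / ρ 2) (θ 3 - θ 2) 1 := by
      refine ⟨s.adj 3, fun hc => by have := s.inj hc; revert this; decide,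
        div_pos (s.pos 3) (s.pos 2), ?_⟩
      rw [one_mul]; exact s.rel 2 3
    have d2 : SideAt G P o (w 2) (w 1) (ρ 1 / ρ 2) (θ 2 - θ 1) (-1) := by
      refine ⟨s.adj 1, fun hc => by have := s.inj hc; revert this; decide,
        div_pos (s.pos 1) (s.pos 2), ?_⟩
      rw [neg_one_mul, neg_sub]; exact s.rel 2 1
    have := q_two h s' d1 d2 g3 h1 g2 h0
    linarith
  have k3 : θ 3 - θ 2 ≤ 4 * π / 9 → 2 * π - θ 3 ≤ 4 * π / 9 → ∃ c, (c = u ∨ ∃ i, c = w i) ∧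
      ∀ w' ρ' θ', Star G P o c w' ρ' θ' → θ' 3 - θ' 0 ≤ π + π / 9 := by
    intro h0 h1
    refine ⟨w 3, Or.inr ⟨3, rfl⟩, fun w' ρ' θ' s' => ?_⟩
    have d1 : SideAt G P o (w 3) u (1 / ρ 3) (2 * π - θ 3) 1 := by
      refine ⟨s.vq.symm, (s.ne 3).symm, one_div_pos.mpr (s.pos 3), ?_⟩
      rw [one_mul]; exact s.relv' 3
    have d2 : SideAt G P o (w 3) (w 2) (ρ 2 / ρ 3) (θ 3 - θ 2) (-1) := by
      refine ⟨s.adj 2, fun hc => by have := s.inj hc; revert this; decide,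
        div_pos (s.pos 2) (s.pos 3), ?_⟩
      rw [neg_one_mul, neg_sub]; exact s.rel 3 2
    have := q_two h s' d1 d2 g4 h1 g3 h0
    linarith
  have k4 : 2 * π - θ 3 ≤ 4 * π / 9 → θ 0 ≤ 4 * π / 9 → ∃ c, (c = u ∨ ∃ i, c = w i) ∧
      ∀ w' ρ' θ', Star G P o c w' ρ' θ' → θ' 3 - θ' 0 ≤ π + π / 9 := by
    intro h0 h1
    refine ⟨u, Or.inl rfl, fun w' ρ' θ' s' => ?_⟩
    have d1 : SideAt G P o u (w 0) (ρ 0) (θ 0) 1 := by
      refine ⟨s.adj 0, s.ne 0, s.pos 0, ?_⟩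
      rw [one_mul]; exact s.eq 0
    have d2 : SideAt G P o u (w 3) (ρ 3) (2 * π - θ 3) (-1) := by
      refine ⟨s.adj 3, s.ne 3, s.pos 3, ?_⟩
      rw [neg_one_mul, rot_two_pi_sub]; exact s.eq 3
    have := q_two h s' d1 d2 g0 h1 g4 h0
    linarith
  by_cases b0 : θ 0 ≤ 4 * π / 9
  · by_cases b1 : θ 1 - θ 0 ≤ 4 * π / 9
    · exact k0 b0 b1
    · by_cases b4 : 2 * π - θ 3 ≤ 4 * π / 9
      · exact k4 b4 b0
      · by_cases b2 : θ 2 - θ 1 ≤ 4 * π / 9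
        · by_cases b3 : θ 3 - θ 2 ≤ 4 * π / 9
          · exact k2 b2 b3
          · exfalso; push Not at b1 b4 b3; linarith
        · exfalso; push Not at b1 b4 b2; linarith
  · by_cases b4 : 2 * π - θ 3 ≤ 4 * π / 9
    · by_cases b3 : θ 3 - θ 2 ≤ 4 * π / 9
      · exact k3 b3 b4
      · by_cases b1 : θ 1 - θ 0 ≤ 4 * π / 9
        · by_cases b2 : θ 2 - θ 1 ≤ 4 * π / 9
          · exact k1 b1 b2
          · exfalso; push Not at b0 b3 b2; linarith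
        · exfalso; push Not at b0 b3 b1; linarith
    · by_cases b2 : θ 2 - θ 1 ≤ 4 * π / 9
      · by_cases b1 : θ 1 - θ 0 ≤ 4 * π / 9
        · exact k1 b1 b2
        · by_cases b3 : θ 3 - θ 2 ≤ 4 * π / 9
          · exact k2 b2 b3
          · exfalso; push Not at b0 b4 b1; linarith
      · exfalso; push Not at b0 b4 b2; linarith

end Pool.Agent.Helper745.Step
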