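import Mathlib
import Pool.Agent.Helper745.Step

set_option autoImplicit false

namespace Pool.Agent.Helper745.Chain

open Real Pool.Agent.Helper745.Side Pool.Agent.Helper745.Star Pool.Agent.Helper745.Step

/-- The addresses of the vertices of the tree: complete tree of depth seven, spines of length m
with three further leaves per spine vertex, and one long path of zeros. -/
def A (m L : ℕ) (l : List (Fin 5)) : Prop :=
  (∀ x ∈ l.tail, x ≠ 4) ∧
    (l.length ≤ 7 ∨ (l.length ≤ m + 8 ∧ ∀ x ∈ (l.drop 7).dropLast, x = 0) ∨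
      (l.length ≤ L ∧ ∀ x ∈ l, x = 0))

variable {V : Type*} {G : SimpleGraph V} {P : V → ℂ}

structure Emb (G : SimpleGraph V) (m L : ℕ) (f : List (Fin 5) → V) : Prop where
  adj : ∀ l i, A m L (l ++ [i]) → G.Adj (f l) (f (l ++ [i]))
  inj : ∀ l l', A m L l → A m L l' → f l = f l' → l = l'

theorem A_root {m L : ℕ} (i : Fin 5) : A m L [i] := by
  refine ⟨by simp, Or.inl (by simp)⟩

theorem tail_append_singleton {l : List (Fin 5)} (hl : l ≠ []) (i : Fin 5) :
    (l ++ [i]).tail = l.tail ++ [i] := by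
  cases l with
  | nil => exact absurd rfl hl
  | cons a l => rfl

theorem A_core {m L : ℕ} {l : List (Fin 5)} (hl : l ≠ []) (h6 : l.length ≤ 6)
    (ht : ∀ x ∈ l.tail, x ≠ 4) {i : Fin 5} (hi : i ≠ 4) : A m L (l ++ [i]) := by
  refine ⟨?_, Or.inl (by simp; omega)⟩
  rw [tail_append_singleton hl]
  intro x hx
  rw [List.mem_append, List.mem_singleton] at hx
  rcases hx with hx | hx
  · exact ht x hx
  · rw [hx]; exact hi

theorem A_arm {m L : ℕ} {c : List (Fin 5)} (hc : c.length = 7)
    (ht : ∀ x ∈ c.tail, x ≠ 4) {i : Fin 5} (hi : i ≠ 4) {j : ℕ} (hj : j ≤ m) :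
    A m L (c ++ List.replicate j 0 ++ [i]) := by
  have hc0 : c ≠ [] := by intro h; rw [h] at hc; simp at hc
  refine ⟨?_, Or.inr (Or.inl ⟨by simp; omega, ?_⟩)⟩
  · rw [List.append_assoc, List.tail_append_of_ne_nil hc0]
    intro x hx
    rw [List.mem_append, List.mem_append, List.mem_singleton] at hx
    rcases hx with hx | hx | hx
    · exact ht x hx
    · rw [List.eq_of_mem_replicate hx]; decide
    · rw [hx]; exact hi
  · rw [List.append_assoc, List.drop_append_of_le_length (by omega), ← hc, List.drop_length,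
      List.nil_append, List.dropLast_concat]
    intro x hx
    exact List.eq_of_mem_replicate hx

/-- the four children -/
def kid (l : List (Fin 5)) (i : Fin 4) : List (Fin 5) := l ++ [Fin.castSucc i]

theorem castSucc_ne (i : Fin 4) : (Fin.castSucc i : Fin 5) ≠ 4 := by
  revert i; decide

theorem ne_four {k : Fin 5} (hk : k ≠ 4) : ∃ i : Fin 4, Fin.castSucc i = k := by
  revert k; decide

/-- star at a non-root vertex all of whose four children are present -/
theorem star_at (h : MW G P) {m L : ℕ} {f : List (Fin 5) → V} (hf : Emb G m L f)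
    {l : List (Fin 5)} (hl : l ≠ []) (hA : A m L l) (hA' : A m L l.dropLast)
    (hkid : ∀ i : Fin 4, A m L (kid l i)) :
    ∃ w ρ θ, Step.Star G P (f l.dropLast) (f l) w ρ θ ∧
      (∀ i, ∃ j, w j = f (kid l i)) ∧ ∀ j, ∃ i, w j = f (kid l i) := by
  have hdl : l.dropLast ++ [l.getLast hl] = l := List.dropLast_append_getLast hl
  apply exists_star h (w' := fun i => f (kid l i))
  · have := hf.adj l.dropLast (l.getLast hl) (by rw [hdl]; exact hA)
    rw [hdl] at this
    exact this
  · intro i j hij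
    have := hf.inj _ _ (hkid i) (hkid j) hij
    unfold kid at this
    have h2 := List.append_inj' this rfl
    have h3 : (Fin.castSucc i : Fin 5) = Fin.castSucc j := by simpa using h2.2
    exact Fin.castSucc_injective 4 h3
  · intro i
    exact hf.adj l _ (hkid i)
  · intro i hc
    have h1 := hf.inj _ _ (hkid i) hA' hc
    have h2 := congrArg List.length h1
    simp [kid] at h2
    omega

/-- deficit bound for all stars at f l -/
def Q (G : SimpleGraph V) (P : V → ℂ) (f : List (Fin 5) → V) (l : List (Fin 5)) (D : ℝ) : Prop :=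
  ∀ w ρ θ, Step.Star G P (f l.dropLast) (f l) w ρ θ → θ 3 - θ 0 ≤ π + D

theorem A_short {m L : ℕ} {l : List (Fin 5)} (h : l.length ≤ 7) (ht : ∀ x ∈ l.tail, x ≠ 4) :
    A m L l := ⟨ht, Or.inl h⟩

theorem tail_dropLast_mem {l : List (Fin 5)} {x : Fin 5} (hx : x ∈ l.dropLast.tail) :
    x ∈ l.tail := by
  rw [List.tail_dropLast] at hx
  exact List.mem_of_mem_dropLast hx

theorem start (h : MW G P) {m L : ℕ} {f : List (Fin 5) → V} (hf : Emb G m L f) :
    ∃ k : Fin 5, Q G P f [k] (π / 9) := by
  have hr : ∀ i : Fin 5, G.Adj (f []) (f [i]) := fun i => hf.adj [] i (A_root i)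
  have hinj : ∀ i j : Fin 5, f [i] = f [j] → i = j := by
    intro i j hij
    have := hf.inj _ _ (A_root i) (A_root j) hij
    simpa using this
  obtain ⟨w, ρ, θ, s, _, hw⟩ := exists_star h (v := f [4]) (q := f []) (hr 4).symm
    (w' := fun i : Fin 4 => f [Fin.castSucc i])
    (fun i j hij => Fin.castSucc_injective 4 (hinj _ _ hij)) (fun i => hr _)
    (fun i hc => castSucc_ne i (hinj _ _ hc))
  obtain ⟨c, hc, hq⟩ := centre_start h s
  have hk : ∃ k : Fin 5, c = f [k] := by
    rcases hc with hc | ⟨i, hc⟩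
    · exact ⟨4, hc⟩
    · obtain ⟨j, hj⟩ := hw i
      exact ⟨Fin.castSucc j, hc.trans hj⟩
  obtain ⟨k, rfl⟩ := hk
  exact ⟨k, hq⟩

theorem core_next (h : MW G P) {m L : ℕ} {f : List (Fin 5) → V} (hf : Emb G m L f)
    {l : List (Fin 5)} (hl : l ≠ []) (h6 : l.length ≤ 6) (ht : ∀ x ∈ l.tail, x ≠ 4) {D : ℝ}
    (hD : D ≤ π / 9) (hQ : Q G P f l D) :
    ∃ i : Fin 4, Q G P f (kid l i) (D / 2) ∧ EdgeP G P (f l) (f (kid l i)) D := by
  obtain ⟨w, ρ, θ, s, _, hw⟩ := star_at h hf hl (A_short (by omega) ht)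
    (A_short (by simp; omega) (fun x hx => ht x (tail_dropLast_mem hx)))
    (fun i => A_core hl h6 ht (castSucc_ne i))
  obtain ⟨i, hi⟩ := hw 1
  refine ⟨i, ?_, ?_⟩
  · intro w' ρ' θ' s'
    have e : (kid l i).dropLast = l := by simp [kid]
    rw [e, ← hi] at s'
    exact core_step h s (hQ _ _ _ s) hD s'
  · rw [← hi]
    exact core_edge h s (hQ _ _ _ s)

theorem core_all (h : MW G P) {m L : ℕ} {f : List (Fin 5) → V} (hf : Emb G m L f) :
    ∀ d : ℕ, d ≤ 5 → ∃ l : List (Fin 5), l.length = d + 1 ∧ (∀ x ∈ l.tail, x ≠ 4) ∧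
      Q G P f l (π / 9 / 2 ^ d) := by
  intro d
  induction d with
  | zero =>
    intro _
    obtain ⟨k, hk⟩ := start h hf
    exact ⟨[k], rfl, by simp, by simpa using hk⟩
  | succ d ih =>
    intro hd
    obtain ⟨l, hl, ht, hQ⟩ := ih (by omega)
    have hl0 : l ≠ [] := by intro hc; rw [hc] at hl; simp at hl
    have hD : π / 9 / 2 ^ d ≤ π / 9 := by
      apply div_le_self (by positivity)
      exact one_le_pow₀ (by norm_num)
    obtain ⟨i, hi, _⟩ := core_next h hf hl0 (by omega) ht hD hQ
    refine ⟨kid l i, by simp [kid, hl], ?_, ?_⟩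
    · unfold kid
      rw [tail_append_singleton hl0]
      intro x hx
      rw [List.mem_append, List.mem_singleton] at hx
      rcases hx with hx | hx
      · exact ht x hx
      · rw [hx]; exact castSucc_ne i
    · have e : π / 9 / 2 ^ (d + 1) = π / 9 / 2 ^ d / 2 := by rw [pow_succ]; ring
      rw [e]; exact hi

theorem EdgeP.mono {v q : V} {E E' : ℝ} (h : EdgeP G P v q E) (hE : E ≤ E') :
    EdgeP G P v q E' := by
  obtain ⟨y1, y2, l1, a1, e1, l2, a2, e2, d1, t1, d2, t2, he⟩ := h
  exact ⟨y1, y2, l1, a1, e1, l2, a2, e2, d1, t1, d2, t2, he.trans hE⟩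

/-- some arm starts with a small excess -/
theorem exists_arm (h : MW G P) {m L : ℕ} {f : List (Fin 5) → V} (hf : Emb G m L f) :
    ∃ c : List (Fin 5), c.length = 7 ∧ (∀ x ∈ c.tail, x ≠ 4) ∧
      EdgeP G P (f c.dropLast) (f c) (1 / 50) := by
  obtain ⟨l, hl, ht, hQ⟩ := core_all h hf 5 le_rfl
  have hl0 : l ≠ [] := by intro hc; rw [hc] at hl; simp at hl
  have hpi := pi_lt_four
  have hpi0 := pi_pos
  have hD : π / 9 / 2 ^ 5 ≤ π / 9 := by
    apply div_le_self (by positivity)
    norm_num
  obtain ⟨i, _, hi⟩ := core_next h hf hl0 (by omega) ht hD hQ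
  refine ⟨kid l i, by simp [kid, hl], ?_, ?_⟩
  · unfold kid
    rw [tail_append_singleton hl0]
    intro x hx
    rw [List.mem_append, List.mem_singleton] at hx
    rcases hx with hx | hx
    · exact ht x hx
    · rw [hx]; exact castSucc_ne i
  · have e : (kid l i).dropLast = l := by simp [kid]
    rw [e]
    refine EdgeP.mono hi ?_
    norm_num
    linarith

theorem spine_A {m L : ℕ} {c : List (Fin 5)} (hc : c.length = 7)
    (ht : ∀ x ∈ c.tail, x ≠ 4) {j : ℕ} (hj : j ≤ m + 1) :
    A m L (c ++ List.replicate j 0) := by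
  cases j with
  | zero => simpa using A_short (m := m) (L := L) (by omega) ht
  | succ j =>
    rw [List.replicate_succ', ← List.append_assoc]
    exact A_arm hc ht (by decide) (by omega)

theorem norm_rel {v q : V} {w : Fin 4 → V} {ρ θ : Fin 4 → ℝ}
    (s : Step.Star G P v q w ρ θ) (j : Fin 4) : ‖P q - P (w j)‖ = ρ j * ‖P v - P q‖ := by
  rw [norm_sub_rev, s.eq j, norm_mul, norm_mul, Complex.norm_real, Real.norm_eq_abs,
    abs_of_pos (s.pos j)]
  unfold rot
  rw [Complex.norm_exp_ofReal_mul_I, mul_one]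

/-- lengths along the arm -/
theorem arm (h : MW G P) {m L : ℕ} {f : List (Fin 5) → V} (hf : Emb G m L f)
    {c : List (Fin 5)} (hc : c.length = 7) (ht : ∀ x ∈ c.tail, x ≠ 4)
    (hE : EdgeP G P (f c.dropLast) (f c) (1 / 50)) :
    ∀ j : ℕ, j ≤ m → EdgeP G P (f (c ++ List.replicate j 0).dropLast)
        (f (c ++ List.replicate j 0)) ((2 / 3) ^ j * (1 / 50)) ∧
      ‖P (f (c ++ List.replicate j 0).dropLast) - P (f (c ++ List.replicate j 0))‖ ≤
        (2 / 3) ^ (j.choose 2) * ‖P (f c.dropLast) - P (f c)‖ := by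
  have hc0 : c ≠ [] := by intro h; rw [h] at hc; simp at hc
  intro j
  induction j with
  | zero =>
    intro _
    simp only [List.replicate_zero, List.append_nil, pow_zero, one_mul, Nat.choose_zero_succ,
      le_refl, and_true]
    exact hE
  | succ j ih =>
    intro hj
    obtain ⟨ih1, ih2⟩ := ih (by omega)
    set l := c ++ List.replicate j 0 with hl
    have hl0 : l ≠ [] := by rw [hl]; simp [hc0]
    have hA : A m L l := spine_A hc ht (by omega)
    have hA' : A m L l.dropLast := by
      cases j with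
      | zero =>
        have : l = c := by rw [hl]; simp
        rw [this]
        exact A_short (by simp; omega) (fun x hx => ht x (tail_dropLast_mem hx))
      | succ i =>
        have : l.dropLast = c ++ List.replicate i 0 := by
          rw [hl, List.replicate_succ', ← List.append_assoc, List.dropLast_concat]
        rw [this]
        exact spine_A hc ht (by omega)
    obtain ⟨w, ρ, θ, s, hw, _⟩ := star_at h hf hl0 hA hA'
      (fun i => A_arm hc ht (castSucc_ne i) (by omega))
    obtain ⟨k, hk⟩ := hw 0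
    have hkid : kid l 0 = c ++ List.replicate (j + 1) 0 := by
      unfold kid
      rw [hl, List.replicate_succ', ← List.append_assoc]
      rfl
    rw [hkid] at hk
    have hdl : (c ++ List.replicate (j + 1) 0).dropLast = l := by
      rw [List.replicate_succ', ← List.append_assoc, List.dropLast_concat]
    have hsmall : ((2 : ℝ) / 3) ^ j * (1 / 50) ≤ 1 / 50 := by
      have : ((2 : ℝ) / 3) ^ j ≤ 1 := pow_le_one₀ (by norm_num) (by norm_num)
      linarith
    obtain ⟨a1, a2⟩ := arm_step h hsmall ih1 s k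
    rw [hdl, ← hk]
    constructor
    · have e : ((2 : ℝ) / 3) ^ (j + 1) * (1 / 50) = 2 / 3 * ((2 / 3) ^ j * (1 / 50)) := by
        rw [pow_succ]; ring
      rw [e]; exact a1
    · rw [norm_rel s k]
      have e : (j + 1).choose 2 = j + j.choose 2 := by
        rw [Nat.choose_succ_succ' j 1, Nat.choose_one_right]
      rw [e, pow_add, mul_assoc]
      have hp : (0 : ℝ) < (2 / 3) ^ j := by positivity
      apply mul_le_mul _ ih2 (norm_nonneg _) hp.le
      linarith

end Pool.Agent.Helper745.Chain
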