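import Mathlib

set_option autoImplicit false

namespace Pool.Agent.Helper745.HB

open Finset Filter Topology

/-- digit vectors -/
abbrev Dg (m : ℕ) := Fin m → Fin 3

/-- raw data: digits, class, height -/
abbrev R (m : ℕ) := Dg m × Fin 3 × ℕ

variable {m : ℕ}

/-- slope scale of direction `i` -/
def T (i : Fin m) : ℕ := 2 ^ (m - (i : ℕ))

/-- reference slope -/
def q (n : Dg m) : ℕ := ∑ j, if n j = 1 then T j else 0

/-- half of the height change along the line in direction `i` -/
def dl (i : Fin m) (n : Dg m) : ℕ := 8 ^ (i : ℕ) * (2 * T i + q (Function.update n i 0))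

/-- the designed lines -/
def Ln (i : Fin m) (u v w : R m) : Prop :=
  u.1 i = 0 ∧ u.2.1 = 0 ∧ v.1 = Function.update u.1 i 1 ∧ v.2.1 = 1 ∧
    w.1 = Function.update u.1 i 2 ∧ w.2.1 = 2 ∧
    v.2.2 = u.2.2 + dl i u.1 ∧ w.2.2 = u.2.2 + 2 * dl i u.1

theorem q_update (n : Dg m) (i : Fin m) (c : Fin 3) (hc : c ≠ 1) :
    q (Function.update n i c) + (if n i = 1 then T i else 0) = q n := by
  unfold q
  rw [← Finset.add_sum_erase _ _ (Finset.mem_univ i),
    ← Finset.add_sum_erase (Finset.univ) (fun j => if n j = 1 then T j else 0)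
      (Finset.mem_univ i)]
  rw [Function.update_self, if_neg hc, zero_add, add_comm]
  congr 1
  refine Finset.sum_congr rfl (fun j hj => ?_)
  rw [Function.update_of_ne (Finset.ne_of_mem_erase hj)]

theorem q_update_one (n : Dg m) (i : Fin m) (h : n i ≠ 1) :
    q (Function.update n i 1) = q n + T i := by
  have h1 := q_update (Function.update n i 1) i (n i) h
  rw [Function.update_idem, Function.update_eq_self, Function.update_self, if_pos rfl] at h1
  exact h1.symm

theorem q_zero_two (n : Dg m) (i : Fin m) :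
    q (Function.update n i 2) = q (Function.update n i 0) := by
  have h1 := q_update n i 2 (by decide)
  have h2 := q_update n i 0 (by decide)
  omega

theorem dl_update_self (i : Fin m) (n : Dg m) (c : Fin 3) :
    dl i (Function.update n i c) = dl i n := by
  unfold dl
  rw [Function.update_idem]

theorem dl_update_ne (i j : Fin m) (hij : j ≠ i) (n : Dg m) :
    dl j (Function.update n i 2) = dl j (Function.update n i 0) := by
  unfold dl
  rw [Function.update_comm hij.symm, Function.update_comm hij.symm, q_zero_two]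

/-- real digit -/
noncomputable def dr (n : Dg m) (i : Fin m) : ℝ := ((n i : ℕ) : ℝ)

/-- base abscissa -/
noncomputable def x0 (n : Dg m) : ℝ := ∑ i : Fin m, 8 ^ (i : ℕ) * dr n i

/-- digit sum -/
noncomputable def N (n : Dg m) : ℝ := ∑ i : Fin m, dr n i

/-- correction term -/
noncomputable def B (A : ℝ) (n : Dg m) : ℝ :=
  ∑ i : Fin m, (dr n i - 1) * ((dl i n : ℝ) ^ 2 + A * dl i n)

/-- class as a real -/
noncomputable def kr (u : R m) : ℝ := ((u.2.1 : ℕ) : ℝ)

/-- quadratic function -/
noncomputable def F (A : ℝ) (u : R m) : ℝ :=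
  (u.2.2 : ℝ) ^ 2 + A * kr u * u.2.2 - (kr u - 1) * B A u.1

/-- the family of coordinate functions -/
noncomputable def G (A : ℝ) : (Fin 4 ⊕ (Fin m × Fin m)) → R m → ℝ
  | Sum.inl k, u => ![(u.2.2 : ℝ), kr u, F A u, (N u.1 - kr u) ^ 2] k
  | Sum.inr (i, j), u => if i = j then dr u.1 i else dr u.1 i * dr u.1 j

theorem dr_update_self (n : Dg m) (i : Fin m) (c : Fin 3) :
    dr (Function.update n i c) i = ((c : ℕ) : ℝ) := by
  unfold dr; rw [Function.update_self]

theorem dr_update_ne (n : Dg m) (i j : Fin m) (h : j ≠ i) (c : Fin 3) :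
    dr (Function.update n i c) j = dr n j := by
  unfold dr; rw [Function.update_of_ne h]

/-- sums change in one digit only -/
theorem sum_update (c : Fin m → ℝ) (n : Dg m) (i : Fin m) (a : Fin 3) :
    ∑ j, c j * dr (Function.update n i a) j = ∑ j, c j * dr n j + c i * (((a : ℕ) : ℝ) - dr n i) := by
  rw [← Finset.add_sum_erase _ _ (Finset.mem_univ i),
    ← Finset.add_sum_erase (Finset.univ) (fun j => c j * dr n j) (Finset.mem_univ i),
    dr_update_self]
  have : ∑ x ∈ Finset.univ.erase i, c x * dr (Function.update n i a) x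
      = ∑ x ∈ Finset.univ.erase i, c x * dr n x :=
    Finset.sum_congr rfl (fun j hj => by rw [dr_update_ne _ _ _ (Finset.ne_of_mem_erase hj)])
  rw [this]; ring

theorem x0_update (n : Dg m) (i : Fin m) (a : Fin 3) :
    x0 (Function.update n i a) = x0 n + 8 ^ (i : ℕ) * (((a : ℕ) : ℝ) - dr n i) :=
  sum_update (fun j => 8 ^ (j : ℕ)) n i a

theorem N_update (n : Dg m) (i : Fin m) (a : Fin 3) :
    N (Function.update n i a) = N n + (((a : ℕ) : ℝ) - dr n i) := by
  have := sum_update (fun _ => (1 : ℝ)) n i a
  simpa [N] using this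

theorem B_diff (A : ℝ) (n : Dg m) (i : Fin m) :
    B A (Function.update n i 0) - B A (Function.update n i 2)
      = - 2 * ((dl i n : ℝ) ^ 2 + A * dl i n) := by
  unfold B
  rw [← Finset.add_sum_erase _ _ (Finset.mem_univ i),
    ← Finset.add_sum_erase (Finset.univ) (fun j => (dr (Function.update n i 2) j - 1) *
      ((dl j (Function.update n i 2) : ℝ) ^ 2 + A * dl j (Function.update n i 2)))
      (Finset.mem_univ i), dr_update_self, dr_update_self, dl_update_self, dl_update_self]
  have : ∑ x ∈ Finset.univ.erase i, (dr (Function.update n i 2) x - 1) *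
      ((dl x (Function.update n i 2) : ℝ) ^ 2 + A * dl x (Function.update n i 2))
      = ∑ x ∈ Finset.univ.erase i, (dr (Function.update n i 0) x - 1) *
      ((dl x (Function.update n i 0) : ℝ) ^ 2 + A * dl x (Function.update n i 0)) :=
    Finset.sum_congr rfl (fun j hj => by
      have hj' := Finset.ne_of_mem_erase hj
      rw [dr_update_ne _ _ _ hj', dr_update_ne _ _ _ hj', dl_update_ne i j hj'])
  rw [this]
  norm_num
  ring

end Pool.Agent.Helper745.HB
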