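import Mathlib
import Pool.Agent.Helper745.HB1

set_option autoImplicit false

namespace Pool.Agent.Helper745.HB

open Finset Filter Topology

variable {m : ℕ}

theorem Ln.dr_mid {i : Fin m} {u v w : R m} (h : Ln i u v w) (j : Fin m) :
    dr u.1 j + dr w.1 j = 2 * dr v.1 j := by
  obtain ⟨h1, h2, h3, h4, h5, h6, h7, h8⟩ := h
  rw [h3, h5]
  by_cases hj : j = i
  · subst hj
    rw [dr_update_self, dr_update_self]
    unfold dr
    rw [h1]
    norm_num
  · rw [dr_update_ne _ _ _ hj, dr_update_ne _ _ _ hj]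
    ring

theorem Ln.kr_eq {i : Fin m} {u v w : R m} (h : Ln i u v w) :
    kr u = 0 ∧ kr v = 1 ∧ kr w = 2 := by
  obtain ⟨h1, h2, h3, h4, h5, h6, h7, h8⟩ := h
  unfold kr
  rw [h2, h4, h6]
  norm_num

theorem Ln.dr_zero {i : Fin m} {u v w : R m} (h : Ln i u v w) : dr u.1 i = 0 := by
  unfold dr; rw [h.1]; norm_num

theorem Ln.y_eq {i : Fin m} {u v w : R m} (h : Ln i u v w) :
    (v.2.2 : ℝ) = u.2.2 + dl i u.1 ∧ (w.2.2 : ℝ) = u.2.2 + 2 * dl i u.1 := by
  obtain ⟨h1, h2, h3, h4, h5, h6, h7, h8⟩ := h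
  rw [h7, h8]; push_cast; exact ⟨rfl, rfl⟩

theorem Ln.B_eq (A : ℝ) {i : Fin m} {u v w : R m} (h : Ln i u v w) :
    B A u.1 - B A w.1 = - 2 * ((dl i u.1 : ℝ) ^ 2 + A * dl i u.1) := by
  obtain ⟨h1, h2, h3, h4, h5, h6, h7, h8⟩ := h
  have := B_diff A u.1 i
  rw [h5]
  have e : Function.update u.1 i 0 = u.1 := by
    rw [← h1]; exact Function.update_eq_self i u.1
  rwa [e] at this

theorem Ln.mid (A : ℝ) {i : Fin m} {u v w : R m} (h : Ln i u v w)
    (k : Fin 4 ⊕ (Fin m × Fin m)) : G A k u + G A k w = 2 * G A k v := by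
  obtain ⟨k1, k2, k3⟩ := h.kr_eq
  obtain ⟨y1, y2⟩ := h.y_eq
  have hB := h.B_eq A
  have hd := h.dr_mid
  have hz := h.dr_zero
  rcases k with k | ⟨a, b⟩
  · fin_cases k
    · simp only [G]
      simp
      rw [y1, y2]; ring
    · simp only [G]
      simp
      rw [k1, k2, k3]; ring
    · simp only [G]
      simp
      unfold F
      rw [k1, k2, k3, y1, y2]
      linear_combination hB
    · simp only [G]
      simp
      have hN1 : N v.1 = N u.1 + 1 := by
        rw [h.2.2.1, N_update, hz]; norm_num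
      have hN2 : N w.1 = N u.1 + 2 := by
        rw [h.2.2.2.2.1, N_update, hz]; norm_num
      rw [k1, k2, k3, hN1, hN2]; ring
  · simp only [G]
    split_ifs with hab
    · exact hd a
    · rw [h.2.2.1, h.2.2.2.2.1]
      by_cases ha : a = i
      · have hb : b ≠ i := fun hb => hab (ha.trans hb.symm)
        rw [dr_update_ne _ _ _ hb, dr_update_ne _ _ _ hb]
        subst ha
        rw [dr_update_self, dr_update_self, hz]
        norm_num
      · rw [dr_update_ne _ _ _ ha, dr_update_ne _ _ _ ha]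
        by_cases hb : b = i
        · subst hb
          rw [dr_update_self, dr_update_self, hz]
          norm_num
          ring
        · rw [dr_update_ne _ _ _ hb, dr_update_ne _ _ _ hb]
          ring

/-- linear sums of digits have the midpoint property -/
theorem Ln.x0_mid {i : Fin m} {u v w : R m} (h : Ln i u v w) :
    x0 u.1 + x0 w.1 = 2 * x0 v.1 := by
  have hd := h.dr_mid
  unfold x0
  rw [← Finset.sum_add_distrib, Finset.mul_sum]
  refine Finset.sum_congr rfl (fun j _ => ?_)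
  linear_combination (8 : ℝ) ^ (j : ℕ) * hd j

/-- exponent of the perturbation attached to a coordinate function -/
def ix : (Fin 4 ⊕ (Fin m × Fin m)) → ℕ
  | Sum.inl k => k
  | Sum.inr (i, j) => 4 + (i * m + j)

theorem ix_inj : Function.Injective (ix (m := m)) := by
  intro a b h
  rcases a with a | ⟨a1, a2⟩ <;> rcases b with b | ⟨b1, b2⟩ <;> simp only [ix] at h
  · exact congrArg _ (Fin.ext h)
  · omega
  · omega
  · have h1 : (a1 : ℕ) * m + a2 = b1 * m + b2 := by omega
    have hm : 0 < m := lt_of_le_of_lt (Nat.zero_le _) a1.2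
    have e1 : ((a1 : ℕ) * m + a2) / m = a1 := by
      rw [mul_comm, Nat.mul_add_div hm, Nat.div_eq_of_lt a2.2, add_zero]
    have e2 : ((b1 : ℕ) * m + b2) / m = b1 := by
      rw [mul_comm, Nat.mul_add_div hm, Nat.div_eq_of_lt b2.2, add_zero]
    have e3 : (a1 : ℕ) = b1 := by rw [← e1, ← e2, h1]
    have e4 : (a2 : ℕ) = b2 := by rw [e3] at h1; omega
    rw [Fin.ext e3, Fin.ext e4]

/-- abscissa -/
noncomputable def X (η : ℝ) (u : R m) : ℝ := x0 u.1 + η * (3 * (u.2.2 : ℝ) + kr u)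

/-- ordinate -/
noncomputable def Z (A ε : ℝ) (u : R m) : ℝ := ∑ k, G A k u * ε ^ ix k

/-- the points -/
noncomputable def pt (A η ε : ℝ) (u : R m) : ℝ × ℝ := (X η u, Z A ε u)

theorem Ln.pt_mid (A η ε : ℝ) {i : Fin m} {u v w : R m} (h : Ln i u v w) :
    pt A η ε u + pt A η ε w = (2 : ℝ) • pt A η ε v := by
  obtain ⟨k1, k2, k3⟩ := h.kr_eq
  obtain ⟨y1, y2⟩ := h.y_eq
  ext
  · simp only [pt, Prod.fst_add, Prod.smul_fst, smul_eq_mul, X]
    rw [k1, k2, k3, y1, y2]
    linear_combination h.x0_mid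
  · simp only [pt, Prod.snd_add, Prod.smul_snd, smul_eq_mul, Z]
    rw [← Finset.sum_add_distrib, Finset.mul_sum]
    refine Finset.sum_congr rfl (fun k _ => ?_)
    linear_combination ε ^ ix k * h.mid A k

end Pool.Agent.Helper745.HB
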