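import Mathlib
import Pool.Agent.Helper745.HB2

set_option autoImplicit false

namespace Pool.Agent.Helper745.HB

open Finset Filter Topology

variable {m : ℕ}

/-- scale separation -/
def Sep (la Ta lb Tb : ℝ) : Prop :=
  0 < la ∧ 0 < Tb ∧ la < lb ∧ 2 * Tb ≤ Ta ∧ 4 * la * (Ta - Tb) < (lb - la) * Tb

theorem core_same (li lj lk Ti Tj Tk U W : ℝ) (hli : 0 < li)
    (hj : Sep lj Tj li Ti ∨ Sep li Ti lj Tj) (hk : Sep lk Tk li Ti ∨ Sep li Ti lk Tk)
    (hU : 0 ≤ U) (hUj : U ≤ lj) (hW : 0 ≤ W) (hWk : W ≤ lk)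
    (e1 : U + W = li) (e2 : U * (Tj - Ti) + 2 * W * (Tk - Ti) = 0) : False := by
  rcases hj with ⟨a1, a2, a3, a4, a5⟩ | ⟨a1, a2, a3, a4, a5⟩ <;>
    rcases hk with ⟨b1, b2, b3, b4, b5⟩ | ⟨b1, b2, b3, b4, b5⟩
  · -- Tj, Tk > Ti
    have h1 : 0 ≤ U * (Tj - Ti) := mul_nonneg hU (by linarith)
    have h2 : 0 ≤ W * (Tk - Ti) := mul_nonneg hW (by linarith)
    have h3 : U * (Tj - Ti) = 0 := by linarith
    have h4 : W * (Tk - Ti) = 0 := by linarith
    rcases mul_eq_zero.1 h3 with h5 | h5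
    · rcases mul_eq_zero.1 h4 with h6 | h6 <;> linarith
    · linarith
  · -- j < i < k
    have h1 : U * (Tj - Ti) ≤ lj * (Tj - Ti) := mul_le_mul_of_nonneg_right hUj (by linarith)
    have h2 : (li - lj) * Ti ≤ 2 * W * (Ti - Tk) := by
      have h3 : (li - lj) * (Ti / 2) ≤ W * (Ti - Tk) :=
        mul_le_mul (by linarith) (by linarith) (by linarith) hW
      linarith
    have h4 : 0 ≤ lj * (Tj - Ti) := mul_nonneg a1.le (by linarith)
    linarith
  · -- k < i < j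
    have h1 : W * (Tk - Ti) ≤ lk * (Tk - Ti) := mul_le_mul_of_nonneg_right hWk (by linarith)
    have h2 : (li - lk) * (Ti / 2) ≤ U * (Ti - Tj) :=
        mul_le_mul (by linarith) (by linarith) (by linarith) hU
    linarith
  · have h1 : 0 ≤ U * (Ti - Tj) := mul_nonneg hU (by linarith)
    have h2 : 0 ≤ W * (Ti - Tk) := mul_nonneg hW (by linarith)
    have h3 : U * (Ti - Tj) = 0 := by linarith
    have h4 : W * (Ti - Tk) = 0 := by linarith
    rcases mul_eq_zero.1 h3 with h5 | h5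
    · rcases mul_eq_zero.1 h4 with h6 | h6 <;> linarith
    · linarith

theorem core_opp (li lk Ti Tj Tk U W : ℝ) (hli : 0 < li) (hTj : 0 < Tj)
    (hk : Sep lk Tk li Ti ∨ Sep li Ti lk Tk)
    (hU : 0 ≤ U) (hWk : W ≤ lk)
    (e1 : W = li + U) (e2 : U * (Tj - Ti) = 2 * W * (Tk - Ti)) : False := by
  rcases hk with ⟨b1, b2, b3, b4, b5⟩ | ⟨b1, b2, b3, b4, b5⟩
  · linarith
  · have hW : 0 < W := by linarith
    have h1 : W * Ti ≤ 2 * W * (Ti - Tk) := by
      have := mul_le_mul_of_nonneg_left (show Ti / 2 ≤ Ti - Tk by linarith) hW.le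
      linarith
    have h2 : U * (Ti - Tj) ≤ U * Ti := mul_le_mul_of_nonneg_left (by linarith) hU
    have h3 : U * Ti < W * Ti := mul_lt_mul_of_pos_right (by linarith) (by linarith)
    linarith

theorem sep_nat (a b : Fin m) (h : a < b) :
    4 * 8 ^ (a : ℕ) * T a ≤ 8 ^ (b : ℕ) * T b ∧ 2 * T b ≤ T a := by
  have h' : (a : ℕ) < b := h
  have ha : (a : ℕ) < m := a.2
  have hb : (b : ℕ) < m := b.2
  unfold T
  constructor
  · have e1 : 4 * 8 ^ (a : ℕ) * 2 ^ (m - (a : ℕ)) = 2 ^ (2 + m + 2 * (a : ℕ)) := by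
      rw [show (8 : ℕ) = 2 ^ 3 by norm_num, show (4 : ℕ) = 2 ^ 2 by norm_num, ← pow_mul,
        ← pow_add, ← pow_add]
      congr 1; omega
    have e2 : 8 ^ (b : ℕ) * 2 ^ (m - (b : ℕ)) = 2 ^ (m + 2 * (b : ℕ)) := by
      rw [show (8 : ℕ) = 2 ^ 3 by norm_num, ← pow_mul, ← pow_add]
      congr 1; omega
    rw [e1, e2]
    exact Nat.pow_le_pow_right (by norm_num) (by omega)
  · rw [← pow_succ']
    exact Nat.pow_le_pow_right (by norm_num) (by omega)

theorem T_pos (a : Fin m) : 0 < T a := by unfold T; positivity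

theorem sep_lt (a b : Fin m) (h : a < b) :
    Sep (8 ^ (a : ℕ)) (T a) (8 ^ (b : ℕ)) (T b) := by
  obtain ⟨h1, h2⟩ := sep_nat a b h
  have h1' : 4 * (8 : ℝ) ^ (a : ℕ) * T a ≤ 8 ^ (b : ℕ) * T b := by exact_mod_cast h1
  have h2' : 2 * (T b : ℝ) ≤ T a := by exact_mod_cast h2
  have hT : (0 : ℝ) < T b := by exact_mod_cast T_pos b
  have hp : (0 : ℝ) < 8 ^ (a : ℕ) := by positivity
  refine ⟨hp, hT, pow_lt_pow_right₀ (by norm_num) h, h2', ?_⟩
  have := mul_pos hp hT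
  linarith

theorem sep_ne (a b : Fin m) (h : a ≠ b) :
    Sep (8 ^ (a : ℕ)) (T a) (8 ^ (b : ℕ)) (T b) ∨ Sep (8 ^ (b : ℕ)) (T b) (8 ^ (a : ℕ)) (T a) := by
  rcases lt_or_gt_of_ne h with h | h
  · exact Or.inl (sep_lt a b h)
  · exact Or.inr (sep_lt b a h)

/-- an edge from the middle point `b` to the outer point `o` -/
def Ed (s : Bool) (i : Fin m) (b o : R m) : Prop :=
  ∃ p, if s then Ln i p b o else Ln i o b p

/-- the sign of a side -/
noncomputable def sn (s : Bool) : ℝ := if s then 1 else -1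

theorem Ln.u_eq {i : Fin m} {u v w : R m} (h : Ln i u v w) :
    u.1 = Function.update v.1 i 0 ∧ u.1 = Function.update w.1 i 0 := by
  obtain ⟨h1, h2, h3, h4, h5, h6, h7, h8⟩ := h
  rw [h3, h5, Function.update_idem, Function.update_idem]
  have e : Function.update u.1 i 0 = u.1 := by
    rw [← h1]; exact Function.update_eq_self i u.1
  exact ⟨e.symm, e.symm⟩

theorem Ln.ext_u {i : Fin m} {u v w v' w' : R m} (h : Ln i u v w) (h' : Ln i u v' w') :
    v = v' ∧ w = w' := by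
  obtain ⟨h1, h2, h3, h4, h5, h6, h7, h8⟩ := h
  obtain ⟨g1, g2, g3, g4, g5, g6, g7, g8⟩ := h'
  exact ⟨Prod.ext (h3.trans g3.symm) (Prod.ext (h4.trans g4.symm) (h7.trans g7.symm)),
    Prod.ext (h5.trans g5.symm) (Prod.ext (h6.trans g6.symm) (h8.trans g8.symm))⟩

theorem Ln.ext_v {i : Fin m} {u v w u' w' : R m} (h : Ln i u v w) (h' : Ln i u' v w') :
    u = u' := by
  have e : u.1 = u'.1 := h.u_eq.1.trans h'.u_eq.1.symm
  obtain ⟨h1, h2, h3, h4, h5, h6, h7, h8⟩ := h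
  obtain ⟨g1, g2, g3, g4, g5, g6, g7, g8⟩ := h'
  refine Prod.ext e (Prod.ext (h2.trans g2.symm) ?_)
  rw [e] at h7
  omega

theorem Ln.ext_w {i : Fin m} {u v w u' v' : R m} (h : Ln i u v w) (h' : Ln i u' v' w) :
    u = u' := by
  have e : u.1 = u'.1 := h.u_eq.2.trans h'.u_eq.2.symm
  obtain ⟨h1, h2, h3, h4, h5, h6, h7, h8⟩ := h
  obtain ⟨g1, g2, g3, g4, g5, g6, g7, g8⟩ := h'
  refine Prod.ext e (Prod.ext (h2.trans g2.symm) ?_)
  rw [e] at h8
  omega

theorem Ed.uniq_o {s : Bool} {i : Fin m} {b o o' : R m} (h : Ed s i b o) (h' : Ed s i b o') :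
    o = o' := by
  obtain ⟨p, hp⟩ := h
  obtain ⟨p', hp'⟩ := h'
  cases s
  · simp only [Bool.false_eq_true, if_false] at hp hp'
    exact hp.ext_v hp'
  · simp only [if_true] at hp hp'
    have := hp.ext_v hp'
    subst this
    exact (hp.ext_u hp').2

theorem Ed.uniq_b {s : Bool} {i : Fin m} {b b' o : R m} (h : Ed s i b o) (h' : Ed s i b' o) :
    b = b' := by
  obtain ⟨p, hp⟩ := h
  obtain ⟨p', hp'⟩ := h'
  cases s
  · simp only [Bool.false_eq_true, if_false] at hp hp'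
    exact (hp.ext_u hp').1
  · simp only [if_true] at hp hp'
    have := hp.ext_w hp'
    subst this
    exact (hp.ext_u hp').1

theorem Ed.cls {s : Bool} {i : Fin m} {b o : R m} (h : Ed s i b o) :
    b.2.1 = 1 ∧ o.2.1 = if s then 2 else 0 := by
  obtain ⟨p, hp⟩ := h
  cases s
  · simp only [Bool.false_eq_true, if_false] at hp ⊢
    exact ⟨hp.2.2.2.1, hp.2.1⟩
  · simp only [if_true] at hp ⊢
    exact ⟨hp.2.2.2.1, hp.2.2.2.2.2.1⟩

theorem Ln.q_eq {i : Fin m} {u v w : R m} (h : Ln i u v w) :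
    q u.1 + T i = q v.1 ∧ q w.1 = q u.1 ∧ dl i u.1 = 8 ^ (i : ℕ) * (T i + q v.1) := by
  have hu := h.u_eq.1
  obtain ⟨h1, h2, h3, h4, h5, h6, h7, h8⟩ := h
  have e : Function.update u.1 i 0 = u.1 := by
    rw [← h1]; exact Function.update_eq_self i u.1
  have e1 : q v.1 = q u.1 + T i := by
    rw [h3]; exact q_update_one _ _ (by rw [h1]; decide)
  refine ⟨e1.symm, ?_, ?_⟩
  · rw [h5, q_zero_two, e]
  · unfold dl
    rw [e, e1]
    congr 1
    omega

theorem Ed.disp {s : Bool} {i : Fin m} {b o : R m} (h : Ed s i b o) :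
    x0 o.1 = x0 b.1 + sn s * 8 ^ (i : ℕ) ∧
      (o.2.2 : ℝ) = b.2.2 + sn s * (8 ^ (i : ℕ) * (T i + q b.1)) ∧
      (q o.1 : ℝ) + T i = q b.1 := by
  obtain ⟨p, hp⟩ := h
  cases s
  · simp only [Bool.false_eq_true, if_false] at hp
    obtain ⟨q1, q2, q3⟩ := hp.q_eq
    obtain ⟨y1, y2⟩ := hp.y_eq
    have hz := hp.dr_zero
    have hx : x0 b.1 = x0 o.1 + 8 ^ (i : ℕ) := by
      rw [hp.2.2.1, x0_update, hz]; norm_num
    rw [q3] at y1
    push_cast at y1
    refine ⟨by rw [hx]; simp [sn], by rw [y1]; simp [sn], by exact_mod_cast q1⟩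
  · simp only [if_true] at hp
    obtain ⟨q1, q2, q3⟩ := hp.q_eq
    obtain ⟨y1, y2⟩ := hp.y_eq
    have hz := hp.dr_zero
    have hx : x0 b.1 = x0 p.1 + 8 ^ (i : ℕ) := by
      rw [hp.2.2.1, x0_update, hz]; norm_num
    have hx2 : x0 o.1 = x0 p.1 + 8 ^ (i : ℕ) * 2 := by
      rw [hp.2.2.2.2.1, x0_update, hz]; norm_num
    rw [q3] at y1 y2
    push_cast at y1 y2
    refine ⟨by rw [hx, hx2]; simp only [sn, if_true]; ring,
      by rw [y1, y2]; simp only [sn, if_true]; ring, by rw [q2]; exact_mod_cast q1⟩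

theorem Z_zero (A : ℝ) (u : R m) : Z A 0 u = u.2.2 := by
  unfold Z
  rw [Finset.sum_eq_single (Sum.inl 0)]
  · simp [G, ix]
  · intro k _ hk
    have : ix k ≠ 0 := fun h => hk (ix_inj (h.trans (by simp [ix])))
    rw [zero_pow this, mul_zero]
  · intro h; exact absurd (Finset.mem_univ _) h

theorem pt_zero (A : ℝ) (u : R m) : pt A 0 0 u = (x0 u.1, (u.2.2 : ℝ)) := by
  unfold pt
  rw [Z_zero]
  simp [X]

theorem no_cross0 (A : ℝ) {s1 s2 s3 : Bool} {i j k : Fin m} {o1 b o2 b' : R m}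
    (h1 : Ed s1 j b o1) (h2 : Ed s2 i b o2) (h3 : Ed s3 k b' o2) (ho : o1 ≠ o2) (hb : b ≠ b')
    (s r : ℝ) (hs0 : 0 ≤ s) (hs1 : s ≤ 1) (hr0 : 0 ≤ r) (hr1 : r ≤ 1) :
    (1 - s) • pt A 0 0 o1 + s • pt A 0 0 b ≠ (1 - r) • pt A 0 0 o2 + r • pt A 0 0 b' := by
  intro key
  rw [pt_zero, pt_zero, pt_zero, pt_zero] at key
  have hs32 : s3 = s2 := by
    have a := h2.cls.2
    have b := h3.cls.2
    rw [a] at b
    cases s2 <;> cases s3 <;> simp at b ⊢
  subst hs32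
  have hki : k ≠ i := by
    rintro rfl
    exact hb (h2.uniq_b h3)
  obtain ⟨a1, a2, a3⟩ := h1.disp
  obtain ⟨b1, b2, b3⟩ := h2.disp
  obtain ⟨c1, c2, c3⟩ := h3.disp
  have kx := congrArg Prod.fst key
  have ky := congrArg Prod.snd key
  simp only [Prod.fst_add, Prod.smul_fst, Prod.snd_add, Prod.smul_snd, smul_eq_mul] at kx ky
  have hxb : x0 b'.1 = x0 b.1 + sn s3 * 8 ^ (i : ℕ) - sn s3 * 8 ^ (k : ℕ) := by
    rw [← b1, c1]; ring
  have hyb : (b'.2.2 : ℝ) = b.2.2 + sn s3 * (8 ^ (i : ℕ) * (T i + q b.1))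
      - sn s3 * (8 ^ (k : ℕ) * (T k + q b'.1)) := by
    rw [← b2, c2]; ring
  have hq : (q b'.1 : ℝ) = q b.1 - T i + T k := by linarith
  rw [hq] at hyb
  rw [hxb, a1, b1] at kx
  rw [hyb, a2, b2] at ky
  have hTi : (0 : ℝ) < T i := by exact_mod_cast T_pos i
  have hTj : (0 : ℝ) < T j := by exact_mod_cast T_pos j
  have hpi : (0 : ℝ) < 8 ^ (i : ℕ) := by positivity
  have hpj : (0 : ℝ) < 8 ^ (j : ℕ) := by positivity
  have hpk : (0 : ℝ) < 8 ^ (k : ℕ) := by positivity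
  have hs1' : 0 ≤ 1 - s := by linarith
  have hU0 : 0 ≤ (1 - s) * 8 ^ (j : ℕ) := by positivity
  have hU1 : (1 - s) * 8 ^ (j : ℕ) ≤ 8 ^ (j : ℕ) := by
    have := mul_le_mul_of_nonneg_right (show 1 - s ≤ 1 by linarith) hpj.le
    linarith
  have hW0 : 0 ≤ r * 8 ^ (k : ℕ) := by positivity
  have hW1 : r * 8 ^ (k : ℕ) ≤ 8 ^ (k : ℕ) := by
    have := mul_le_mul_of_nonneg_right hr1 hpk.le
    linarith
  by_cases hss : s1 = s3
  · subst hss
    have hji : j ≠ i := by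
      rintro rfl
      exact ho (h1.uniq_o h2)
    refine core_same (8 ^ (i : ℕ)) (8 ^ (j : ℕ)) (8 ^ (k : ℕ)) (T i) (T j) (T k)
      ((1 - s) * 8 ^ (j : ℕ)) (r * 8 ^ (k : ℕ)) hpi (sep_ne j i hji) (sep_ne k i hki)
      hU0 hU1 hW0 hW1 ?_ ?_
    · cases s1
      · simp only [sn, Bool.false_eq_true, if_false] at kx
        linarith
      · simp only [sn, if_true] at kx
        linarith
    · cases s1
      · simp only [sn, Bool.false_eq_true, if_false] at kx ky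
        linear_combination (-1 : ℝ) * ky + (T i + q b.1) * kx
      · simp only [sn, if_true] at kx ky
        linear_combination ky - (T i + q b.1) * kx
  · refine core_opp (8 ^ (i : ℕ)) (8 ^ (k : ℕ)) (T i) (T j) (T k)
      ((1 - s) * 8 ^ (j : ℕ)) (r * 8 ^ (k : ℕ)) hpi hTj (sep_ne k i hki)
      hU0 hW1 ?_ ?_
    · cases s1 <;> cases s3 <;> simp only [sn, Bool.false_eq_true, if_false, if_true] at kx hss
      · exact absurd trivial hss
      · linarith
      · linarith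
      · exact absurd trivial hss
    · cases s1 <;> cases s3 <;> simp only [sn, Bool.false_eq_true, if_false, if_true] at kx ky hss
      · exact absurd trivial hss
      · linear_combination (-1 : ℝ) * ky + (T i + q b.1) * kx
      · linear_combination ky - (T i + q b.1) * kx
      · exact absurd trivial hss

end Pool.Agent.Helper745.HB
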