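import Mathlib
import Pool.Agent.Helper745.HB3

set_option autoImplicit false

namespace Pool.Agent.Helper745.HB

open Finset Filter Topology

variable {m : ℕ}

theorem cont_pt (A : ℝ) (u : R m) : Continuous (fun z : ℝ × ℝ => pt A z.1 z.2 u) := by
  unfold pt X Z
  fun_prop

/-- the combinatorial condition of a path of length 3 -/
def Quad (o1 b o2 b' : R m) : Prop :=
  (∃ (s1 s2 s3 : Bool) (i j k : Fin m), Ed s1 j b o1 ∧ Ed s2 i b o2 ∧ Ed s3 k b' o2) ∧
    o1 ≠ o2 ∧ b ≠ b'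

/-- separation of the two outer edges of the path -/
def Free (A η ε : ℝ) (o1 b o2 b' : R m) : Prop :=
  ∀ y ∈ Set.Icc (0 : ℝ) 1 ×ˢ Set.Icc (0 : ℝ) 1,
    (1 - y.1) • pt A η ε o1 + y.1 • pt A η ε b ≠
      (1 - y.2) • pt A η ε o2 + y.2 • pt A η ε b'

theorem ev_free (A : ℝ) (o1 b o2 b' : R m) (h : Quad o1 b o2 b') :
    ∀ᶠ z : ℝ × ℝ in 𝓝 (0, 0), Free A z.1 z.2 o1 b o2 b' := by
  obtain ⟨⟨s1, s2, s3, i, j, k, h1, h2, h3⟩, ho, hb⟩ := h
  have hK : IsCompact (Set.Icc (0 : ℝ) 1 ×ˢ Set.Icc (0 : ℝ) 1) := isCompact_Icc.prod isCompact_Icc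
  refine hK.eventually_forall_of_forall_eventually
    (P := fun (z : ℝ × ℝ) (y : ℝ × ℝ) => (1 - y.1) • pt A z.1 z.2 o1 + y.1 • pt A z.1 z.2 b ≠
      (1 - y.2) • pt A z.1 z.2 o2 + y.2 • pt A z.1 z.2 b') ?_
  rintro ⟨s, r⟩ ⟨⟨hs0, hs1⟩, ⟨hr0, hr1⟩⟩
  have hc : ∀ u : R m, Continuous (fun p : (ℝ × ℝ) × (ℝ × ℝ) => pt A p.1.1 p.1.2 u) :=
    fun u => (cont_pt A u).comp continuous_fst
  have c1 : Continuous (fun p : (ℝ × ℝ) × (ℝ × ℝ) =>
      (1 - p.2.1) • pt A p.1.1 p.1.2 o1 + p.2.1 • pt A p.1.1 p.1.2 b) := by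
    have := hc o1
    have := hc b
    fun_prop
  have c2 : Continuous (fun p : (ℝ × ℝ) × (ℝ × ℝ) =>
      (1 - p.2.2) • pt A p.1.1 p.1.2 o2 + p.2.2 • pt A p.1.1 p.1.2 b') := by
    have := hc o2
    have := hc b'
    fun_prop
  have h0 := no_cross0 A h1 h2 h3 ho hb s r hs0 hs1 hr0 hr1
  exact (isOpen_ne_fun c1 c2).mem_nhds h0

theorem ev_all_free (A : ℝ) (D : Finset (R m)) :
    ∀ᶠ z : ℝ × ℝ in 𝓝 (0, 0), ∀ o1 ∈ D, ∀ b ∈ D, ∀ o2 ∈ D, ∀ b' ∈ D,
      Quad o1 b o2 b' → Free A z.1 z.2 o1 b o2 b' := by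
  rw [eventually_all_finset]
  intro o1 _
  rw [eventually_all_finset]
  intro b _
  rw [eventually_all_finset]
  intro o2 _
  rw [eventually_all_finset]
  intro b' _
  by_cases h : Quad o1 b o2 b'
  · filter_upwards [ev_free A o1 b o2 b' h] with z hz _ using hz
  · exact Filter.Eventually.of_forall (fun z hz => absurd hz h)

theorem digits_zero : ∀ (m : ℕ) (c : Fin m → ℤ), (∀ i, |c i| ≤ 2) →
    ∑ i : Fin m, 8 ^ (i : ℕ) * c i = 0 → ∀ i, c i = 0 := by
  intro m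
  induction m with
  | zero => intro c _ _ i; exact i.elim0
  | succ m ih =>
    intro c hc hs
    rw [Fin.sum_univ_succ] at hs
    simp only [Fin.val_zero, pow_zero, one_mul, Fin.val_succ] at hs
    have h1 : ∑ i : Fin m, (8 : ℤ) ^ ((i : ℕ) + 1) * c i.succ
        = 8 * ∑ i : Fin m, 8 ^ (i : ℕ) * c i.succ := by
      rw [Finset.mul_sum]
      refine Finset.sum_congr rfl (fun i _ => ?_)
      rw [pow_succ]; ring
    rw [h1] at hs
    have h2 := abs_le.1 (hc 0)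
    have h3 : c 0 = 0 := by omega
    have h4 : ∑ i : Fin m, (8 : ℤ) ^ (i : ℕ) * c i.succ = 0 := by omega
    have h5 := ih (fun i => c i.succ) (fun i => hc i.succ) h4
    intro i
    refine Fin.cases h3 (fun i => h5 i) i

theorem x0_inj {n n' : Dg m} (h : x0 n = x0 n') : n = n' := by
  have h1 : ∑ i : Fin m, (8 : ℤ) ^ (i : ℕ) * (((n i : ℕ) : ℤ) - ((n' i : ℕ) : ℤ)) = 0 := by
    have h2 : ∑ i : Fin m, (8 : ℝ) ^ (i : ℕ) * (((n i : ℕ) : ℝ) - ((n' i : ℕ) : ℝ)) = 0 := by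
      unfold x0 dr at h
      simp only [mul_sub, Finset.sum_sub_distrib]
      linarith
    exact_mod_cast h2
  have h3 := digits_zero m (fun i => ((n i : ℕ) : ℤ) - ((n' i : ℕ) : ℤ)) (fun i => by
    have a := (n i).2
    have b := (n' i).2
    rw [abs_le]
    constructor <;> omega) h1
  funext i
  have := h3 i
  apply Fin.ext
  omega

theorem fib_inj {u v : R m} (h1 : u.1 = v.1)
    (h2 : 3 * (u.2.2 : ℝ) + kr u = 3 * (v.2.2 : ℝ) + kr v) : u = v := by
  unfold kr at h2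
  have h3 : 3 * u.2.2 + (u.2.1 : ℕ) = 3 * v.2.2 + (v.2.1 : ℕ) := by exact_mod_cast h2
  have a := u.2.1.2
  have b := v.2.1.2
  refine Prod.ext h1 (Prod.ext (Fin.ext ?_) ?_) <;> omega

theorem ev_X_inj (D : Finset (R m)) :
    ∀ᶠ η : ℝ in 𝓝[≠] 0, ∀ u ∈ D, ∀ v ∈ D, X η u = X η v → u = v := by
  rw [eventually_all_finset]
  intro u _
  rw [eventually_all_finset]
  intro v _
  by_cases hn : u.1 = v.1
  · filter_upwards [self_mem_nhdsWithin] with η hη hX
    have hη' : η ≠ 0 := hη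
    unfold X at hX
    rw [hn] at hX
    have h2 : η * (3 * (u.2.2 : ℝ) + kr u) = η * (3 * (v.2.2 : ℝ) + kr v) := by linarith
    exact fib_inj hn (mul_left_cancel₀ hη' h2)
  · have h0 : X 0 u ≠ X 0 v := by
      simp only [X, zero_mul, add_zero]
      exact fun h => hn (x0_inj h)
    have c1 : Continuous (fun η : ℝ => X η u) := by unfold X; fun_prop
    have c2 : Continuous (fun η : ℝ => X η v) := by unfold X; fun_prop
    have : ∀ᶠ η : ℝ in 𝓝 0, X η u ≠ X η v := (isOpen_ne_fun c1 c2).mem_nhds h0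
    filter_upwards [this.filter_mono nhdsWithin_le_nhds] with η hη hX
    exact absurd hX hη

/-- extraction of coefficients -/
theorem ev_coeff (e : (Fin 4 ⊕ (Fin m × Fin m)) → ℝ) :
    ∀ᶠ ε : ℝ in 𝓝[≠] 0, ∑ k, e k * ε ^ ix k = 0 → ∀ k, e k = 0 := by
  by_cases h : ∀ k, e k = 0
  · exact Filter.Eventually.of_forall (fun _ _ => h)
  · push Not at h
    obtain ⟨k0, hk0⟩ := h
    let p : Polynomial ℝ := ∑ k, Polynomial.C (e k) * Polynomial.X ^ ix k
    have hp : p ≠ 0 := by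
      intro hp0
      apply hk0
      have hc : p.coeff (ix k0) = e k0 := by
        simp only [p, Polynomial.finsetSum_coeff, Polynomial.coeff_C_mul, Polynomial.coeff_X_pow]
        rw [Finset.sum_eq_single k0]
        · simp
        · intro k _ hk
          rw [if_neg (fun h => hk (ix_inj h.symm)), mul_zero]
        · intro h; exact absurd (Finset.mem_univ _) h
      rw [← hc, hp0, Polynomial.coeff_zero]
    have hfin := Polynomial.finite_setOfPred_isRoot hp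
    have hev : ∀ᶠ ε : ℝ in 𝓝[≠] 0, ε ∉ {x | Polynomial.IsRoot p x} :=
      nhdsNE_le_cofinite 0 hfin.compl_mem_cofinite
    filter_upwards [hev] with ε hε hs
    exfalso
    apply hε
    change Polynomial.eval ε p = 0
    simp only [p, Polynomial.eval_finsetSum, Polynomial.eval_mul, Polynomial.eval_C,
      Polynomial.eval_pow, Polynomial.eval_X]
    exact hs

/-- the ratio on a line -/
noncomputable def lam (η : ℝ) (u v w : R m) : ℝ := (X η v - X η u) / (X η w - X η u)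

/-- goodness of the parameters -/
structure Good (A η ε : ℝ) (D : Finset (R m)) : Prop where
  inj : ∀ u ∈ D, ∀ v ∈ D, X η u = X η v → u = v
  ext : ∀ u ∈ D, ∀ v ∈ D, ∀ w ∈ D,
    ∑ k, (G A k v - ((1 - lam η u v w) * G A k u + lam η u v w * G A k w)) * ε ^ ix k = 0 →
      ∀ k, G A k v - ((1 - lam η u v w) * G A k u + lam η u v w * G A k w) = 0
  free : ∀ o1 ∈ D, ∀ b ∈ D, ∀ o2 ∈ D, ∀ b' ∈ D, Quad o1 b o2 b' → Free A η ε o1 b o2 b'

theorem exists_good (A : ℝ) (D : Finset (R m)) : ∃ η ε : ℝ, Good A η ε D := by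
  have h1 := (nhds_prod_eq (x := (0 : ℝ)) (y := (0 : ℝ)) ▸ ev_all_free A D).curry
  obtain ⟨η, hη1, hη2⟩ := ((h1.filter_mono (nhdsWithin_le_nhds (s := {(0 : ℝ)}ᶜ))).and
    (ev_X_inj D)).exists
  have h3 : ∀ᶠ ε : ℝ in 𝓝[≠] 0, ∀ u ∈ D, ∀ v ∈ D, ∀ w ∈ D,
    ∑ k, (G A k v - ((1 - lam η u v w) * G A k u + lam η u v w * G A k w)) * ε ^ ix k = 0 →
      ∀ k, G A k v - ((1 - lam η u v w) * G A k u + lam η u v w * G A k w) = 0 := by
    rw [eventually_all_finset]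
    intro u _
    rw [eventually_all_finset]
    intro v _
    rw [eventually_all_finset]
    intro w _
    exact ev_coeff _
  obtain ⟨ε, hε1, hε2⟩ := ((hη1.filter_mono (nhdsWithin_le_nhds (s := {(0 : ℝ)}ᶜ))).and
    h3).exists
  exact ⟨η, ε, hη2, hε2, hε1⟩

end Pool.Agent.Helper745.HB
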