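import Mathlib
import Pool.Agent.Helper745.HB4

set_option autoImplicit false

namespace Pool.Agent.Helper745.HB

open Finset Filter Topology

variable {m : ℕ}

theorem dr_cases (n : Dg m) (i : Fin m) :
    (n i = 0 ∧ dr n i = 0) ∨ (n i = 1 ∧ dr n i = 1) ∨ (n i = 2 ∧ dr n i = 2) := by
  unfold dr
  generalize n i = a
  fin_cases a
  · left; simp
  · right; left; simp
  · right; right; simp

theorem dr_eq {n n' : Dg m} {i : Fin m} (h : dr n i = dr n' i) : n i = n' i := by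
  unfold dr at h
  apply Fin.ext
  exact_mod_cast h

theorem kr_cases (u : R m) :
    (u.2.1 = 0 ∧ kr u = 0) ∨ (u.2.1 = 1 ∧ kr u = 1) ∨ (u.2.1 = 2 ∧ kr u = 2) := by
  unfold kr
  generalize u.2.1 = a
  fin_cases a
  · left; simp
  · right; left; simp
  · right; right; simp

theorem comb1 (A t : ℝ) (ht0 : 0 < t) (ht1 : t < 1) (u v w : R m)
    (hG : ∀ k, G A k v = (1 - t) * G A k u + t * G A k w) (hAu : (u.2.2 : ℝ) < A)
    (i : Fin m) (hu : u.1 i = 0) (hw : w.1 i = 2) : Ln i u v w := by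
  have hd : ∀ j, dr v.1 j = (1 - t) * dr u.1 j + t * dr w.1 j := by
    intro j
    have := hG (Sum.inr (j, j))
    simpa [G] using this
  have hui : dr u.1 i = 0 := by unfold dr; rw [hu]; norm_num
  have hwi : dr w.1 i = 2 := by unfold dr; rw [hw]; norm_num
  have hdi := hd i
  rw [hui, hwi] at hdi
  have hvi : v.1 i = 1 ∧ dr v.1 i = 1 := by
    rcases dr_cases v.1 i with ⟨_, h⟩ | h | ⟨_, h⟩
    · exfalso; linarith
    · exact h
    · exfalso; linarith
  have ht : t = 1 / 2 := by linarith [hvi.2]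
  subst ht
  have hj : ∀ j, j ≠ i → dr v.1 j = dr u.1 j ∧ dr w.1 j = dr u.1 j := by
    intro j hji
    have h1 := hG (Sum.inr (i, j))
    simp only [G, if_neg hji.symm] at h1
    rw [hui, hwi, hvi.2] at h1
    have h2 := hd j
    constructor <;> linarith
  have hv1 : v.1 = Function.update u.1 i 1 := by
    funext j
    by_cases hji : j = i
    · subst hji; rw [Function.update_self]; exact hvi.1
    · rw [Function.update_of_ne hji]; exact dr_eq (hj j hji).1
  have hw1 : w.1 = Function.update u.1 i 2 := by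
    funext j
    by_cases hji : j = i
    · subst hji; rw [Function.update_self]; exact hw
    · rw [Function.update_of_ne hji]; exact dr_eq (hj j hji).2
  have hN1 : N v.1 = N u.1 + 1 := by
    rw [hv1, N_update, hui]; norm_num
  have hN2 : N w.1 = N u.1 + 2 := by
    rw [hw1, N_update, hui]; norm_num
  have hk := hG (Sum.inl 1)
  have hH := hG (Sum.inl 3)
  have hF := hG (Sum.inl 2)
  have hy := hG (Sum.inl 0)
  simp only [G] at hk hH hF hy
  simp at hk hH hF hy
  have hkk : kr w = kr u + 2 := by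
    have h1 : ((N u.1 - kr u) - (N w.1 - kr w)) ^ 2 = 0 := by
      have h2 : N v.1 - kr v = ((N u.1 - kr u) + (N w.1 - kr w)) / 2 := by
        rw [hN1, hN2, hk]; ring
      rw [h2] at hH
      linear_combination (-4 : ℝ) * hH
    have h3 := pow_eq_zero_iff (two_ne_zero) |>.1 h1
    linarith
  have hu0 : u.2.1 = 0 ∧ kr u = 0 := by
    rcases kr_cases u with h | ⟨_, h⟩ | ⟨_, h⟩
    · exact h
    · exfalso; rcases kr_cases w with ⟨_, h'⟩ | ⟨_, h'⟩ | ⟨_, h'⟩ <;> linarith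
    · exfalso; rcases kr_cases w with ⟨_, h'⟩ | ⟨_, h'⟩ | ⟨_, h'⟩ <;> linarith
  have hw2 : w.2.1 = 2 ∧ kr w = 2 := by
    rcases kr_cases w with ⟨_, h⟩ | ⟨_, h⟩ | h
    · exfalso; linarith [hu0.2]
    · exfalso; linarith [hu0.2]
    · exact h
  have hv2 : v.2.1 = 1 ∧ kr v = 1 := by
    rcases kr_cases v with ⟨_, h⟩ | h | ⟨_, h⟩
    · exfalso; linarith [hu0.2, hw2.2]
    · exact h
    · exfalso; linarith [hu0.2, hw2.2]
  have hB : B A u.1 - B A w.1 = - 2 * ((dl i u.1 : ℝ) ^ 2 + A * dl i u.1) := by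
    have := B_diff A u.1 i
    rw [hw1]
    have e : Function.update u.1 i 0 = u.1 := by
      rw [← hu]; exact Function.update_eq_self i u.1
    rwa [e] at this
  unfold F at hF
  rw [hu0.2, hw2.2, hv2.2] at hF
  have hprod : ((v.2.2 : ℝ) - u.2.2 - dl i u.1) * ((v.2.2 : ℝ) - u.2.2 + dl i u.1 + A) = 0 := by
    have hyw : (w.2.2 : ℝ) = 2 * v.2.2 - u.2.2 := by linarith
    rw [hyw] at hF
    linear_combination (-1 : ℝ) * hF - (1 / 2 : ℝ) * hB
  have hdl : (0 : ℝ) ≤ dl i u.1 := Nat.cast_nonneg _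
  have hyv : (0 : ℝ) ≤ v.2.2 := Nat.cast_nonneg _
  have hyv1 : (v.2.2 : ℝ) = u.2.2 + dl i u.1 := by
    rcases mul_eq_zero.1 hprod with h | h
    · linarith
    · exfalso; linarith
  have hyw1 : (w.2.2 : ℝ) = u.2.2 + 2 * dl i u.1 := by linarith
  exact ⟨hu, hu0.1, hv1, hv2.1, hw1, hw2.1, by exact_mod_cast hyv1, by exact_mod_cast hyw1⟩

theorem comb_same (A t : ℝ) (ht0 : 0 < t) (ht1 : t < 1) (u v w : R m)
    (hG : ∀ k, G A k v = (1 - t) * G A k u + t * G A k w) (h : u.1 = w.1) : u = w := by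
  have hd : ∀ j, dr v.1 j = (1 - t) * dr u.1 j + t * dr w.1 j := by
    intro j
    have := hG (Sum.inr (j, j))
    simpa [G] using this
  have hv1 : v.1 = w.1 := by
    funext j
    apply dr_eq
    rw [hd j, h]; ring
  have hk := hG (Sum.inl 1)
  have hH := hG (Sum.inl 3)
  have hF := hG (Sum.inl 2)
  have hy := hG (Sum.inl 0)
  simp only [G] at hk hH hF hy
  simp at hk hH hF hy
  have htt : t * (1 - t) ≠ 0 := by
    have : 0 < t * (1 - t) := mul_pos ht0 (by linarith)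
    exact this.ne'
  have hkk : kr u = kr w := by
    rw [h, hv1, hk] at hH
    have h1 : t * (1 - t) * (kr u - kr w) ^ 2 = 0 := by
      linear_combination (-1 : ℝ) * hH
    have h2 := (mul_eq_zero.1 h1).resolve_left htt
    have h3 := pow_eq_zero_iff (two_ne_zero) |>.1 h2
    linarith
  have hkv : kr v = kr w := by rw [hk, hkk]; ring
  unfold F at hF
  rw [h, hv1, hkk, hkv, hy] at hF
  have hyy : (u.2.2 : ℝ) = w.2.2 := by
    have h1 : t * (1 - t) * ((u.2.2 : ℝ) - w.2.2) ^ 2 = 0 := by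
      linear_combination (-1 : ℝ) * hF
    have h2 := (mul_eq_zero.1 h1).resolve_left htt
    have h3 := pow_eq_zero_iff (two_ne_zero) |>.1 h2
    linarith
  refine Prod.ext h (Prod.ext (Fin.ext ?_) (by exact_mod_cast hyy))
  unfold kr at hkk
  exact_mod_cast hkk

theorem comb (A t : ℝ) (ht0 : 0 < t) (ht1 : t < 1) (u v w : R m)
    (hG : ∀ k, G A k v = (1 - t) * G A k u + t * G A k w) (hAu : (u.2.2 : ℝ) < A)
    (hAw : (w.2.2 : ℝ) < A) (hne : u ≠ w) : ∃ i, Ln i u v w ∨ Ln i w v u := by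
  have hn : u.1 ≠ w.1 := fun h => hne (comb_same A t ht0 ht1 u v w hG h)
  obtain ⟨i, hi⟩ := Function.ne_iff.1 hn
  have hdi : dr v.1 i = (1 - t) * dr u.1 i + t * dr w.1 i := by
    have := hG (Sum.inr (i, i))
    simpa [G] using this
  refine ⟨i, ?_⟩
  have hG' : ∀ k, G A k v = (1 - (1 - t)) * G A k w + (1 - t) * G A k u := by
    intro k; rw [hG k]; ring
  rcases dr_cases u.1 i with ⟨a1, a2⟩ | ⟨a1, a2⟩ | ⟨a1, a2⟩ <;>
    rcases dr_cases w.1 i with ⟨b1, b2⟩ | ⟨b1, b2⟩ | ⟨b1, b2⟩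
  · exact absurd (a1.trans b1.symm) hi
  · exfalso
    rw [a2, b2] at hdi
    rcases dr_cases v.1 i with ⟨_, h⟩ | ⟨_, h⟩ | ⟨_, h⟩ <;> linarith
  · left
    exact comb1 A t ht0 ht1 u v w hG hAu i a1 b1
  · exfalso
    rw [a2, b2] at hdi
    rcases dr_cases v.1 i with ⟨_, h⟩ | ⟨_, h⟩ | ⟨_, h⟩ <;> linarith
  · exact absurd (a1.trans b1.symm) hi
  · exfalso
    rw [a2, b2] at hdi
    rcases dr_cases v.1 i with ⟨_, h⟩ | ⟨_, h⟩ | ⟨_, h⟩ <;> linarith
  · right
    exact comb1 A (1 - t) (by linarith) (by linarith) w v u hG' hAw i b1 a1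
  · exfalso
    rw [a2, b2] at hdi
    rcases dr_cases v.1 i with ⟨_, h⟩ | ⟨_, h⟩ | ⟨_, h⟩ <;> linarith
  · exact absurd (a1.trans b1.symm) hi

theorem classify {A η ε : ℝ} {D : Finset (R m)} (hg : Good A η ε D)
    (hA : ∀ u ∈ D, (u.2.2 : ℝ) < A) {u v w : R m} (hu : u ∈ D) (hv : v ∈ D) (hw : w ∈ D)
    (hs : Sbtw ℝ (pt A η ε u) (pt A η ε v) (pt A η ε w)) : ∃ i, Ln i u v w ∨ Ln i w v u := by
  have huw : pt A η ε u ≠ pt A η ε w := hs.left_ne_right
  have hne : u ≠ w := fun h => huw (by rw [h])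
  have hX : X η w - X η u ≠ 0 := by
    intro h
    exact hne (hg.inj u hu w hw (by linarith))
  obtain ⟨t, ⟨ht0, ht1⟩, ht⟩ := hs.wbtw
  rw [AffineMap.lineMap_apply_module] at ht
  have hx := congrArg Prod.fst ht
  have hz := congrArg Prod.snd ht
  simp only [pt, Prod.fst_add, Prod.smul_fst, Prod.snd_add, Prod.smul_snd, smul_eq_mul] at hx hz
  have hlam : lam η u v w = t := by
    unfold lam
    rw [div_eq_iff hX]
    linarith
  have ht0' : t ≠ 0 := by
    rintro rfl
    apply hs.ne_left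
    rw [← ht]; simp
  have ht1' : t ≠ 1 := by
    rintro rfl
    apply hs.ne_right
    rw [← ht]; simp
  have hext := hg.ext u hu v hv w hw
  rw [hlam] at hext
  have hsum : ∑ k, (G A k v - ((1 - t) * G A k u + t * G A k w)) * ε ^ ix k = 0 := by
    have : ∑ k, (G A k v - ((1 - t) * G A k u + t * G A k w)) * ε ^ ix k
        = Z A ε v - ((1 - t) * Z A ε u + t * Z A ε w) := by
      unfold Z
      rw [Finset.mul_sum, Finset.mul_sum, ← Finset.sum_add_distrib, ← Finset.sum_sub_distrib]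
      refine Finset.sum_congr rfl (fun k _ => ?_)
      ring
    rw [this]; linarith
  have hall := hext hsum
  exact comb A t (lt_of_le_of_ne ht0 ht0'.symm) (lt_of_le_of_ne ht1 ht1') u v w
    (fun k => by linarith [hall k]) (hA u hu) (hA w hw) hne

end Pool.Agent.Helper745.HB
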