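import Mathlib
import Pool.Agent.Helper745.HB5
import Pool.Agent.Helper650.CT8

set_option autoImplicit false

namespace Pool.Agent.Helper745.HB

open Finset Filter Topology
open Pool.Agent.Helper650.CT (NoFourCollinear collinearTriples Adj HasSelfIntersectingPath lt_f)

variable {m : ℕ}

theorem pt_inj {A η ε : ℝ} {D : Finset (R m)} (hg : Good A η ε D) {u v : R m} (hu : u ∈ D)
    (hv : v ∈ D) (h : pt A η ε u = pt A η ε v) : u = v :=
  hg.inj u hu v hv (congrArg Prod.fst h)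

open Classical in
/-- the point set -/
noncomputable def PP (A η ε : ℝ) (D : Finset (R m)) : Finset (ℝ × ℝ) := D.image (pt A η ε)

theorem mem_PP {A η ε : ℝ} {D : Finset (R m)} {x : ℝ × ℝ} (h : x ∈ PP A η ε D) :
    ∃ u ∈ D, x = pt A η ε u := by
  classical
  unfold PP at h
  obtain ⟨u, hu, rfl⟩ := Finset.mem_image.1 h
  exact ⟨u, hu, rfl⟩

theorem pt_mem {A η ε : ℝ} {D : Finset (R m)} {u : R m} (h : u ∈ D) :
    pt A η ε u ∈ PP A η ε D := by
  classical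
  unfold PP
  exact Finset.mem_image_of_mem _ h

theorem three_distinct {A η ε : ℝ} {D : Finset (R m)} (hg : Good A η ε D)
    (hA : ∀ u ∈ D, (u.2.2 : ℝ) < A) {u v w : R m} (hu : u ∈ D) (hv : v ∈ D) (hw : w ∈ D)
    (h12 : pt A η ε u ≠ pt A η ε v) (h13 : pt A η ε u ≠ pt A η ε w)
    (h23 : pt A η ε v ≠ pt A η ε w)
    (h : Collinear ℝ ({pt A η ε u, pt A η ε v, pt A η ε w} : Set (ℝ × ℝ))) : u.2.1 ≠ v.2.1 := by
  rcases h.wbtw_or_wbtw_or_wbtw with h1 | h1 | h1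
  · obtain ⟨i, a | a⟩ := classify hg hA hu hv hw ⟨h1, h12.symm, h23⟩
    · obtain ⟨_, a2, _, a4, _, a6, _⟩ := a
      rw [a2, a4]; decide
    · obtain ⟨_, a2, _, a4, _, a6, _⟩ := a
      rw [a6, a4]; decide
  · obtain ⟨i, a | a⟩ := classify hg hA hv hw hu ⟨h1, h23.symm, h13.symm⟩
    · obtain ⟨_, a2, _, a4, _, a6, _⟩ := a
      rw [a2, a6]; decide
    · obtain ⟨_, a2, _, a4, _, a6, _⟩ := a
      rw [a2, a6]; decide
  · obtain ⟨i, a | a⟩ := classify hg hA hw hu hv ⟨h1, h13, h12⟩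
    · obtain ⟨_, a2, _, a4, _, a6, _⟩ := a
      rw [a4, a6]; decide
    · obtain ⟨_, a2, _, a4, _, a6, _⟩ := a
      rw [a4, a2]; decide

theorem no_four {A η ε : ℝ} {D : Finset (R m)} (hg : Good A η ε D)
    (hA : ∀ u ∈ D, (u.2.2 : ℝ) < A) : NoFourCollinear (PP A η ε D) := by
  classical
  intro S hS hcard hcol
  have hP : ∀ x ∈ PP A η ε D, ∃ u : R m, u ∈ D ∧ x = pt A η ε u := fun x hx => by
    obtain ⟨u, hu, h⟩ := mem_PP hx
    exact ⟨u, hu, h⟩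
  choose! g hg' using hP
  have hinj : Set.InjOn (fun x => (g x).2.1) (S : Set (ℝ × ℝ)) := by
    intro x hx y hy hxy
    by_contra hne
    have hx' : x ∈ S := hx
    have hy' : y ∈ S := hy
    obtain ⟨z, hz⟩ : ((S.erase x).erase y).Nonempty := by
      rw [← Finset.card_pos, Finset.card_erase_of_mem (Finset.mem_erase.2 ⟨Ne.symm hne, hy'⟩),
        Finset.card_erase_of_mem hx', hcard]
      norm_num
    rw [Finset.mem_erase, Finset.mem_erase] at hz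
    obtain ⟨hzy, hzx, hzS⟩ := hz
    obtain ⟨vx, ex⟩ := hg' x (hS hx')
    obtain ⟨vy, ey⟩ := hg' y (hS hy')
    obtain ⟨vz, ez⟩ := hg' z (hS hzS)
    refine three_distinct hg hA vx vy vz ?_ ?_ ?_ ?_ hxy
    · rw [← ex, ← ey]; exact hne
    · rw [← ex, ← ez]; exact Ne.symm hzx
    · rw [← ey, ← ez]; exact Ne.symm hzy
    · rw [← ex, ← ey, ← ez]
      refine hcol.subset ?_
      intro u hu
      simp only [Set.mem_insert_iff, Set.mem_singleton_iff] at hu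
      rcases hu with rfl | rfl | rfl <;> assumption
  have h1 : (S.image (fun x => (g x).2.1)).card = S.card := Finset.card_image_of_injOn hinj
  have h2 : (S.image (fun x => (g x).2.1)).card ≤ Fintype.card (Fin 3) := Finset.card_le_univ _
  rw [Fintype.card_fin] at h2
  omega

/-- geometric edge from the middle point `x` to the outer point `y` -/
def E (A η ε : ℝ) (D : Finset (R m)) (x y : ℝ × ℝ) : Prop :=
  ∃ b ∈ D, ∃ o ∈ D, ∃ (s : Bool) (i : Fin m), Ed s i b o ∧ x = pt A η ε b ∧ y = pt A η ε o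

theorem adj_E {A η ε : ℝ} {D : Finset (R m)} (hg : Good A η ε D)
    (hA : ∀ u ∈ D, (u.2.2 : ℝ) < A) {x y : ℝ × ℝ} (h : Adj (PP A η ε D) x y) :
    E A η ε D x y ∨ E A η ε D y x := by
  obtain ⟨a, ha, b, hb, c, hc, hs, hxy⟩ := h
  obtain ⟨u, hu, rfl⟩ := mem_PP ha
  obtain ⟨v, hv, rfl⟩ := mem_PP hb
  obtain ⟨w, hw, rfl⟩ := mem_PP hc
  obtain ⟨i, hcl⟩ := classify hg hA hu hv hw hs
  have key : E A η ε D (pt A η ε v) (pt A η ε u) ∧ E A η ε D (pt A η ε v) (pt A η ε w) := by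
    rcases hcl with h | h
    · exact ⟨⟨v, hv, u, hu, false, i, ⟨w, by simpa using h⟩, rfl, rfl⟩,
        ⟨v, hv, w, hw, true, i, ⟨u, by simpa using h⟩, rfl, rfl⟩⟩
    · exact ⟨⟨v, hv, u, hu, true, i, ⟨w, by simpa using h⟩, rfl, rfl⟩,
        ⟨v, hv, w, hw, false, i, ⟨u, by simpa using h⟩, rfl, rfl⟩⟩
  rcases hxy with ⟨rfl, rfl⟩ | ⟨rfl, rfl⟩ | ⟨rfl, rfl⟩ | ⟨rfl, rfl⟩
  · right; exact key.1
  · left; exact key.1
  · left; exact key.2
  · right; exact key.2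

theorem E_not {A η ε : ℝ} {D : Finset (R m)} (hg : Good A η ε D) {x y z : ℝ × ℝ}
    (h1 : E A η ε D x y) (h2 : E A η ε D y z) : False := by
  obtain ⟨b, hb, o, ho, s, i, he, rfl, hy⟩ := h1
  obtain ⟨b', hb', o', ho', s', i', he', hy', hz⟩ := h2
  have := pt_inj hg ho hb' (hy.symm.trans hy')
  subst this
  have h3 := he.cls.2
  rw [he'.cls.1] at h3
  cases s <;> simp at h3

theorem no_cross {A η ε : ℝ} {D : Finset (R m)} (hg : Good A η ε D) {x1 x2 x3 x4 : ℝ × ℝ}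
    (h13 : x1 ≠ x3) (h24 : x2 ≠ x4) (h1 : E A η ε D x2 x1) (h2 : E A η ε D x2 x3)
    (h3 : E A η ε D x4 x3) : ¬ (segment ℝ x1 x2 ∩ segment ℝ x3 x4).Nonempty := by
  obtain ⟨b, hb, o1, ho1, s1, j, e1, rfl, rfl⟩ := h1
  obtain ⟨b0, hb0, o2, ho2, s2, i, e2, hbb, rfl⟩ := h2
  obtain ⟨b', hb', o3, ho3, s3, k, e3, rfl, hoo⟩ := h3
  have := pt_inj hg hb hb0 hbb
  subst this
  have := pt_inj hg ho2 ho3 hoo
  subst this
  have hq : Quad o1 b o2 b' :=
    ⟨⟨s1, s2, s3, i, j, k, e1, e2, e3⟩, fun h => h13 (by rw [h]), fun h => h24 (by rw [h])⟩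
  have hf := hg.free o1 ho1 b hb o2 ho2 b' hb' hq
  rintro ⟨p, hp1, hp2⟩
  rw [segment_eq_image] at hp1 hp2
  obtain ⟨s, hs01, hs⟩ := hp1
  obtain ⟨r, hr01, hr⟩ := hp2
  exact hf (s, r) ⟨hs01, hr01⟩ (hs.trans hr.symm)

theorem no_path {A η ε : ℝ} {D : Finset (R m)} (hg : Good A η ε D)
    (hA : ∀ u ∈ D, (u.2.2 : ℝ) < A) : ¬ HasSelfIntersectingPath (PP A η ε D) := by
  rintro ⟨x1, x2, x3, x4, h12, h13, h14, h23, h24, h34, a1, a2, a3, hx⟩
  rcases adj_E hg hA a1 with e1 | e1 <;> rcases adj_E hg hA a2 with e2 | e2 <;>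
    rcases adj_E hg hA a3 with e3 | e3
  · exact E_not hg e1 e2
  · exact E_not hg e1 e2
  · rw [Set.inter_comm, segment_symm ℝ x1, segment_symm ℝ x3] at hx
    exact no_cross hg h24.symm h13.symm e3 e2 e1 hx
  · exact E_not hg e3 e2
  · exact E_not hg e2 e3
  · exact no_cross hg h13 h24 e1 e2 e3 hx
  · exact E_not hg e2 e1
  · exact E_not hg e2 e1

end Pool.Agent.Helper745.HB
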