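import Mathlib
import Pool.Agent.Helper745.HB6

set_option autoImplicit false

namespace Pool.Agent.Helper745.HB

open Finset Filter Topology
open Pool.Agent.Helper650.CT (NoFourCollinear collinearTriples Adj HasSelfIntersectingPath lt_f)

variable {m : ℕ}

/-- the data set -/
def DD (m Y : ℕ) : Finset (R m) :=
  (Finset.univ : Finset (Dg m)) ×ˢ ((Finset.univ : Finset (Fin 3)) ×ˢ Finset.range Y)

theorem mem_DD {Y : ℕ} {u : R m} : u ∈ DD m Y ↔ u.2.2 < Y := by
  simp [DD]

theorem card_DD (m Y : ℕ) : (DD m Y).card = 3 ^ m * (3 * Y) := by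
  unfold DD
  rw [Finset.card_product, Finset.card_product, Finset.card_range, Finset.card_univ,
    Finset.card_univ, Fintype.card_fun, Fintype.card_fin, Fintype.card_fin]

/-- first point of a line -/
def uu (n : Dg m) (y : ℕ) : R m := (n, 0, y)
/-- middle point of a line -/
def vv (i : Fin m) (n : Dg m) (y : ℕ) : R m := (Function.update n i 1, 1, y + dl i n)
/-- last point of a line -/
def ww (i : Fin m) (n : Dg m) (y : ℕ) : R m := (Function.update n i 2, 2, y + 2 * dl i n)

theorem Ln_std (i : Fin m) (n : Dg m) (y : ℕ) (h : n i = 0) :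
    Ln i (uu n y) (vv i n y) (ww i n y) := ⟨h, rfl, rfl, rfl, rfl, rfl, rfl, rfl⟩

open Classical in
/-- the designed triple -/
noncomputable def TT (A η ε : ℝ) (i : Fin m) (n : Dg m) (y : ℕ) : Finset (ℝ × ℝ) :=
  {pt A η ε (uu n y), pt A η ε (vv i n y), pt A η ε (ww i n y)}

theorem TT_mem {A η ε : ℝ} {Y : ℕ} (hg : Good A η ε (DD m Y)) (i : Fin m) (n : Dg m) (y : ℕ)
    (h : n i = 0) (hy : y + 2 * dl i n < Y) :
    TT A η ε i n y ∈ collinearTriples (PP A η ε (DD m Y)) := by
  classical
  have hu : uu n y ∈ DD m Y := mem_DD.2 (by simp only [uu]; omega)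
  have hv : vv i n y ∈ DD m Y := mem_DD.2 (by simp only [vv]; omega)
  have hw : ww i n y ∈ DD m Y := mem_DD.2 (by simp only [ww]; omega)
  have n12 : pt A η ε (uu n y) ≠ pt A η ε (vv i n y) := fun h => by
    have := congrArg (fun u : R m => u.2.1) (pt_inj hg hu hv h)
    simp [uu, vv] at this
  have n13 : pt A η ε (uu n y) ≠ pt A η ε (ww i n y) := fun h => by
    have := congrArg (fun u : R m => u.2.1) (pt_inj hg hu hw h)
    simp [uu, ww] at this
  have n23 : pt A η ε (vv i n y) ≠ pt A η ε (ww i n y) := fun h => by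
    have := congrArg (fun u : R m => u.2.1) (pt_inj hg hv hw h)
    simp [vv, ww] at this
  unfold collinearTriples
  rw [Finset.mem_filter, Finset.mem_powersetCard]
  refine ⟨⟨?_, ?_⟩, ?_⟩
  · intro x hx
    simp only [TT, Finset.mem_insert, Finset.mem_singleton] at hx
    rcases hx with rfl | rfl | rfl
    · exact pt_mem hu
    · exact pt_mem hv
    · exact pt_mem hw
  · unfold TT
    rw [Finset.card_insert_of_notMem, Finset.card_insert_of_notMem, Finset.card_singleton]
    · simpa using n23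
    · simp only [Finset.mem_insert, Finset.mem_singleton, not_or]
      exact ⟨n12, n13⟩
  · have hmid := (Ln_std i n y h).pt_mid A η ε
    rw [collinear_iff_of_mem (p₀ := pt A η ε (vv i n y)) (by simp [TT])]
    refine ⟨pt A η ε (uu n y) - pt A η ε (vv i n y), ?_⟩
    intro p hp
    simp only [TT, Finset.coe_insert, Finset.coe_singleton, Set.mem_insert_iff,
      Set.mem_singleton_iff] at hp
    rcases hp with rfl | rfl | rfl
    · exact ⟨1, by rw [one_smul, vadd_eq_add, sub_add_cancel]⟩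
    · exact ⟨0, by simp⟩
    · refine ⟨-1, ?_⟩
      rw [two_smul] at hmid
      rw [vadd_eq_add, neg_one_smul]
      have : pt A η ε (ww i n y) = pt A η ε (vv i n y) + pt A η ε (vv i n y)
          - pt A η ε (uu n y) := by
        rw [← hmid]; abel
      rw [this]; abel

theorem TT_inj {A η ε : ℝ} {Y : ℕ} (hg : Good A η ε (DD m Y)) (i i' : Fin m) (n n' : Dg m)
    (y y' : ℕ) (hn : n i = 0) (hy : y + 2 * dl i n < Y)
    (hy' : y' + 2 * dl i' n' < Y)
    (h : TT A η ε i n y = TT A η ε i' n' y') : i = i' ∧ n = n' ∧ y = y' := by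
  classical
  have hu : uu n y ∈ DD m Y := mem_DD.2 (by simp only [uu]; omega)
  have hv : vv i n y ∈ DD m Y := mem_DD.2 (by simp only [vv]; omega)
  have hu' : uu n' y' ∈ DD m Y := mem_DD.2 (by simp only [uu]; omega)
  have hv' : vv i' n' y' ∈ DD m Y := mem_DD.2 (by simp only [vv]; omega)
  have hw' : ww i' n' y' ∈ DD m Y := mem_DD.2 (by simp only [ww]; omega)
  have h1 : pt A η ε (uu n y) ∈ TT A η ε i' n' y' := by rw [← h]; simp [TT]
  have h2 : pt A η ε (vv i n y) ∈ TT A η ε i' n' y' := by rw [← h]; simp [TT]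
  simp only [TT, Finset.mem_insert, Finset.mem_singleton] at h1 h2
  have h3 : n = n' ∧ y = y' := by
    rcases h1 with h1 | h1 | h1
    · have := pt_inj hg hu hu' h1
      simp only [uu, Prod.mk.injEq] at this
      exact ⟨this.1, this.2.2⟩
    · have := congrArg (fun u : R m => u.2.1) (pt_inj hg hu hv' h1)
      simp [uu, vv] at this
    · have := congrArg (fun u : R m => u.2.1) (pt_inj hg hu hw' h1)
      simp [uu, ww] at this
  refine ⟨?_, h3⟩
  rcases h2 with h2 | h2 | h2
  · have := congrArg (fun u : R m => u.2.1) (pt_inj hg hv hu' h2)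
    simp [uu, vv] at this
  · have := congrArg (fun u : R m => u.1 i) (pt_inj hg hv hv' h2)
    by_contra hne
    simp only [vv, Function.update_self, Function.update_of_ne hne] at this
    rw [← h3.1, hn] at this
    exact absurd this (by decide)
  · have := congrArg (fun u : R m => u.2.1) (pt_inj hg hv hw' h2)
    simp [vv, ww] at this

theorem dl_le (i : Fin m) (n : Dg m) : 2 * dl i n ≤ 8 * 32 ^ m := by
  have hT : ∀ j : Fin m, T j ≤ 2 ^ m := fun j => by
    unfold T; exact Nat.pow_le_pow_right (by norm_num) (by omega)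
  have hq : ∀ n' : Dg m, q n' ≤ 4 ^ m := fun n' => by
    unfold q
    calc ∑ j, (if n' j = 1 then T j else 0) ≤ ∑ _j : Fin m, 2 ^ m := by
          refine Finset.sum_le_sum (fun j _ => ?_)
          split_ifs
          · exact hT j
          · exact Nat.zero_le _
      _ = m * 2 ^ m := by simp
      _ ≤ 2 ^ m * 2 ^ m := Nat.mul_le_mul_right _ (Nat.lt_two_pow_self).le
      _ = 4 ^ m := by rw [← mul_pow]; norm_num
  have h8 : 8 ^ (i : ℕ) ≤ 8 ^ m := Nat.pow_le_pow_right (by norm_num) i.2.le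
  have h24 : 2 ^ m ≤ 4 ^ m := Nat.pow_le_pow_left (by norm_num) m
  unfold dl
  have h1 : 2 * T i + q (Function.update n i 0) ≤ 3 * 4 ^ m := by
    have := hT i
    have := hq (Function.update n i 0)
    omega
  have h2 : 8 ^ (i : ℕ) * (2 * T i + q (Function.update n i 0)) ≤ 8 ^ m * (3 * 4 ^ m) :=
    Nat.mul_le_mul h8 h1
  have h3 : 8 ^ m * (3 * 4 ^ m) = 3 * 32 ^ m := by
    rw [show (32 : ℕ) = 8 * 4 by norm_num, mul_pow]; ring
  omega

theorem card_pi (i : Fin m) :
    (Fintype.piFinset (fun j : Fin m => if j = i then ({0} : Finset (Fin 3)) else Finset.univ)).card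
      = 3 ^ (m - 1) := by
  rw [Fintype.card_piFinset]
  have : ∀ j : Fin m, (if j = i then ({0} : Finset (Fin 3)) else (Finset.univ)).card
      = if j = i then 1 else 3 := by
    intro j; split_ifs <;> simp
  simp only [this]
  rw [← Finset.mul_prod_erase Finset.univ _ (Finset.mem_univ i), if_pos rfl, one_mul]
  rw [Finset.prod_congr rfl (g := fun _ => 3)]
  · rw [Finset.prod_const, Finset.card_erase_of_mem (Finset.mem_univ i)]
    simp
  · intro j hj
    rw [if_neg (Finset.ne_of_mem_erase hj)]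

theorem main_exists (m : ℕ) : ∃ P : Finset (ℝ × ℝ),
    P.card ≤ 48 * 96 ^ m ∧ NoFourCollinear P ∧ ¬ HasSelfIntersectingPath P ∧
      m * (3 ^ (m - 1) * (8 * 32 ^ m)) ≤ (collinearTriples P).card := by
  classical
  obtain ⟨H, hH⟩ : ∃ H : ℕ, H = 8 * 32 ^ m := ⟨_, rfl⟩
  obtain ⟨Y, hY⟩ : ∃ Y : ℕ, Y = 2 * H := ⟨_, rfl⟩
  obtain ⟨η, ε, hg⟩ := exists_good (Y : ℝ) (DD m Y)
  have hA : ∀ u ∈ DD m Y, (u.2.2 : ℝ) < (Y : ℝ) := fun u hu => by
    exact_mod_cast mem_DD.1 hu
  refine ⟨PP (Y : ℝ) η ε (DD m Y), ?_, no_four hg hA, no_path hg hA, ?_⟩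
  · refine (Finset.card_image_le).trans ?_
    rw [card_DD, hY, hH]
    rw [show (96 : ℕ) = 3 * 32 by norm_num, mul_pow]
    apply le_of_eq; ring
  · rw [← hH]
    let I : Finset (Σ _i : Fin m, (Dg m × ℕ)) :=
      (Finset.univ : Finset (Fin m)).sigma (fun i =>
        (Fintype.piFinset (fun j : Fin m => if j = i then ({0} : Finset (Fin 3)) else Finset.univ))
          ×ˢ Finset.range H)
    have hI : I.card = m * (3 ^ (m - 1) * H) := by
      simp only [I]
      rw [Finset.card_sigma]
      simp only [Finset.card_product, card_pi, Finset.card_range]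
      simp
    rw [← hI]
    have hmem : ∀ z ∈ I, z.2.1 z.1 = 0 ∧ z.2.2 + 2 * dl z.1 z.2.1 < Y := by
      intro z hz
      simp only [I, Finset.mem_sigma, Finset.mem_univ, true_and, Finset.mem_product,
        Fintype.mem_piFinset, Finset.mem_range] at hz
      have h1 := hz.1 z.1
      rw [if_pos rfl, Finset.mem_singleton] at h1
      refine ⟨h1, ?_⟩
      have h2 := dl_le z.1 z.2.1
      rw [← hH] at h2
      omega
    refine Finset.card_le_card_of_injOn (fun z => TT (Y : ℝ) η ε z.1 z.2.1 z.2.2) ?_ ?_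
    · intro z hz
      obtain ⟨h1, h2⟩ := hmem z hz
      exact TT_mem hg z.1 z.2.1 z.2.2 h1 h2
    · rintro ⟨i, n, y⟩ hz ⟨i', n', y'⟩ hz' h
      obtain ⟨h1, h2⟩ := hmem _ hz
      obtain ⟨h1', h2'⟩ := hmem _ hz'
      obtain ⟨a, b, c⟩ := TT_inj hg i i' n n' y y' h1 h2 h2' h
      subst a; subst b; subst c; rfl

end Pool.Agent.Helper745.HB
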