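import Mathlib
import Pool.Agent.Helper745.HB7
import Pool.Agent.Helper650.CT9
import Pool.Agent.Helper650.UB5

set_option autoImplicit false

namespace Pool.Agent.Helper745.HB

open Finset Filter Topology
open Pool.Agent.Helper650.CT (NoFourCollinear collinearTriples Adj HasSelfIntersectingPath lt_f f
  tendsto_l)

/-- finite form of the lower bound -/
theorem finite_form (n t : ℕ) (h : 96 ^ (t + 2) ≤ n) : (t + 1) * (256 * 96 ^ t) < f n := by
  obtain ⟨P, h1, h2, h3, h4⟩ := main_exists (t + 1)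
  have h5 : P.card ≤ n := by
    refine h1.trans (le_trans ?_ h)
    have : 96 ^ (t + 2) = 96 * 96 ^ (t + 1) := by rw [pow_succ]; ring
    rw [this]
    exact Nat.mul_le_mul_right _ (by norm_num)
  have h6 := lt_f n P h5 h2 h3
  refine lt_of_eq_of_lt ?_ (lt_of_le_of_lt h4 h6)
  rw [Nat.add_sub_cancel, show (96 : ℕ) = 3 * 32 by norm_num, mul_pow, pow_succ]
  ring

theorem log96 : Real.log 96 ≤ 5 := by
  have h1 : (96 : ℝ) ≤ Real.exp 5 := by
    have h2 : Real.exp 5 = Real.exp 1 ^ 5 := by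
      rw [← Real.exp_nat_mul]; norm_num
    have h3 : (2.7 : ℝ) ≤ Real.exp 1 := by
      have := Real.exp_one_gt_d9; linarith
    calc (96 : ℝ) ≤ 2.7 ^ 5 := by norm_num
      _ ≤ Real.exp 1 ^ 5 := pow_le_pow_left₀ (by norm_num) h3 5
      _ = Real.exp 5 := h2.symm
  calc Real.log 96 ≤ Real.log (Real.exp 5) := Real.log_le_log (by norm_num) h1
    _ = 5 := Real.log_exp 5

theorem lower_aux (n : ℕ) (hl : 20 ≤ Real.log n) :
    (1 / 40000) * (n : ℝ) * Real.log n + 1 ≤ f n := by
  have hn0 : 0 < n := by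
    rcases Nat.eq_zero_or_pos n with h | h
    · subst h; simp at hl; linarith
    · exact h
  have hnR : (0 : ℝ) < n := by exact_mod_cast hn0
  obtain ⟨k, hk⟩ : ∃ k, k = Nat.log 96 n := ⟨_, rfl⟩
  have h1 : 96 ^ k ≤ n := by rw [hk]; exact Nat.pow_log_le_self 96 hn0.ne'
  have h2 : n < 96 ^ (k + 1) := by rw [hk]; exact Nat.lt_pow_succ_log_self (by norm_num) n
  have h3 : Real.log n < (k + 1) * 5 := by
    have h4 : Real.log n < Real.log ((96 : ℝ) ^ (k + 1)) :=
      Real.log_lt_log hnR (by exact_mod_cast h2)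
    rw [Real.log_pow] at h4
    have h5 := mul_le_mul_of_nonneg_left log96 (show (0 : ℝ) ≤ ((k + 1 : ℕ) : ℝ) from
      Nat.cast_nonneg _)
    push_cast at h4 h5
    linarith
  have hk3 : 3 ≤ k := by
    have : (3 : ℝ) < (k : ℝ) + 1 := by linarith
    have : 3 < k + 1 := by exact_mod_cast this
    omega
  obtain ⟨t, rfl⟩ : ∃ t, k = t + 2 := ⟨k - 2, by omega⟩
  have h6 := finite_form n t h1
  have h7 : (t + 1) * (256 * 96 ^ t) + 1 ≤ f n := h6
  have h8 : ((t : ℝ) + 1) * (256 * 96 ^ t) + 1 ≤ f n := by exact_mod_cast h7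
  have h9 : (n : ℝ) ≤ 884736 * 96 ^ t := by
    have h10 : (n : ℝ) ≤ 96 ^ (t + 2 + 1) := by exact_mod_cast h2.le
    have h11 : (96 : ℝ) ^ (t + 2 + 1) = 884736 * 96 ^ t := by
      rw [pow_succ, pow_succ, pow_succ]; ring
    linarith
  have h12 : Real.log n / 10 ≤ (t : ℝ) + 1 := by
    push_cast at h3
    linarith
  have hp : (0 : ℝ) < 96 ^ t := by positivity
  have h13 : (n : ℝ) * (Real.log n / 10) ≤ (884736 * 96 ^ t) * ((t : ℝ) + 1) :=
    mul_le_mul h9 h12 (by linarith) (by positivity)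
  have h14 : (0 : ℝ) ≤ n * Real.log n := mul_nonneg hnR.le (by linarith)
  linarith

theorem lower : ∀ᶠ n : ℕ in atTop, (1 / 40000) * (n : ℝ) * Real.log n + 1 ≤ f n := by
  filter_upwards [tendsto_l.eventually_ge_atTop 20] with n h1
  exact lower_aux n h1

theorem lower' : ∀ᶠ n : ℕ in atTop, (1 / 40000) * (n : ℝ) * Real.log n ≤ f n := by
  filter_upwards [lower] with n h1
  linarith

theorem theta : (fun n : ℕ => (f n : ℝ)) =Θ[atTop] (fun n : ℕ => (n : ℝ) * Real.log n) := by
  constructor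
  · refine Asymptotics.IsBigO.of_bound 73 ?_
    filter_upwards [Pool.Agent.Helper650.UB.upper, tendsto_l.eventually_ge_atTop 1] with n h1 h2
    have h3 : (0 : ℝ) ≤ (n : ℝ) * Real.log n := mul_nonneg (Nat.cast_nonneg _) (by linarith)
    rw [Real.norm_of_nonneg (Nat.cast_nonneg _), Real.norm_of_nonneg h3]
    linarith
  · refine Asymptotics.IsBigO.of_bound 40000 ?_
    filter_upwards [lower', tendsto_l.eventually_ge_atTop 1] with n h1 h2
    have h3 : (0 : ℝ) ≤ (n : ℝ) * Real.log n := mul_nonneg (Nat.cast_nonneg _) (by linarith)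
    rw [Real.norm_of_nonneg (Nat.cast_nonneg _), Real.norm_of_nonneg h3]
    linarith

/-- below `f n` there is a configuration without self-intersecting path -/
theorem exists_of_lt_f (n : ℕ) (h : 1 ≤ f n) : ∃ P : Finset (ℝ × ℝ), P.card = n ∧
    NoFourCollinear P ∧ ¬ HasSelfIntersectingPath P ∧ f n ≤ (collinearTriples P).card + 1 := by
  have h1 : f n - 1 ∉ {m : ℕ | ∀ P : Finset (ℝ × ℝ), P.card = n → NoFourCollinear P →
      m ≤ (collinearTriples P).card → HasSelfIntersectingPath P} := by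
    apply Nat.notMem_of_lt_sInf
    change f n - 1 < f n
    omega
  simp only [Set.mem_ofPred_eq, not_forall] at h1
  obtain ⟨P, h2, h3, h4, h5⟩ := h1
  exact ⟨P, h2, h3, h5, by omega⟩

theorem config : ∀ᶠ n : ℕ in atTop, ∃ P : Finset (ℝ × ℝ), P.card = n ∧
    NoFourCollinear P ∧ ¬ HasSelfIntersectingPath P ∧
      (1 / 40000) * (n : ℝ) * Real.log n ≤ (collinearTriples P).card := by
  filter_upwards [lower, tendsto_l.eventually_ge_atTop 1] with n h1 h2
  have h3 : (0 : ℝ) ≤ (n : ℝ) * Real.log n := mul_nonneg (Nat.cast_nonneg _) (by linarith)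
  have h4 : (1 : ℝ) ≤ f n := by linarith
  obtain ⟨P, p1, p2, p3, p4⟩ := exists_of_lt_f n (by exact_mod_cast h4)
  refine ⟨P, p1, p2, p3, ?_⟩
  have p4' : (f n : ℝ) ≤ (collinearTriples P).card + 1 := by exact_mod_cast p4
  linarith

end Pool.Agent.Helper745.HB
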