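import Mathlib

set_option autoImplicit false

namespace Pool.Agent.Helper745.Mst

open SimpleGraph

variable {V : Type*} [Fintype V] [DecidableEq V]

omit [Fintype V] [DecidableEq V] in
theorem trail_split {S : SimpleGraph V} {u v : V} (p : S.Walk u v) (hp : p.IsTrail)
    (d : S.Dart) (hd : d ∈ p.darts) :
    (S.deleteEdges {d.edge}).Reachable u d.fst ∧ (S.deleteEdges {d.edge}).Reachable d.snd v := by
  induction p with
  | nil => simp at hd
  | @cons a b c h q ih =>
    rw [Walk.isTrail_cons] at hp
    rw [Walk.darts_cons, List.mem_cons] at hd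
    rcases hd with hd | hd
    · subst hd
      refine ⟨Reachable.refl _, ?_⟩
      refine ⟨q.toDeleteEdges _ ?_⟩
      intro e he he2
      simp only [Set.mem_singleton_iff] at he2
      subst he2
      exact hp.2 he
    · obtain ⟨h1, h2⟩ := ih hp.1 hd
      refine ⟨?_, h2⟩
      refine Reachable.trans (Adj.reachable ?_) h1
      rw [deleteEdges_adj]
      refine ⟨h, ?_⟩
      simp only [Set.mem_singleton_iff]
      intro he
      apply hp.2
      rw [he]
      exact List.mem_map_of_mem hd

/-- Cut criterion for minimum spanning trees. -/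
theorem mst_of_cut (T : SimpleGraph V) (hT : T.IsTree) (w : Sym2 V → ℝ)
    (hcut : ∀ e ∈ T.edgeSet, ∃ A : Set V,
      (∀ x y, T.Adj x y → x ∈ A → y ∉ A → s(x, y) = e) ∧
      (∃ a b, e = s(a, b) ∧ a ∈ A ∧ b ∉ A) ∧
      (∀ x y, x ∈ A → y ∉ A → w e ≤ w s(x, y)))
    [Fintype T.edgeSet] :
    ∀ (k : ℕ) (S : SimpleGraph V) [Fintype S.edgeSet], S.IsTree →
      (T.edgeFinset \ S.edgeFinset).card = k →
      ∑ e ∈ T.edgeFinset, w e ≤ ∑ e ∈ S.edgeFinset, w e := by
  classical
  intro k
  induction k with
  | zero =>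
    intro S _ hS hk
    rw [Finset.card_eq_zero, Finset.sdiff_eq_empty_iff_subset] at hk
    have h1 := hT.card_edgeFinset
    have h2 := hS.card_edgeFinset
    have : T.edgeFinset = S.edgeFinset := Finset.eq_of_subset_of_card_le hk (by omega)
    rw [this]
  | succ k ih =>
    intro S _ hS hk
    have hne : (T.edgeFinset \ S.edgeFinset).Nonempty := by
      rw [← Finset.card_pos]; omega
    obtain ⟨e, he⟩ := hne
    rw [Finset.mem_sdiff, mem_edgeFinset, mem_edgeFinset] at he
    obtain ⟨heT, heS⟩ := he
    obtain ⟨A, hA1, ⟨a, b, hab, haA, hbA⟩, hA3⟩ := hcut e heT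
    obtain ⟨p, hp⟩ := hS.connected.exists_isPath a b
    obtain ⟨d, hd, hd1, hd2⟩ := p.exists_boundary_dart A haA hbA
    set f : Sym2 V := d.edge with hf
    have hfS : f ∈ S.edgeSet := d.edge_mem
    have hfe : f ≠ e := by
      intro h; rw [h] at hfS; exact heS hfS
    have hfT : f ∉ T.edgeSet := by
      intro h
      have hadj : T.Adj d.fst d.snd := by
        rw [← mem_edgeSet]; exact h
      exact hfe (hA1 _ _ hadj hd1 hd2)
    obtain ⟨hr1, hr2⟩ := trail_split p hp.isTrail d hd
    have hne_ab : a ≠ b := by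
      intro h; rw [h] at haA; exact hbA haA
    let S' : SimpleGraph V := fromEdgeSet ((S.edgeSet \ {f}) ∪ {e})
    have hle : S.deleteEdges {f} ≤ S' := by
      intro x y hxy
      rw [deleteEdges_adj] at hxy
      rw [fromEdgeSet_adj]
      exact ⟨Or.inl ⟨hxy.1, hxy.2⟩, hxy.1.ne⟩
    have habS' : S'.Adj a b := by
      rw [fromEdgeSet_adj]
      exact ⟨Or.inr hab.symm, hne_ab⟩
    have hxy' : S'.Reachable d.fst d.snd :=
      ((hr1.mono hle).symm.trans habS'.reachable).trans (hr2.mono hle).symm
    have hstep : ∀ u v, S.Adj u v → S'.Reachable u v := by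
      intro u v huv
      by_cases h : s(u, v) = f
      · have h' : s(u, v) = s(d.fst, d.snd) := h
        rw [Sym2.eq_iff] at h'
        rcases h' with ⟨h1, h2⟩ | ⟨h1, h2⟩
        · rw [h1, h2]; exact hxy'
        · rw [h1, h2]; exact hxy'.symm
      · apply Adj.reachable
        rw [fromEdgeSet_adj]
        exact ⟨Or.inl ⟨huv, h⟩, huv.ne⟩
    have hwalk : ∀ u v, S.Walk u v → S'.Reachable u v := by
      intro u v q
      induction q with
      | nil => exact Reachable.refl _
      | cons h _ ih2 => exact (hstep _ _ h).trans ih2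
    have hconn : S'.Connected := by
      have := hS.connected.nonempty
      refine ⟨fun u v => ?_⟩
      obtain ⟨q⟩ := hS.connected u v
      exact hwalk u v q
    have heset : S'.edgeFinset = (S.edgeFinset.erase f) ∪ {e} := by
      ext z
      rw [mem_edgeFinset, edgeSet_fromEdgeSet]
      simp only [Set.mem_sdiff, Set.mem_union, Set.mem_singleton_iff, Finset.mem_union,
        Finset.mem_erase, mem_edgeFinset, Finset.mem_singleton, Sym2.mem_diagSet]
      constructor
      · rintro ⟨(⟨h1, h2⟩ | h1), _⟩
        · exact Or.inl ⟨h2, h1⟩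
        · exact Or.inr h1
      · rintro (⟨h1, h2⟩ | h1)
        · exact ⟨Or.inl ⟨h2, h1⟩, S.not_isDiag_of_mem_edgeSet h2⟩
        · refine ⟨Or.inr h1, ?_⟩
          rw [h1]; exact T.not_isDiag_of_mem_edgeSet heT
    have heS2 : e ∉ S.edgeFinset := by rw [mem_edgeFinset]; exact heS
    have hfS2 : f ∈ S.edgeFinset := by rw [mem_edgeFinset]; exact hfS
    have hdisj : Disjoint (S.edgeFinset.erase f) {e} := by
      rw [Finset.disjoint_singleton_right]
      intro h
      exact heS2 (Finset.mem_of_mem_erase h)
    have hcard : S'.edgeFinset.card = S.edgeFinset.card := by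
      rw [heset, Finset.card_union_of_disjoint hdisj, Finset.card_erase_of_mem hfS2,
        Finset.card_singleton]
      have : 0 < S.edgeFinset.card := Finset.card_pos.mpr ⟨f, hfS2⟩
      omega
    have hS' : S'.IsTree := by
      rw [isTree_iff_connected_and_card]
      refine ⟨hconn, ?_⟩
      have h1 := hS.card_edgeFinset
      rw [Nat.card_eq_fintype_card, ← edgeFinset_card, Nat.card_eq_fintype_card, hcard, h1]
    have hdiff : T.edgeFinset \ S'.edgeFinset = (T.edgeFinset \ S.edgeFinset).erase e := by
      ext z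
      rw [heset]
      simp only [Finset.mem_sdiff, Finset.mem_union, Finset.mem_erase, Finset.mem_singleton,
        mem_edgeFinset]
      constructor
      · rintro ⟨h1, h2⟩
        refine ⟨fun h => h2 (Or.inr h), h1, ?_⟩
        intro h
        apply h2
        left
        refine ⟨?_, h⟩
        intro h3; rw [h3] at h1; exact hfT h1
      · rintro ⟨h1, h2, h3⟩
        refine ⟨h2, ?_⟩
        rintro (⟨_, h5⟩ | h4)
        · exact h3 h5
        · exact h1 h4
    have hk' : (T.edgeFinset \ S'.edgeFinset).card = k := by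
      rw [hdiff, Finset.card_erase_of_mem]
      · omega
      · rw [Finset.mem_sdiff, mem_edgeFinset, mem_edgeFinset]; exact ⟨heT, heS⟩
    have hmain := ih S' hS' hk'
    refine hmain.trans ?_
    rw [heset, Finset.sum_union hdisj, Finset.sum_singleton, ← Finset.add_sum_erase _ _ hfS2]
    have h5 : w e ≤ w f := hA3 _ _ hd1 hd2
    linarith

end Pool.Agent.Helper745.Mst
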