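import Mathlib
import Pool.Agent.Helper745.Chain

set_option autoImplicit false

namespace Pool.Agent.Helper745.Tree

open SimpleGraph Pool.Agent.Helper745.Chain

/-- graph on labels g: u and v are adjacent if one label extends the other by one letter -/
def treeOf {n : ℕ} (g : Fin n → List (Fin 5)) : SimpleGraph (Fin n) :=
  SimpleGraph.fromRel (fun u v => ∃ i, g v = g u ++ [i])

theorem treeOf_adj {n : ℕ} {g : Fin n → List (Fin 5)} {u v : Fin n} :
    (treeOf g).Adj u v ↔ (∃ i, g v = g u ++ [i]) ∨ (∃ i, g u = g v ++ [i]) := by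
  unfold treeOf
  rw [fromRel_adj]
  constructor
  · exact fun h => h.2
  · intro h
    refine ⟨?_, h⟩
    rintro rfl
    rcases h with ⟨i, hi⟩ | ⟨i, hi⟩ <;>
    · have := congrArg List.length hi
      simp at this

theorem treeOf_isTree {n : ℕ} {g : Fin n → List (Fin 5)} (hg : Function.Injective g)
    (h0 : ∃ r, g r = []) (hp : ∀ v, ∃ u, g u = (g v).dropLast) : (treeOf g).IsTree := by
  obtain ⟨r, hr⟩ := h0
  have hreach : ∀ k : ℕ, ∀ v, (g v).length = k → (treeOf g).Reachable r v := by
    intro k
    induction k with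
    | zero =>
      intro v hv
      have : g v = g r := by rw [hr]; exact List.length_eq_zero_iff.mp hv
      rw [hg this]
    | succ k ih =>
      intro v hv
      have hne : g v ≠ [] := by intro h; rw [h] at hv; simp at hv
      obtain ⟨u, hu⟩ := hp v
      have h1 : (treeOf g).Reachable r u := ih u (by rw [hu, List.length_dropLast, hv]; rfl)
      refine h1.trans (Adj.reachable ?_)
      rw [treeOf_adj]
      refine Or.inl ⟨(g v).getLast hne, ?_⟩
      rw [hu]; exact (List.dropLast_append_getLast hne).symm
  have hconn : (treeOf g).Connected := by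
    have : Nonempty (Fin n) := ⟨r⟩
    refine ⟨fun u v => ?_⟩
    exact (hreach _ u rfl).symm.trans (hreach _ v rfl)
  choose par hpar using hp
  have hsub : (treeOf g).edgeSet ⊆ (fun v => s(par v, v)) '' {v | v ≠ r} := by
    intro e
    induction e using Sym2.ind with
    | _ u v =>
      intro he
      rw [mem_edgeSet, treeOf_adj] at he
      rcases he with ⟨i, hi⟩ | ⟨i, hi⟩
      · refine ⟨v, ?_, ?_⟩
        · rintro rfl
          rw [hr] at hi
          have := congrArg List.length hi
          simp at this
        · have : g (par v) = g u := by rw [hpar, hi]; simp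
          simp only
          rw [hg this]
      · refine ⟨u, ?_, ?_⟩
        · rintro rfl
          rw [hr] at hi
          have := congrArg List.length hi
          simp at this
        · have : g (par u) = g v := by rw [hpar, hi]; simp
          simp only
          rw [hg this, Sym2.eq_swap]
  rw [isTree_iff_connected_and_card]
  refine ⟨hconn, le_antisymm ?_ hconn.card_vert_le_card_edgeSet_add_one⟩
  have e1 : Nat.card (treeOf g).edgeSet = (treeOf g).edgeSet.ncard := rfl
  have c1 : (treeOf g).edgeSet.ncard ≤ ((fun v => s(par v, v)) '' {v | v ≠ r}).ncard :=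
    Set.ncard_le_ncard hsub (Set.toFinite _)
  have c2 : ((fun v => s(par v, v)) '' {v | v ≠ r}).ncard ≤ {v : Fin n | v ≠ r}.ncard :=
    Set.ncard_image_le (Set.toFinite _)
  have c3 : {v : Fin n | v ≠ r}.ncard + 1 = Nat.card (Fin n) := by
    have h1 : {v : Fin n | v ≠ r} = Set.univ \ {r} := by ext v; simp
    rw [h1, Set.ncard_sdiff_singleton_add_one (Set.mem_univ r) (Set.toFinite _), Set.ncard_univ]
  rw [e1]
  omega

theorem treeOf_degree {n : ℕ} {g : Fin n → List (Fin 5)} (hg : Function.Injective g)
    (h4 : ∀ v, ∀ x ∈ (g v).tail, x ≠ 4) (v : Fin n) :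
    ((treeOf g).neighborSet v).ncard ≤ 5 := by
  classical
  have hn : Nonempty (Fin n) := ⟨v⟩
  set F : List (Fin 5) → Fin n := Function.invFun g with hF
  have hFg : ∀ u, F (g u) = u := Function.leftInverse_invFun hg
  have key : ∃ h : Fin 5 → Fin n, (treeOf g).neighborSet v ⊆ Set.range h := by
    by_cases hv : g v = []
    · refine ⟨fun i => F (g v ++ [i]), ?_⟩
      intro u hu
      rw [mem_neighborSet, treeOf_adj] at hu
      rcases hu with ⟨i, hi⟩ | ⟨i, hi⟩
      · exact ⟨i, by simp only; rw [← hi, hFg]⟩
      · rw [hv] at hi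
        have := congrArg List.length hi
        simp at this
    · refine ⟨fun i => if i = 4 then F (g v).dropLast else F (g v ++ [i]), ?_⟩
      intro u hu
      rw [mem_neighborSet, treeOf_adj] at hu
      rcases hu with ⟨i, hi⟩ | ⟨i, hi⟩
      · have hi4 : i ≠ 4 := by
          apply h4 u
          rw [hi, tail_append_singleton hv]
          simp
        refine ⟨i, ?_⟩
        simp only
        rw [if_neg hi4, ← hi, hFg]
      · refine ⟨4, ?_⟩
        simp only [if_true]
        rw [hi, List.dropLast_concat, hFg]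
  obtain ⟨h, hh⟩ := key
  calc ((treeOf g).neighborSet v).ncard ≤ (Set.range h).ncard :=
        Set.ncard_le_ncard hh (Set.toFinite _)
    _ = (h '' Set.univ).ncard := by rw [Set.image_univ]
    _ ≤ (Set.univ : Set (Fin 5)).ncard := Set.ncard_image_le (Set.toFinite _)
    _ = 5 := by rw [Set.ncard_univ]; simp

theorem A_prefix {m L : ℕ} {l : List (Fin 5)} {i : Fin 5} (h : A m L (l ++ [i])) : A m L l := by
  obtain ⟨h1, h2⟩ := h
  refine ⟨?_, ?_⟩
  · intro x hx
    apply h1
    cases l with
    | nil => simp at hx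
    | cons a l => exact List.mem_append_left _ hx
  · by_cases h7 : l.length ≤ 7
    · exact Or.inl h7
    · right
      rcases h2 with h2 | ⟨h2, h3⟩ | ⟨h2, h3⟩
      · simp at h2; omega
      · left
        simp at h2
        refine ⟨by omega, ?_⟩
        intro x hx
        apply h3
        rw [List.drop_append_of_le_length (by omega), List.dropLast_concat]
        exact List.mem_of_mem_dropLast hx
      · right
        simp at h2
        refine ⟨by omega, ?_⟩
        intro x hx
        exact h3 x (List.mem_append_left _ hx)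

theorem A_nil {m L : ℕ} : A m L [] := ⟨by simp, Or.inl (by simp)⟩

theorem A_dropLast {m L : ℕ} {l : List (Fin 5)} (h : A m L l) : A m L l.dropLast := by
  by_cases hl : l = []
  · rw [hl]; exact A_nil
  · rw [← List.dropLast_append_getLast hl] at h
    exact A_prefix h

/-- number of short words -/
noncomputable def C0 : ℕ := {l : List (Fin 5) | l.length ≤ 7}.ncard

theorem finite_len (k : ℕ) : {l : List (Fin 5) | l.length ≤ k}.Finite :=
  List.finite_length_le (Fin 5) k

theorem C0_pos : 0 < C0 := by
  unfold C0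
  rw [Set.ncard_pos (finite_len 7)]
  exact ⟨[], by simp⟩

theorem A_finite (m L : ℕ) : {l | A m L l}.Finite := by
  apply (finite_len (7 + (m + 8) + L)).subset
  intro l hl
  obtain ⟨_, h⟩ := hl
  simp only [Set.mem_ofPred_eq]
  rcases h with h | h | h <;> omega

theorem A_card_succ {m L : ℕ} (hL : m + 8 ≤ L) :
    {l | A m (L + 1) l}.ncard = {l | A m L l}.ncard + 1 := by
  have h : {l | A m (L + 1) l} = insert (List.replicate (L + 1) 0) {l | A m L l} := by
    ext l
    simp only [Set.mem_ofPred_eq, Set.mem_insert_iff]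
    constructor
    · rintro ⟨h1, h2⟩
      rcases h2 with h2 | h2 | ⟨h2, h3⟩
      · exact Or.inr ⟨h1, Or.inl h2⟩
      · exact Or.inr ⟨h1, Or.inr (Or.inl h2)⟩
      · by_cases h4 : l.length = L + 1
        · left
          rw [← h4]
          exact List.eq_replicate_of_mem h3
        · exact Or.inr ⟨h1, Or.inr (Or.inr ⟨by omega, h3⟩)⟩
    · rintro (h | ⟨h1, h2⟩)
      · rw [h]
        refine ⟨?_, Or.inr (Or.inr ⟨by simp, fun x hx => List.eq_of_mem_replicate hx⟩)⟩
        intro x hx
        rw [List.eq_of_mem_replicate (List.mem_of_mem_tail hx)]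
        decide
      · refine ⟨h1, ?_⟩
        rcases h2 with h2 | h2 | ⟨h2, h3⟩
        · exact Or.inl h2
        · exact Or.inr (Or.inl h2)
        · exact Or.inr (Or.inr ⟨by omega, h3⟩)
  rw [h]
  apply Set.ncard_insert_of_notMem _ (A_finite m L)
  rintro ⟨_, h2⟩
  simp only [List.length_replicate] at h2
  rcases h2 with h2 | h2 | h2 <;> omega

theorem A_card_add {m : ℕ} (k : ℕ) :
    {l | A m (m + 8 + k) l}.ncard = {l | A m (m + 8) l}.ncard + k := by
  induction k with
  | zero => rfl
  | succ k ih =>
    rw [← Nat.add_assoc, A_card_succ (by omega), ih]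
    rfl

theorem A_card_le (m : ℕ) : {l | A m (m + 8) l}.ncard ≤ 45 * C0 * (m + 1) := by
  set F : List (Fin 5) → List (Fin 5) × ℕ × Fin 5 :=
    fun l => (l.take 7, l.length, (l.drop 7).getLastD 0) with hF
  have hrec : ∀ l, A m (m + 8) l → 7 < l.length →
      l = l.take 7 ++ (List.replicate (l.length - 8) 0 ++ [(l.drop 7).getLastD 0]) := by
    intro l hl h7
    have hne : l.drop 7 ≠ [] := by
      intro h
      have := congrArg List.length h
      simp at this; omega
    have h1 : ∀ x ∈ (l.drop 7).dropLast, x = 0 := by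
      rcases hl.2 with h | h | h
      · omega
      · exact h.2
      · intro x hx
        exact h.2 x (List.mem_of_mem_drop (List.mem_of_mem_dropLast hx))
    have h2 : (l.drop 7).dropLast = List.replicate (l.length - 8) 0 := by
      have h3 := List.eq_replicate_of_mem h1
      have h4 : (l.drop 7).dropLast.length = l.length - 8 := by
        rw [List.length_dropLast, List.length_drop]; omega
      rw [h4] at h3
      exact h3
    have h3 : (l.drop 7).getLastD 0 = (l.drop 7).getLast hne := by
      rw [List.getLastD_eq_getLast?, List.getLast?_eq_some_getLast hne]; rfl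
    rw [h3, ← h2, List.dropLast_append_getLast, List.take_append_drop]
  have hinj : Set.InjOn F {l | A m (m + 8) l} := by
    intro l hl l' hl' he
    simp only [hF, Prod.mk.injEq] at he
    obtain ⟨e1, e2, e3⟩ := he
    by_cases h7 : l.length ≤ 7
    · rw [List.take_of_length_le h7, List.take_of_length_le (by omega)] at e1
      exact e1
    · rw [hrec l hl (by omega), hrec l' hl' (by omega), e1, e2, e3]
  have hsub : F '' {l | A m (m + 8) l} ⊆
      {l : List (Fin 5) | l.length ≤ 7} ×ˢ ((Set.Iio (m + 9)) ×ˢ (Set.univ : Set (Fin 5))) := by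
    rintro _ ⟨l, hl, rfl⟩
    simp only [Set.mem_prod, Set.mem_ofPred_eq, Set.mem_Iio, Set.mem_univ, and_true, hF]
    refine ⟨by simp, ?_⟩
    rcases hl.2 with h | h | h <;> omega
  have hfin : ({l : List (Fin 5) | l.length ≤ 7} ×ˢ
      ((Set.Iio (m + 9)) ×ˢ (Set.univ : Set (Fin 5)))).Finite :=
    (finite_len 7).prod ((Set.finite_Iio _).prod (Set.toFinite _))
  have h1 := Set.ncard_le_ncard hsub hfin
  rw [Set.InjOn.ncard_image hinj, Set.ncard_prod, Set.ncard_prod, Set.ncard_univ] at h1
  have h2 : (Set.Iio (m + 9)).ncard = m + 9 := by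
    rw [← Finset.coe_Iio, Set.ncard_coe_finset]; simp
  rw [h2, Nat.card_eq_fintype_card, Fintype.card_fin] at h1
  change _ ≤ C0 * ((m + 9) * 5) at h1
  have h3 : (m + 9) * 5 ≤ 45 * (m + 1) := by omega
  calc _ ≤ C0 * ((m + 9) * 5) := h1
    _ ≤ C0 * (45 * (m + 1)) := Nat.mul_le_mul_left _ h3
    _ = 45 * C0 * (m + 1) := by ring

/-- the trees -/
theorem exists_tree (n m : ℕ) (h : 45 * C0 * (m + 1) ≤ n) :
    ∃ (T : SimpleGraph (Fin n)) (L : ℕ) (f : List (Fin 5) → Fin n), T.IsTree ∧
      (∀ v, (T.neighborSet v).ncard ≤ 5) ∧ Emb T m L f := by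
  classical
  have h1 := A_card_le m
  set L := m + 8 + (n - {l | A m (m + 8) l}.ncard) with hL
  have h2 : {l | A m L l}.ncard = n := by
    rw [hL, A_card_add]; omega
  have h3 : Nat.card {l // A m L l} = n := h2
  have : Finite {l // A m L l} := A_finite m L
  let e : {l // A m L l} ≃ Fin n := Finite.equivFinOfCardEq h3
  let g : Fin n → List (Fin 5) := fun v => (e.symm v).1
  have hg : Function.Injective g := fun u v huv => e.symm.injective (Subtype.ext huv)
  let f : List (Fin 5) → Fin n := fun l => if hl : A m L l then e ⟨l, hl⟩ else e ⟨[], A_nil⟩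
  have hf : ∀ l, A m L l → g (f l) = l := by
    intro l hl
    simp only [g, f, dif_pos hl, Equiv.symm_apply_apply]
  refine ⟨treeOf g, L, f, treeOf_isTree hg ⟨f [], hf _ A_nil⟩ ?_, ?_, ?_, ?_⟩
  · intro v
    exact ⟨f (g v).dropLast, hf _ (A_dropLast (e.symm v).2)⟩
  · exact treeOf_degree hg (fun v => (e.symm v).2.1)
  · intro l i hl
    rw [treeOf_adj]
    exact Or.inl ⟨i, by rw [hf _ hl, hf _ (A_prefix hl)]⟩
  · intro l l' hl hl' he
    rw [← hf l hl, ← hf l' hl', he]

end Pool.Agent.Helper745.Tree
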